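import Pool.Agent.Lib.MP_94aef8_gt.K.KDefs

/-!
The polar coordinate map and the metric.
-/

open scoped ContDiff Topology
open Matrix Filter Set Real

namespace Pool.Agent.Lib.MP_94aef8_gt.Kr

theorem PolG_proj (i : Fin 4) (p : E4) :
    HasFDerivAt (fun y : E4 => y i) (EuclideanSpace.proj i : E4 →L[ℝ] ℝ) p :=
  (EuclideanSpace.proj i : E4 →L[ℝ] ℝ).hasFDerivAt

theorem PolG_jac {a b c d : Fn} {A B C D : E4 →L[ℝ] ℝ} {p : E4} (ha : HasFDerivAt a A p)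
    (hb : HasFDerivAt b B p) (hc : HasFDerivAt c C p) (hd : HasFDerivAt d D p) :
    jac (fun x => mk4 (a x) (b x) (c x) (d x)) p =
      Matrix.of fun i j => ![A (bas j), B (bas j), C (bas j), D (bas j)] i := by
  ext i j
  fin_cases i
  exacts [congrArg (· (bas j)) ha.fderiv, congrArg (· (bas j)) hb.fderiv,
    congrArg (· (bas j)) hc.fderiv, congrArg (· (bas j)) hd.fderiv]

theorem R3_Ps {x : E4} (hx : x ∈ U1) : R3 (Ps x) = x 0 := by
  have h : u01 (Ps x) + Ps x 2 ^ 2 = x 0 ^ 2 := by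
    simp only [u01, Ps, mk4_0, mk4_1, mk4_2]
    linear_combination (x 0 * sin (x 1)) ^ 2 * sin_sq_add_cos_sq (x 2) +
      x 0 ^ 2 * sin_sq_add_cos_sq (x 1)
  rw [R3, h, sqrt_sq (zero_le_one.trans (le_of_lt hx))]

theorem R3_P0 {x : E4} (hx : x ∈ U1) : R3 (P0 x) = x 0 := by
  have h : u01 (P0 x) + P0 x 2 ^ 2 = x 0 ^ 2 := by
    simp only [u01, P0, mk4_0, mk4_1, mk4_2]
    linear_combination x 0 ^ 2 * sin_sq_add_cos_sq (x 1)
  rw [R3, h, sqrt_sq (zero_le_one.trans (le_of_lt hx))]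

theorem Ps_eq (x : E4) : Ps x = rot (x 2) (tsh (x 3) (P0 x)) := by
  simp only [Ps, rot, tsh, P0, mk4_0, mk4_1, mk4_2, mk4_3]
  congr 1 <;> ring

theorem cd_Ps : ContDiff ℝ ∞ Ps := by
  have h0 := cd_coord 0
  have h1 := cd_coord 1
  have h2 := cd_coord 2
  exact contDiffOn_univ.1 (cd_mk4 ((h0.mul h1.sin).mul h2.cos).contDiffOn
    ((h0.mul h1.sin).mul h2.sin).contDiffOn (h0.mul h1.cos).contDiffOn (cd_coord 3).contDiffOn)

theorem cd_P0 : ContDiff ℝ ∞ P0 := by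
  have h0 := cd_coord 0
  have h1 := cd_coord 1
  exact contDiffOn_univ.1 (cd_mk4 (h0.mul h1.sin).contDiffOn contDiffOn_const
    (h0.mul h1.cos).contDiffOn contDiffOn_const)

/-- Entrywise: `pd_mul`, `pd_one`, `pd_coord`. -/
theorem jac_Ps (x : E4) : jac Ps x = Rm (x 2) * Fr (x 1) * Dg x := by
  have h0 := PolG_proj 0 x
  have h1 := PolG_proj 1 x
  have h2 := PolG_proj 2 x
  have h := PolG_jac ((h0.fun_mul h1.sin).fun_mul h2.cos) ((h0.fun_mul h1.sin).fun_mul h2.sin)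
    (h0.fun_mul h1.cos) (PolG_proj 3 x)
  refine Eq.trans h ?_
  ext i j
  fin_cases i <;> fin_cases j <;>
    simp [bas, Rm, Fr, Dg, Matrix.mul_apply, Fin.sum_univ_four] <;> ring

theorem Rm_orth (a : ℝ) : Rm a * (Rm a)ᵀ = 1 := by
  have h := sin_sq_add_cos_sq a
  ext i j
  fin_cases i <;> fin_cases j <;> simp [Rm, Matrix.mul_apply, Fin.sum_univ_four] <;>
    linarith

theorem Fr_orth (θ : ℝ) : Fr θ * (Fr θ)ᵀ = 1 := by
  have h := sin_sq_add_cos_sq θ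
  ext i j
  fin_cases i <;> fin_cases j <;> simp [Fr, Matrix.mul_apply, Fin.sum_univ_four] <;>
    linarith

/-- The determinants of `Rm`, `Fr` are units by orthogonality. -/
theorem ldif_Ps : LDif Ps U2 Ext := by
  refine ⟨open_U2, cd_Ps.contDiffOn, fun x hx => ?_, fun x hx => ?_⟩
  · change 1 < R3 (Ps x)
    rw [R3_Ps hx.1]
    exact hx.1
  · have h0 : x 0 ≠ 0 := (zero_lt_one.trans hx.1).ne'
    have h1 := (U2.sin_pos hx).ne'
    rw [jac_Ps, det_mul, det_mul]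
    refine mul_ne_zero (mul_ne_zero (det_ne_zero_of_right_inverse (Rm_orth _))
      (det_ne_zero_of_right_inverse (Fr_orth _))) ?_
    simp [Dg, Fin.prod_univ_four, h0, h1]

/-- The twist terms vanish. -/
theorem GB_zero (x : E4) : GB 0 x = diagonal ![1, 1, 1, 1 - 1 / R3 x] +
    (1 / ((R3 x - 1) * R3 x ^ 2)) • sq1 ![x 0, x 1, x 2, 0] := by
  ext i j
  fin_cases i <;> fin_cases j <;> simp [GB, GSW, sq1, sym2, ee, vecMulVec_apply]

theorem PolG_cdR3 : ContDiffOn ℝ ∞ R3 Ext := by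
  have h0 := cd_coord 0
  have h1 := cd_coord 1
  have h2 := cd_coord 2
  refine ContDiffOn.sqrt (((h0.pow 2).add (h1.pow 2)).add (h2.pow 2)).contDiffOn fun x hx => ?_
  have h3 : 0 < R3 x := zero_lt_one.trans hx
  exact (Real.sqrt_pos.1 h3).ne'

/-- `R3` is smooth on `Ext` (`ContDiffOn.sqrt`); a positive diagonal matrix plus a non-negative
multiple of `vecMulVec a a` (`Matrix.PosDef.add_posSemidef`, `Matrix.posDef_diagonal_iff`). -/
theorem good_SW : Good (GB 0) Ext := by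
  refine ⟨open_Ext, fun i j => ?_, fun x hx => ?_⟩
  · have h1 : ContDiffOn ℝ ∞ (fun x => 1 - 1 / R3 x) Ext :=
      contDiffOn_const.sub (contDiffOn_const.div PolG_cdR3 fun x hx =>
        (zero_lt_one.trans hx).ne')
    have h2 : ContDiffOn ℝ ∞ (fun x => 1 / ((R3 x - 1) * R3 x ^ 2)) Ext :=
      contDiffOn_const.div ((PolG_cdR3.sub contDiffOn_const).mul (PolG_cdR3.pow 2)) fun x hx =>
        mul_ne_zero (sub_pos.2 hx).ne' (pow_ne_zero _ (zero_lt_one.trans hx).ne')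
    have h3 : ∀ k : Fin 4, ContDiffOn ℝ ∞ (fun x : E4 => ![x 0, x 1, x 2, 0] k) Ext := by
      intro k
      fin_cases k
      exacts [(cd_coord 0).contDiffOn, (cd_coord 1).contDiffOn, (cd_coord 2).contDiffOn,
        contDiffOn_const]
    have h4 : ∀ k : Fin 4, ContDiffOn ℝ ∞ (fun x : E4 => ![1, 1, 1, 1 - 1 / R3 x] k) Ext := by
      intro k
      fin_cases k
      exacts [contDiffOn_const, contDiffOn_const, contDiffOn_const, h1]
    simp only [GB_zero, Matrix.add_apply, Matrix.smul_apply, smul_eq_mul, sq1, vecMulVec_apply,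
      diagonal_apply]
    refine ContDiffOn.add ?_ (h2.mul ((h3 i).mul (h3 j)))
    split_ifs
    exacts [h4 i, contDiffOn_const]
  · have hx' : 1 < R3 x := hx
    rw [GB_zero]
    refine Matrix.PosDef.add_posSemidef (Matrix.posDef_diagonal_iff.2 fun k => ?_)
      (Matrix.PosSemidef.smul ?_ ?_)
    · have h1 : 0 < 1 - 1 / R3 x := sub_pos.2 ((div_lt_one (zero_lt_one.trans hx')).2 hx')
      fin_cases k
      exacts [zero_lt_one, zero_lt_one, zero_lt_one, h1]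
    · simpa [sq1] using Matrix.posSemidef_vecMulVec_self_star (![x 0, x 1, x 2, 0] : Fin 4 → ℝ)
    · have h1 : 0 < R3 x - 1 := sub_pos.2 hx'
      positivity

theorem PolG_sq1 (M : Mat) (a : Fin 4 → ℝ) : Mᵀ * sq1 a * M = sq1 (a ᵥ* M) := by
  rw [sq1, sq1, mul_vecMulVec, vecMulVec_mul, mulVec_transpose]

theorem PolG_pos (x : E4) :
    ![Ps x 0, Ps x 1, Ps x 2, 0] ᵥ* (Rm (x 2) * Fr (x 1) * Dg x) = ![x 0, 0, 0, 0] := by
  have h1 : ![Ps x 0, Ps x 1, Ps x 2, 0] ᵥ* Rm (x 2) =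
      ![x 0 * sin (x 1), 0, x 0 * cos (x 1), 0] := by
    ext k
    fin_cases k <;> simp [Ps, Rm, vecMul, dotProduct, Fin.sum_univ_four]
    · linear_combination x 0 * sin (x 1) * sin_sq_add_cos_sq (x 2)
    · ring
  have h2 : ![x 0 * sin (x 1), 0, x 0 * cos (x 1), 0] ᵥ* Fr (x 1) = ![x 0, 0, 0, 0] := by
    ext k
    fin_cases k <;> simp [Fr, vecMul, dotProduct, Fin.sum_univ_four]
    · linear_combination x 0 * sin_sq_add_cos_sq (x 1)
    · ring
  rw [← vecMul_vecMul, ← vecMul_vecMul, h1, h2]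
  ext k
  fin_cases k <;> simp [Dg, vecMul_diagonal]

theorem PolG_e3 (x : E4) :
    ![0, 0, 0, 1] ᵥ* (Rm (x 2) * Fr (x 1) * Dg x) = ![0, 0, 0, 1] := by
  have h1 : ![0, 0, 0, 1] ᵥ* Rm (x 2) = ![0, 0, 0, 1] := by
    ext k
    fin_cases k <;> simp [Rm, vecMul, dotProduct, Fin.sum_univ_four]
  have h2 : ![0, 0, 0, 1] ᵥ* Fr (x 1) = ![0, 0, 0, 1] := by
    ext k
    fin_cases k <;> simp [Fr, vecMul, dotProduct, Fin.sum_univ_four]
  rw [← vecMul_vecMul, ← vecMul_vecMul, h1, h2]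
  ext k
  fin_cases k <;> simp [Dg, vecMul_diagonal]

theorem PolG_gram (x : E4) :
    (Rm (x 2) * Fr (x 1) * Dg x)ᵀ * (Rm (x 2) * Fr (x 1) * Dg x) = Dg x * Dg x := by
  have h1 : (Rm (x 2))ᵀ * Rm (x 2) = 1 := mul_eq_one_comm.1 (Rm_orth _)
  have h2 : (Fr (x 1))ᵀ * Fr (x 1) = 1 := mul_eq_one_comm.1 (Fr_orth _)
  have h3 : (Dg x)ᵀ = Dg x := diagonal_transpose _
  calc _ = Dg x * ((Fr (x 1))ᵀ * ((Rm (x 2))ᵀ * Rm (x 2)) * Fr (x 1)) * Dg x := by
        simp only [transpose_mul, h3, Matrix.mul_assoc]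
    _ = _ := by rw [h1, Matrix.mul_one, h2, Matrix.mul_one]

/-- `jac_Ps`, `GB_zero`, `R3_Ps`; `(Rm φ * Fr θ)ᵀ` maps the position vector to `(R, 0, 0, 0)`. -/
theorem pull_SW {x : E4} (hx : x ∈ U1) : pull Ps (GB 0) x = Gp x := by
  have hx' : 1 < x 0 := hx
  have h0 : x 0 ≠ 0 := (zero_lt_one.trans hx').ne'
  have h1 : x 0 - 1 ≠ 0 := (sub_pos.2 hx').ne'
  have e : (diagonal ![1, 1, 1, 1 - 1 / x 0] : Mat) = 1 - (1 / x 0) • sq1 ![0, 0, 0, 1] := by
    ext i j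
    fin_cases i <;> fin_cases j <;> simp [sq1]
  rw [pull, jac_Ps, GB_zero, R3_Ps hx, e]
  simp only [Matrix.mul_add, Matrix.add_mul, Matrix.mul_sub, Matrix.sub_mul, Matrix.mul_smul,
    Matrix.smul_mul, Matrix.mul_one, PolG_sq1, PolG_pos, PolG_e3, PolG_gram]
  ext i j
  fin_cases i <;> fin_cases j <;> simp [Dg, Gp, sq1]
  · field_simp
    ring
  · ring
  · ring
  · field_simp

/-- Take `R = R3 y`, `θ = arccos (y 2 / R)`, `φ = Complex.arg (y 0 + y 1 * I)`; then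
`R sin θ = √(u01 y)`. -/
theorem Ps_surj {y : E4} (hy : y ∈ Ext) : ∃ x ∈ U1, 0 ≤ x 1 ∧ x 1 ≤ π ∧ Ps x = y := by
  have hy' : 1 < R3 y := hy
  have hR : 0 < R3 y := zero_lt_one.trans hy'
  have hu : 0 ≤ u01 y := add_nonneg (sq_nonneg _) (sq_nonneg _)
  have hs : R3 y ^ 2 = u01 y + y 2 ^ 2 := Real.sq_sqrt (add_nonneg hu (sq_nonneg _))
  have hb : |y 2| ≤ R3 y := abs_le_of_sq_le_sq' (by linarith) hR.le |> abs_le.2
  have hc : cos (arccos (y 2 / R3 y)) = y 2 / R3 y :=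
    cos_arccos ((le_div_iff₀ hR).2 (by linarith [(abs_le.1 hb).1]))
      ((div_le_one hR).2 (abs_le.1 hb).2)
  have hn : ‖(⟨y 0, y 1⟩ : ℂ)‖ ^ 2 = u01 y := by
    rw [Complex.sq_norm, Complex.normSq_mk, u01]
    ring
  have hsin : R3 y * sin (arccos (y 2 / R3 y)) = ‖(⟨y 0, y 1⟩ : ℂ)‖ := by
    refine (pow_left_inj₀ (mul_nonneg hR.le (sin_nonneg_of_nonneg_of_le_pi (arccos_nonneg _)
      (arccos_le_pi _))) (norm_nonneg _) two_ne_zero).1 ?_
    rw [hn, mul_pow, sin_sq, hc, div_pow, mul_sub, mul_div_cancel₀ _ (pow_ne_zero 2 hR.ne')]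
    linarith
  refine ⟨mk4 (R3 y) (arccos (y 2 / R3 y)) (Complex.arg ⟨y 0, y 1⟩) (y 3), hy',
    arccos_nonneg _, arccos_le_pi _, ?_⟩
  ext k
  fin_cases k
  · change R3 y * sin (arccos (y 2 / R3 y)) * cos (Complex.arg ⟨y 0, y 1⟩) = y 0
    rw [hsin, Complex.norm_mul_cos_arg]
  · change R3 y * sin (arccos (y 2 / R3 y)) * sin (Complex.arg ⟨y 0, y 1⟩) = y 1
    rw [hsin, Complex.norm_mul_sin_arg]
  · change R3 y * cos (arccos (y 2 / R3 y)) = y 2
    rw [hc, mul_div_cancel₀ _ hR.ne']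
  · rfl

/-- A continuous function on `Ext` which vanishes on the image of `U2` vanishes: for `y = Ps x`
(`Ps_surj`) the function `θ ↦ F (Ps (mk4 (x 0) θ (x 2) (x 3)))` is continuous on the line and
vanishes on `Ioo 0 π`, hence on its closure (`closure_Ioo`, `IsClosed.closure_subset`). -/
theorem ext_zero {F : Fn} (hF : ContinuousOn F Ext) (h0 : ∀ x ∈ U2, F (Ps x) = 0) :
    ∀ y ∈ Ext, F y = 0 := by
  intro y hy
  obtain ⟨x, hx, h1, h2, rfl⟩ := Ps_surj hy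
  have hc : Continuous fun θ : ℝ => mk4 (x 0) θ (x 2) (x 3) := by
    unfold mk4
    fun_prop
  have hm : ∀ θ : ℝ, Ps (mk4 (x 0) θ (x 2) (x 3)) ∈ Ext := fun θ => by
    have h3 : mk4 (x 0) θ (x 2) (x 3) ∈ U1 := hx
    change 1 < R3 _
    rw [R3_Ps h3]
    exact hx
  have hg : Continuous fun θ : ℝ => F (Ps (mk4 (x 0) θ (x 2) (x 3))) :=
    hF.comp_continuous (cd_Ps.continuous.comp hc) hm
  have hz : closure (Ioo 0 π) ⊆ {θ : ℝ | F (Ps (mk4 (x 0) θ (x 2) (x 3))) = 0} :=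
    (isClosed_eq hg continuous_const).closure_subset_iff.2 fun θ hθ => h0 _ ⟨hx, hθ.1, hθ.2⟩
  rw [closure_Ioo pi_ne_zero.symm] at hz
  have h4 := hz ⟨h1, h2⟩
  have e : mk4 (x 0) (x 1) (x 2) (x 3) = x := by
    ext k
    fin_cases k <;> rfl
  rwa [mem_ofPred_eq, e] at h4

theorem jac_tsh (a : ℝ) (x : E4) : jac (tsh a) x = 1 := by
  refine Eq.trans (PolG_jac (PolG_proj 0 x) (PolG_proj 1 x) (PolG_proj 2 x)
    ((PolG_proj 3 x).add_const a)) ?_
  ext i j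
  fin_cases i <;> fin_cases j <;> simp [bas]

theorem jac_rot (a : ℝ) (x : E4) : jac (rot a) x = Rm a := by
  have h0 := PolG_proj 0 x
  have h1 := PolG_proj 1 x
  refine Eq.trans (PolG_jac ((h0.const_mul (cos a)).fun_sub (h1.const_mul (sin a)))
    ((h0.const_mul (sin a)).fun_add (h1.const_mul (cos a))) (PolG_proj 2 x) (PolG_proj 3 x)) ?_
  ext i j
  fin_cases i <;> fin_cases j <;> simp [bas, Rm]

theorem jac_fl1 (x : E4) : jac fl1 x = diagonal ![1, -1, 1, -1] := by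
  refine Eq.trans (PolG_jac (PolG_proj 0 x) (PolG_proj 1 x).fun_neg (PolG_proj 2 x)
    (PolG_proj 3 x).fun_neg) ?_
  ext i j
  fin_cases i <;> fin_cases j <;> simp [bas]

theorem jac_fl2 (x : E4) : jac fl2 x = diagonal ![1, 1, -1, 1] := by
  refine Eq.trans (PolG_jac (PolG_proj 0 x) (PolG_proj 1 x) (PolG_proj 2 x).fun_neg
    (PolG_proj 3 x)) ?_
  ext i j
  fin_cases i <;> fin_cases j <;> simp [bas]

end Pool.Agent.Lib.MP_94aef8_gt.Kr
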