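import Pool.Agent.Lib.MP_94aef8_gt.K.KDefs

/-!
Connection and curvature in polar coordinates.
-/

open scoped ContDiff Topology
open Matrix Filter Set Real

namespace Pool.Agent.Lib.MP_94aef8_gt.Kr

variable {x : E4}

/-- Differentiable with given derivatives in the first two directions and zero in the others. -/
def PolW_H (f : Fn) (x : E4) (r t : ℝ) : Prop :=
  DifferentiableAt ℝ f x ∧ ∀ a, pd a f x = ![r, t, 0, 0] a

theorem PolW_sep {α β : ℝ → ℝ} {α' β' r t : ℝ} (hα : HasDerivAt α α' (x 0))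
    (hβ : HasDerivAt β β' (x 1)) (hr : α' * β (x 1) = r) (ht : α (x 0) * β' = t) :
    PolW_H (fun y => α (y 0) * β (y 1)) x r t :=
  ⟨diff_sep hα hβ, fun a => by rw [pd_sep hα hβ, hr, ht]⟩

theorem PolW_r {α : ℝ → ℝ} {α' r : ℝ} (hα : HasDerivAt α α' (x 0)) (hr : α' = r) :
    PolW_H (fun y => α (y 0)) x r 0 := by
  simpa using PolW_sep (r := r) (t := 0) hα (hasDerivAt_const (x 1) (1 : ℝ)) (by simp [hr])
    (by simp)

theorem PolW_t {β : ℝ → ℝ} {β' t : ℝ} (hβ : HasDerivAt β β' (x 1)) (ht : β' = t) :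
    PolW_H (fun y => β (y 1)) x 0 t := by
  simpa using PolW_sep (r := 0) (t := t) (hasDerivAt_const (x 0) (1 : ℝ)) hβ (by simp)
    (by simp [ht])

theorem PolW_diag (d : E4 → Fin 4 → ℝ) (a : Fin 4) :
    dmt a (fun y => diagonal (d y)) x = diagonal fun i => pd a (fun y => d y i) x := by
  ext i j
  by_cases h : i = j
  · simp [dmt, h]
  · simp [dmt, h, pd_const]

theorem PolW_c (a : Fin 4) : a = 0 ∨ a = 1 ∨ a = 2 ∨ a = 3 := by
  revert a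
  decide

theorem inv_Gp (hx : x ∈ U2) : (Gp x)⁻¹ = Hp x := by
  have h1 : x 0 - 1 ≠ 0 := sub_ne_zero.2 hx.1.ne'
  have h0 : x 0 ≠ 0 := (zero_lt_one.trans hx.1).ne'
  have hs : sin (x 1) ≠ 0 := (U2.sin_pos hx).ne'
  refine inv_eq_right_inv ?_
  rw [Gp, Hp, diagonal_mul_diagonal, ← diagonal_one]
  congr 1
  funext i
  fin_cases i <;> simp <;> field_simp

/-- Each diagonal entry is `α (x 0) * β (x 1)`: `pd_sep`; the others are constant. -/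
theorem dmt_Gp (hx : x ∈ U1) (a : Fin 4) : dmt a Gp x =
    ![diagonal ![-1 / (x 0 - 1) ^ 2, 2 * x 0, 2 * x 0 * sin (x 1) ^ 2, 1 / x 0 ^ 2],
      diagonal ![0, 0, x 0 ^ 2 * (2 * sin (x 1) * cos (x 1)), 0], 0, 0] a := by
  have h1 : x 0 - 1 ≠ 0 := sub_ne_zero.2 (ne_of_gt hx)
  have h0 : x 0 ≠ 0 := (zero_lt_one.trans hx).ne'
  have i0 := hasDerivAt_id' (x 0)
  have g0 : PolW_H (fun y => y 0 / (y 0 - 1)) x (-1 / (x 0 - 1) ^ 2) 0 :=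
    PolW_r (i0.fun_div (i0.sub_const 1) h1) (by ring)
  have g1 : PolW_H (fun y => y 0 ^ 2) x (2 * x 0) 0 := PolW_r (i0.fun_pow 2) (by simp)
  have g2 : PolW_H (fun y => y 0 ^ 2 * sin (y 1) ^ 2) x (2 * x 0 * sin (x 1) ^ 2)
      (x 0 ^ 2 * (2 * sin (x 1) * cos (x 1))) :=
    PolW_sep (i0.fun_pow 2) ((hasDerivAt_sin _).fun_pow 2) (by simp) (by simp)
  have g3 : PolW_H (fun y => (y 0 - 1) / y 0) x (1 / x 0 ^ 2) 0 :=
    PolW_r ((i0.sub_const 1).fun_div i0 h0) (by ring)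
  have e : dmt a Gp x = diagonal ![![-1 / (x 0 - 1) ^ 2, 0, 0, 0] a, ![2 * x 0, 0, 0, 0] a,
      ![2 * x 0 * sin (x 1) ^ 2, x 0 ^ 2 * (2 * sin (x 1) * cos (x 1)), 0, 0] a,
      ![1 / x 0 ^ 2, 0, 0, 0] a] := by
    refine (PolW_diag _ a).trans (congrArg diagonal (funext fun i => ?_))
    fin_cases i
    exacts [g0.2 a, g1.2 a, g2.2 a, g3.2 a]
  have z : diagonal ![(0 : ℝ), 0, 0, 0] = 0 := by
    rw [← diagonal_zero]
    congr 1
    funext i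
    fin_cases i <;> rfl
  rw [e]
  fin_cases a
  exacts [rfl, rfl, z, z]

theorem PolW_dG (hx : x ∈ U1) (a i j : Fin 4) : dmt a Gp x i j = if i = j then
    !![-1 / (x 0 - 1) ^ 2, 2 * x 0, 2 * x 0 * sin (x 1) ^ 2, 1 / x 0 ^ 2;
      0, 0, x 0 ^ 2 * (2 * sin (x 1) * cos (x 1)), 0; 0, 0, 0, 0; 0, 0, 0, 0] a i else 0 := by
  rw [dmt_Gp hx]
  fin_cases a
  · rfl
  · rfl
  all_goals fin_cases i <;> exact (ite_self _).symm

theorem PolW_p0 (R θ : ℝ) : Wp R θ 0 = !![-1 / (2 * R * (R - 1)), 0, 0, 0; 0, 1 / R, 0, 0;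
    0, 0, 1 / R, 0; 0, 0, 0, 1 / (2 * R * (R - 1))] := rfl

theorem PolW_p1 (R θ : ℝ) : Wp R θ 1 =
    !![0, 1 - R, 0, 0; 1 / R, 0, 0, 0; 0, 0, cos θ / sin θ, 0; 0, 0, 0, 0] := rfl

theorem PolW_p2 (R θ : ℝ) : Wp R θ 2 = !![0, 0, (1 - R) * sin θ ^ 2, 0;
    0, 0, -(cos θ * sin θ), 0; 1 / R, cos θ / sin θ, 0, 0; 0, 0, 0, 0] := rfl

theorem PolW_p3 (R θ : ℝ) : Wp R θ 3 = !![0, 0, 0, (1 - R) / (2 * R ^ 3); 0, 0, 0, 0; 0, 0, 0, 0;
    1 / (2 * R * (R - 1)), 0, 0, 0] := rfl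

/-- `wm_apply`, `inv_Gp`, `dmt_Gp`, all 64 cases by `simp`, `field_simp`, `ring`. -/
theorem wm_Gp (hx : x ∈ U2) (a : Fin 4) : wm Gp a x = Wp (x 0) (x 1) a := by
  have h1 : x 0 - 1 ≠ 0 := sub_ne_zero.2 hx.1.ne'
  have h0 : x 0 ≠ 0 := (zero_lt_one.trans hx.1).ne'
  have hs : sin (x 1) ≠ 0 := (U2.sin_pos hx).ne'
  have hU : x ∈ U1 := hx.1
  ext k j
  rw [wm_apply, inv_Gp hx, Hp]
  simp only [diagonal_apply, ite_mul, zero_mul, Finset.sum_ite_eq, Finset.mem_univ, if_true,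
    PolW_dG hU]
  rcases PolW_c a with rfl | rfl | rfl | rfl <;> rcases PolW_c k with rfl | rfl | rfl | rfl <;>
    rcases PolW_c j with rfl | rfl | rfl | rfl <;>
    simp [PolW_p0, PolW_p1, PolW_p2, PolW_p3] <;> field_simp <;> ring

theorem PolW_Wp (hx : x ∈ U2) (b i j : Fin 4) : PolW_H (fun y => Wp (y 0) (y 1) b i j) x
    (Wr (x 0) (x 1) b i j) (Wt (x 0) (x 1) b i j) := by
  have h1 : x 0 - 1 ≠ 0 := sub_ne_zero.2 hx.1.ne'
  have h0 : x 0 ≠ 0 := (zero_lt_one.trans hx.1).ne'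
  have hs : sin (x 1) ≠ 0 := (U2.sin_pos hx).ne'
  have i0 := hasDerivAt_id' (x 0)
  have q : HasDerivAt (fun R : ℝ => 2 * R * (R - 1)) _ (x 0) :=
    (i0.const_mul 2).fun_mul (i0.sub_const 1)
  have q0 : 2 * x 0 * (x 0 - 1) ≠ 0 := by positivity
  have z : PolW_H (fun _ => 0) x 0 0 := PolW_r (hasDerivAt_const (x 0) (0 : ℝ)) rfl
  have f1 : PolW_H (fun y => -1 / (2 * y 0 * (y 0 - 1))) x
      ((2 * x 0 - 1) / (2 * x 0 ^ 2 * (x 0 - 1) ^ 2)) 0 :=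
    PolW_r ((hasDerivAt_const _ (-1 : ℝ)).fun_div q q0) (by field_simp; ring)
  have f2 : PolW_H (fun y => 1 / y 0) x (-1 / x 0 ^ 2) 0 :=
    PolW_r ((hasDerivAt_const _ (1 : ℝ)).fun_div i0 h0) (by ring)
  have f3 : PolW_H (fun y => 1 / (2 * y 0 * (y 0 - 1))) x
      (-(2 * x 0 - 1) / (2 * x 0 ^ 2 * (x 0 - 1) ^ 2)) 0 :=
    PolW_r ((hasDerivAt_const _ (1 : ℝ)).fun_div q q0) (by field_simp; ring)
  have f4 : PolW_H (fun y => 1 - y 0) x (-1) 0 := PolW_r (i0.const_sub 1) rfl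
  have f5 : PolW_H (fun y => cos (y 1) / sin (y 1)) x 0 (-1 / sin (x 1) ^ 2) :=
    PolW_t ((hasDerivAt_cos _).fun_div (hasDerivAt_sin _) hs)
      (by congr 1; linear_combination -sin_sq_add_cos_sq (x 1))
  have f6 : PolW_H (fun y => (1 - y 0) * sin (y 1) ^ 2) x (-sin (x 1) ^ 2)
      ((1 - x 0) * (2 * sin (x 1) * cos (x 1))) :=
    PolW_sep (i0.const_sub 1) ((hasDerivAt_sin _).fun_pow 2) (by ring) (by simp)
  have f7 : PolW_H (fun y => -(cos (y 1) * sin (y 1))) x 0 (sin (x 1) ^ 2 - cos (x 1) ^ 2) :=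
    PolW_t ((hasDerivAt_cos _).fun_mul (hasDerivAt_sin _)).fun_neg (by ring)
  have f8 : PolW_H (fun y => (1 - y 0) / (2 * y 0 ^ 3)) x ((2 * x 0 - 3) / (2 * x 0 ^ 4)) 0 :=
    PolW_r ((i0.const_sub 1).fun_div ((i0.fun_pow 3).const_mul 2) (by positivity))
      (by simp; field_simp; ring)
  fin_cases b <;> fin_cases i <;> fin_cases j
  exacts [f1, z, z, z, z, f2, z, z, z, z, f2, z, z, z, z, f3,
    z, f4, z, z, f2, z, z, z, z, z, f5, z, z, z, z, z,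
    z, z, f6, z, z, z, f7, z, f2, f5, z, z, z, z, z, z,
    z, z, z, f8, z, z, z, z, z, z, z, z, f3, z, z, z]

theorem dt_Wp (hx : x ∈ U2) (b : Fin 4) : DT (fun y => Wp (y 0) (y 1) b) x := by
  exact fun i j => (PolW_Wp hx b i j).1

/-- Prove one `pd` lemma for each of the eight functions which occur (`pd_sep`, with the factor
`1` where needed), then all the cases by `simp`. -/
theorem dmt_Wp (hx : x ∈ U2) (a b : Fin 4) : dmt a (fun y => Wp (y 0) (y 1) b) x =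
    ![Wr (x 0) (x 1) b, Wt (x 0) (x 1) b, 0, 0] a := by
  ext i j
  refine ((PolW_Wp hx b i j).2 a).trans ?_
  fin_cases a <;> rfl

theorem wm_ev (hx : x ∈ U2) (b : Fin 4) : wm Gp b =ᶠ[𝓝 x] fun y => Wp (y 0) (y 1) b :=
  mem_of_superset (open_U2.mem_nhds hx) fun _ hy => wm_Gp hy b

theorem dt_wmGp (hx : x ∈ U2) (b : Fin 4) : DT (wm Gp b) x := (dt_Wp hx b).congr (wm_ev hx b)

theorem dmt_wm (hx : x ∈ U2) (a b : Fin 4) :
    dmt a (wm Gp b) x = ![Wr (x 0) (x 1) b, Wt (x 0) (x 1) b, 0, 0] a := by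
  rw [dmt_congr (wm_ev hx b), dmt_Wp hx]

/-- The sectional curvatures times `R ^ 3`. -/
noncomputable def kap : Mat :=
  !![0, -1 / 2, -1 / 2, 1; -1 / 2, 0, 1, -1 / 2; -1 / 2, 1, 0, -1 / 2; 1, -1 / 2, -1 / 2, 0]

theorem PolW_r0 (R θ : ℝ) : Wr R θ 0 =
    !![(2 * R - 1) / (2 * R ^ 2 * (R - 1) ^ 2), 0, 0, 0; 0, -1 / R ^ 2, 0, 0;
      0, 0, -1 / R ^ 2, 0; 0, 0, 0, -(2 * R - 1) / (2 * R ^ 2 * (R - 1) ^ 2)] := rfl

theorem PolW_r1 (R θ : ℝ) : Wr R θ 1 =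
    !![0, -1, 0, 0; -1 / R ^ 2, 0, 0, 0; 0, 0, 0, 0; 0, 0, 0, 0] := rfl

theorem PolW_r2 (R θ : ℝ) : Wr R θ 2 =
    !![0, 0, -sin θ ^ 2, 0; 0, 0, 0, 0; -1 / R ^ 2, 0, 0, 0; 0, 0, 0, 0] := rfl

theorem PolW_r3 (R θ : ℝ) : Wr R θ 3 =
    !![0, 0, 0, (2 * R - 3) / (2 * R ^ 4); 0, 0, 0, 0; 0, 0, 0, 0;
      -(2 * R - 1) / (2 * R ^ 2 * (R - 1) ^ 2), 0, 0, 0] := rfl

theorem PolW_t0 (R θ : ℝ) : Wt R θ 0 =
    0 := rfl

theorem PolW_t1 (R θ : ℝ) : Wt R θ 1 =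
    !![0, 0, 0, 0; 0, 0, 0, 0; 0, 0, -1 / sin θ ^ 2, 0; 0, 0, 0, 0] := rfl

theorem PolW_t2 (R θ : ℝ) : Wt R θ 2 =
    !![0, 0, (1 - R) * (2 * sin θ * cos θ), 0; 0, 0, sin θ ^ 2 - cos θ ^ 2, 0;
      0, -1 / sin θ ^ 2, 0, 0; 0, 0, 0, 0] := rfl

theorem PolW_t3 (R θ : ℝ) : Wt R θ 3 =
    0 := rfl

theorem PolW_d0 (hx : x ∈ U2) (b : Fin 4) : dmt 0 (wm Gp b) x = Wr (x 0) (x 1) b := dmt_wm hx 0 b

theorem PolW_d1 (hx : x ∈ U2) (b : Fin 4) : dmt 1 (wm Gp b) x = Wt (x 0) (x 1) b := dmt_wm hx 1 b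

theorem PolW_d2 (hx : x ∈ U2) (b : Fin 4) : dmt 2 (wm Gp b) x = 0 := dmt_wm hx 2 b

theorem PolW_d3 (hx : x ∈ U2) (b : Fin 4) : dmt 3 (wm Gp b) x = 0 := dmt_wm hx 3 b

/-- The statement for one pair of indices. -/
def PolW_R (x : E4) (a b : Fin 4) : Prop := ∀ k l, rm Gp a b x k l = kap a b / x 0 ^ 3 *
  ((if k = a then Gp x b l else 0) - if k = b then Gp x a l else 0)

theorem PolW_self (x : E4) (a : Fin 4) : PolW_R x a a := fun k l => by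
  rw [rm_eq, sub_self, sub_self, zero_add, sub_self, mul_zero, Matrix.zero_apply]

theorem PolW_swap {a b : Fin 4} (h : PolW_R x a b) (hk : kap b a = kap a b) : PolW_R x b a :=
  fun k l => by
    have h1 := h k l
    rw [rm_eq] at h1 ⊢
    simp only [Matrix.add_apply, Matrix.sub_apply] at h1 ⊢
    rw [hk]
    linear_combination -h1

theorem PolW_R01 (hx : x ∈ U2) : PolW_R x 0 1 := fun k l => by
  have h1 : x 0 - 1 ≠ 0 := sub_ne_zero.2 hx.1.ne'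
  have h0 : x 0 ≠ 0 := (zero_lt_one.trans hx.1).ne'
  have hs : sin (x 1) ≠ 0 := (U2.sin_pos hx).ne'
  rw [rm_eq, PolW_d0 hx, PolW_d1 hx, wm_Gp hx, wm_Gp hx, PolW_p0, PolW_p1]
  rcases PolW_c k with rfl | rfl | rfl | rfl <;> rcases PolW_c l with rfl | rfl | rfl | rfl <;>
    simp [PolW_r1, PolW_t0, kap, Gp] <;>
    field_simp <;> ring

theorem PolW_R02 (hx : x ∈ U2) : PolW_R x 0 2 := fun k l => by
  have h1 : x 0 - 1 ≠ 0 := sub_ne_zero.2 hx.1.ne'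
  have h0 : x 0 ≠ 0 := (zero_lt_one.trans hx.1).ne'
  have hs : sin (x 1) ≠ 0 := (U2.sin_pos hx).ne'
  rw [rm_eq, PolW_d0 hx, PolW_d2 hx, wm_Gp hx, wm_Gp hx, PolW_p0, PolW_p2]
  rcases PolW_c k with rfl | rfl | rfl | rfl <;> rcases PolW_c l with rfl | rfl | rfl | rfl <;>
    simp [PolW_r2, kap, Gp] <;>
    field_simp <;> ring

theorem PolW_R03 (hx : x ∈ U2) : PolW_R x 0 3 := fun k l => by
  have h1 : x 0 - 1 ≠ 0 := sub_ne_zero.2 hx.1.ne'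
  have h0 : x 0 ≠ 0 := (zero_lt_one.trans hx.1).ne'
  have hs : sin (x 1) ≠ 0 := (U2.sin_pos hx).ne'
  rw [rm_eq, PolW_d0 hx, PolW_d3 hx, wm_Gp hx, wm_Gp hx, PolW_p0, PolW_p3]
  rcases PolW_c k with rfl | rfl | rfl | rfl <;> rcases PolW_c l with rfl | rfl | rfl | rfl <;>
    simp [PolW_r3, kap, Gp] <;>
    field_simp <;> ring

theorem PolW_R12 (hx : x ∈ U2) : PolW_R x 1 2 := fun k l => by
  have h1 : x 0 - 1 ≠ 0 := sub_ne_zero.2 hx.1.ne'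
  have h0 : x 0 ≠ 0 := (zero_lt_one.trans hx.1).ne'
  have hs : sin (x 1) ≠ 0 := (U2.sin_pos hx).ne'
  rw [rm_eq, PolW_d1 hx, PolW_d2 hx, wm_Gp hx, wm_Gp hx, PolW_p1, PolW_p2]
  rcases PolW_c k with rfl | rfl | rfl | rfl <;> rcases PolW_c l with rfl | rfl | rfl | rfl <;>
    simp [PolW_t2, kap, Gp] <;>
    field_simp <;> (try simp only [cos_sq']) <;> ring

theorem PolW_R13 (hx : x ∈ U2) : PolW_R x 1 3 := fun k l => by
  have h1 : x 0 - 1 ≠ 0 := sub_ne_zero.2 hx.1.ne'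
  have h0 : x 0 ≠ 0 := (zero_lt_one.trans hx.1).ne'
  have hs : sin (x 1) ≠ 0 := (U2.sin_pos hx).ne'
  rw [rm_eq, PolW_d1 hx, PolW_d3 hx, wm_Gp hx, wm_Gp hx, PolW_p1, PolW_p3]
  rcases PolW_c k with rfl | rfl | rfl | rfl <;> rcases PolW_c l with rfl | rfl | rfl | rfl <;>
    simp [PolW_t3, kap, Gp] <;>
    field_simp <;> ring

theorem PolW_R23 (hx : x ∈ U2) : PolW_R x 2 3 := fun k l => by
  have h1 : x 0 - 1 ≠ 0 := sub_ne_zero.2 hx.1.ne'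
  have h0 : x 0 ≠ 0 := (zero_lt_one.trans hx.1).ne'
  have hs : sin (x 1) ≠ 0 := (U2.sin_pos hx).ne'
  rw [rm_eq, PolW_d2 hx, PolW_d3 hx, wm_Gp hx, wm_Gp hx, PolW_p2, PolW_p3]
  rcases PolW_c k with rfl | rfl | rfl | rfl <;> rcases PolW_c l with rfl | rfl | rfl | rfl <;>
    simp [kap, Gp] <;>
    field_simp <;> ring

/-- `rm_eq`, `dmt_wm`, `wm_Gp`; sixteen matrix identities (use `cos ^ 2 = 1 - sin ^ 2`). -/
theorem rm_Gp (hx : x ∈ U2) (a b k l : Fin 4) : rm Gp a b x k l = kap a b / x 0 ^ 3 *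
    ((if k = a then Gp x b l else 0) - if k = b then Gp x a l else 0) := by
  suffices h : PolW_R x a b from h k l
  rcases PolW_c a with rfl | rfl | rfl | rfl <;> rcases PolW_c b with rfl | rfl | rfl | rfl
  exacts [PolW_self x 0, PolW_R01 hx, PolW_R02 hx, PolW_R03 hx, PolW_swap (PolW_R01 hx) rfl,
    PolW_self x 1, PolW_R12 hx, PolW_R13 hx, PolW_swap (PolW_R02 hx) rfl,
    PolW_swap (PolW_R12 hx) rfl, PolW_self x 2, PolW_R23 hx, PolW_swap (PolW_R03 hx) rfl,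
    PolW_swap (PolW_R13 hx) rfl, PolW_swap (PolW_R23 hx) rfl, PolW_self x 3]

theorem ric_Gp (hx : x ∈ U2) : ric Gp x = 0 := by
  have h1 : x 0 - 1 ≠ 0 := sub_ne_zero.2 hx.1.ne'
  have h0 : x 0 ≠ 0 := (zero_lt_one.trans hx.1).ne'
  ext j k
  simp only [ric_apply, rm_Gp hx, Fin.sum_univ_four]
  rcases PolW_c j with rfl | rfl | rfl | rfl <;> rcases PolW_c k with rfl | rfl | rfl | rfl <;>
    simp [kap, Gp] <;> ring

/-- `rring_apply`, `rm_Gp`, `inv_Gp`. -/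
theorem rring_Gp (hx : x ∈ U2) (h : Tn) (i j : Fin 4) : rring Gp h x i j =
    ((if i = j then Gp x i i * ∑ a, kap a i * (Hp x a a * h x a a) else 0) - kap j i * h x j i) /
      x 0 ^ 3 := by
  have h1 : x 0 - 1 ≠ 0 := sub_ne_zero.2 hx.1.ne'
  have h0 : x 0 ≠ 0 := (zero_lt_one.trans hx.1).ne'
  have hs : sin (x 1) ≠ 0 := (U2.sin_pos hx).ne'
  have e : ∀ a, (Hp x * h x * rm Gp a i x) a j =
      ∑ l, Hp x a a * h x a l * rm Gp a i x l j := fun a => by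
    rw [Matrix.mul_apply]
    simp only [Hp, diagonal_mul, diagonal_apply_eq]
  rw [rring_apply, inv_Gp hx]
  simp only [e, rm_Gp hx, Fin.sum_univ_four]
  rcases PolW_c i with rfl | rfl | rfl | rfl <;> rcases PolW_c j with rfl | rfl | rfl | rfl <;>
    simp [kap, Gp, Hp] <;> field_simp

end Pool.Agent.Lib.MP_94aef8_gt.Kr
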