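import Pool.Agent.Lib.MP_94aef8_gt.K.BStub
import Pool.Agent.Lib.MP_94aef8_gt.K.PolG
import Pool.Agent.Lib.MP_94aef8_gt.K.PolW

/-!
The Schwarzschild metric is Ricci flat.
-/

open scoped ContDiff Topology
open Matrix Filter Set Real

namespace Pool.Agent.Lib.MP_94aef8_gt.Kr

theorem pull_ev {x : E4} (hx : x ∈ U2) : pull Ps (GB 0) =ᶠ[𝓝 x] Gp :=
  mem_of_superset (open_U2.mem_nhds hx) fun _ hy => pull_SW hy.1

theorem zero_of_conj {J A : Mat} (hJ : J.det ≠ 0) (h : Jᵀ * A * J = 0) : A = 0 := by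
  have h1 : IsUnit J := (Matrix.isUnit_iff_isUnit_det J).2 (isUnit_iff_ne_zero.2 hJ)
  have h2 : IsUnit Jᵀ := (Matrix.isUnit_iff_isUnit_det _).2
    (isUnit_iff_ne_zero.2 (by rwa [Matrix.det_transpose]))
  exact h2.mul_right_eq_zero.1 (h1.mul_left_eq_zero.1 h)

end Kr

theorem good_SW : Good (GB 0) {x | 1 < R3 x} := Kr.good_SW

theorem ric_SW {y : E4} (hy : 1 < R3 y) : ric (GB 0) y = 0 := by
  ext j k
  refine Kr.ext_zero (Kr.cont_ric Kr.good_SW j k) (fun x hx => ?_) y hy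
  have h1 := Kr.ric_pull Kr.good_SW Kr.ldif_Ps hx
  rw [Kr.ric_congr (Kr.pull_ev hx), Kr.ric_Gp hx] at h1
  rw [Kr.zero_of_conj (Kr.ldif_Ps.det x hx) h1.symm]
  rfl

end Pool.Agent.Lib.MP_94aef8_gt
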