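import Mathlib

/-!
The kernel of the Lichnerowicz Laplacian on the Schwarzschild space: the system of equations in
the variables `(R, θ)`, its modes and the system of ordinary differential equations.
-/

open Real Set Filter Polynomial
open scoped Topology

namespace Pool.Agent.Lib.MP_94aef8_gt.Kr

/-- A function of `(R, θ)` with its first and second pure derivatives. -/
structure J2 : Type where
  f : ℝ → ℝ → ℝ
  r : ℝ → ℝ → ℝ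
  rr : ℝ → ℝ → ℝ
  t : ℝ → ℝ → ℝ
  tt : ℝ → ℝ → ℝ

/-- Jointly continuous for `1 < R`. -/
def Ct (c : ℝ → ℝ → ℝ) : Prop := ContinuousOn (fun z : ℝ × ℝ => c z.1 z.2) (Ioi 1 ×ˢ univ)

/-- The entries are the derivatives and they are continuous. -/
structure J2.OK (c : J2) : Prop where
  dr : ∀ R θ, 1 < R → HasDerivAt (fun x => c.f x θ) (c.r R θ) R
  drr : ∀ R θ, 1 < R → HasDerivAt (fun x => c.r x θ) (c.rr R θ) R
  dt : ∀ R θ, 1 < R → HasDerivAt (c.f R) (c.t R θ) θ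
  dtt : ∀ R θ, 1 < R → HasDerivAt (c.t R) (c.tt R θ) θ
  cf : Ct c.f
  cr : Ct c.r
  crr : Ct c.rr
  ct : Ct c.t
  ctt : Ct c.tt

/-- `c + e d`. -/
def J2.cmb (c : J2) (e : ℝ) (d : J2) : J2 :=
  ⟨fun R θ => c.f R θ + e * d.f R θ, fun R θ => c.r R θ + e * d.r R θ,
    fun R θ => c.rr R θ + e * d.rr R θ, fun R θ => c.t R θ + e * d.t R θ,
    fun R θ => c.tt R θ + e * d.tt R θ⟩

/-- `- R ^ 2` times the Laplacian on functions. -/
noncomputable def J2.L (c : J2) (R θ : ℝ) : ℝ :=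
  -(R ^ 2 - R) * c.rr R θ - (2 * R - 1) * c.r R θ - c.tt R θ - cos θ / sin θ * c.t R θ

/-- `√(R (R - 1))`. -/
noncomputable def sg (R : ℝ) : ℝ := √(R * (R - 1))

/-- The equations for `h = b dR^2 / f + 2 v dR dθ + R^2 p dθ^2 + R^2 sin^2 θ q dφ^2 + 2 u dφ dt
+ f a dt^2`. -/
structure Eqs (a b p q v u : J2) : Prop where
  ea : ∀ R θ, 1 < R → 0 < θ → θ < π → a.L R θ + a.f R θ / (2 * R * (R - 1)) +
    (3 - 4 * R) / (2 * R * (R - 1)) * b.f R θ + (p.f R θ + q.f R θ) / R = 0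
  eb : ∀ R θ, 1 < R → 0 < θ → θ < π → b.L R θ + (3 - 4 * R) / (2 * R * (R - 1)) * a.f R θ +
    (8 * R ^ 2 - 16 * R + 9) / (2 * R * (R - 1)) * b.f R θ + (3 - 2 * R) / R * (p.f R θ + q.f R θ) +
    4 * (R - 1) / R ^ 2 * (v.t R θ + cos θ / sin θ * v.f R θ) = 0
  ep : ∀ R θ, 1 < R → 0 < θ → θ < π → p.L R θ + a.f R θ / R + (3 - 2 * R) / R * b.f R θ +
    (2 / sin θ ^ 2 - 2 / R) * p.f R θ + (2 - 2 / R - 2 / sin θ ^ 2) * q.f R θ -
    4 * (R - 1) / R ^ 2 * v.t R θ = 0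
  eq : ∀ R θ, 1 < R → 0 < θ → θ < π → q.L R θ + a.f R θ / R + (3 - 2 * R) / R * b.f R θ +
    (2 - 2 / R - 2 / sin θ ^ 2) * p.f R θ + (2 / sin θ ^ 2 - 2 / R) * q.f R θ -
    4 * (R - 1) / R ^ 2 * (cos θ / sin θ * v.f R θ) = 0
  ev : ∀ R θ, 1 < R → 0 < θ → θ < π → -(R ^ 2 - R) * v.rr R θ - 2 * v.r R θ - v.tt R θ -
    cos θ / sin θ * v.t R θ + (4 - 4 / R + 1 / sin θ ^ 2) * v.f R θ - 2 * R * b.t R θ +
    2 * R * p.t R θ + 2 * R * (cos θ / sin θ) * (p.f R θ - q.f R θ) = 0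
  eu : ∀ R θ, 1 < R → 0 < θ → θ < π → -(R ^ 2 - R) * u.rr R θ - u.tt R θ +
    cos θ / sin θ * u.t R θ - 2 / R * u.f R θ = 0

/-- The bounds. -/
structure Bds (C : ℝ) (a b p q v u : J2) : Prop where
  ba : ∀ R θ, 1 < R → 0 < θ → θ < π → √R * |a.f R θ| ≤ C
  bb : ∀ R θ, 1 < R → 0 < θ → θ < π → √R * |b.f R θ| ≤ C
  bp : ∀ R θ, 1 < R → 0 < θ → θ < π → √R * |p.f R θ| ≤ C
  bq : ∀ R θ, 1 < R → 0 < θ → θ < π → √R * |q.f R θ| ≤ C
  bv : ∀ R θ, 1 < R → 0 < θ → θ < π → |v.f R θ| ≤ C * R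
  bu : ∀ R θ, 1 < R → 0 < θ → θ < π → |u.f R θ| ≤ C * (R - 1)
  bbr : ∀ R θ, 1 < R → 0 < θ → θ < π → sg R * |b.r R θ| ≤ C
  bpr : ∀ R θ, 1 < R → 0 < θ → θ < π → sg R * |p.r R θ| ≤ C
  bqr : ∀ R θ, 1 < R → 0 < θ → θ < π → sg R * |q.r R θ| ≤ C
  bba : ∀ R θ, 1 < R → 0 < θ → θ < π → |b.f R θ - a.f R θ| ≤ C * sg R
  bvr : ∀ R θ, 1 < R → 0 < θ → θ < π →
    |(R - 1) / R * v.r R θ + (3 - 2 * R) / (2 * R ^ 2) * v.f R θ| ≤ C

/-- All the data in polar coordinates. -/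
structure Pol (a b p q v u : J2) : Prop where
  oa : a.OK
  ob : b.OK
  op : p.OK
  oq : q.OK
  ov : v.OK
  ou : u.OK
  eqs : Eqs a b p q v u
  bds : ∃ C, Bds C a b p q v u
  u0 : ∀ R, 1 < R → u.f R 0 = 0
  u1 : ∀ R, 1 < R → u.f R π = 0
  pa : ∀ R θ, 1 < R → a.f R (π - θ) = a.f R θ
  pb : ∀ R θ, 1 < R → b.f R (π - θ) = b.f R θ
  pp : ∀ R θ, 1 < R → p.f R (π - θ) = p.f R θ
  pq : ∀ R θ, 1 < R → q.f R (π - θ) = q.f R θ
  pv : ∀ R θ, 1 < R → v.f R (π - θ) = -v.f R θ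

/-- The Legendre operator. -/
noncomputable def Lg (y : ℝ[X]) : ℝ[X] :=
  (1 - X ^ 2) * derivative (derivative y) - 2 * X * derivative y

/-- Weight for scalars. -/
noncomputable def ws (y : ℝ[X]) (θ : ℝ) : ℝ := y.eval (cos θ) * sin θ

/-- Weight for vectors. -/
noncomputable def wv (y : ℝ[X]) (θ : ℝ) : ℝ := -(derivative y).eval (cos θ) * sin θ ^ 2

/-- Weight for tensors. -/
noncomputable def wt (y : ℝ[X]) (θ : ℝ) : ℝ := (derivative (derivative y)).eval (cos θ) * sin θ ^ 3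

/-- Weight for the axial part. -/
noncomputable def wu (y : ℝ[X]) (θ : ℝ) : ℝ := -(derivative y).eval (cos θ) * sin θ

/-- Integral over the angle. -/
noncomputable def ia (φ w : ℝ → ℝ) : ℝ := ∫ θ in (0 : ℝ)..π, φ θ * w θ

/-- The mode of `c` for the weight `w`. -/
noncomputable def md (c : ℝ → ℝ → ℝ) (w : ℝ → ℝ) (R : ℝ) : ℝ := ia (c R) w

/-- Five functions of `R` with their derivatives. -/
structure St : Type where
  A : ℝ → ℝ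
  A1 : ℝ → ℝ
  B : ℝ → ℝ
  B1 : ℝ → ℝ
  K : ℝ → ℝ
  K1 : ℝ → ℝ
  T : ℝ → ℝ
  T1 : ℝ → ℝ
  V : ℝ → ℝ
  V1 : ℝ → ℝ

/-- The polar modes for the polynomial `y`. -/
noncomputable def modes (a b p q v : J2) (y : ℝ[X]) : St :=
  ⟨md a.f (ws y), md a.r (ws y), md b.f (ws y), md b.r (ws y),
    md (p.cmb 1 q).f (ws y), md (p.cmb 1 q).r (ws y), md (p.cmb (-1) q).f (wt y),
    md (p.cmb (-1) q).r (wt y), md v.f (wv y), md v.r (wv y)⟩

namespace St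

variable (s : St) (L R : ℝ)

/-- Second derivative of `A`. -/
noncomputable def A2 : ℝ := (-(2 * R - 1) * s.A1 R + L * s.A R + s.A R / (2 * R * (R - 1)) +
  (3 - 4 * R) / (2 * R * (R - 1)) * s.B R + s.K R / R) / (R ^ 2 - R)

/-- Second derivative of `B`. -/
noncomputable def B2 : ℝ := (-(2 * R - 1) * s.B1 R + L * s.B R +
  (3 - 4 * R) / (2 * R * (R - 1)) * s.A R + (8 * R ^ 2 - 16 * R + 9) / (2 * R * (R - 1)) * s.B R +
  (3 - 2 * R) / R * s.K R - 4 * (R - 1) / R ^ 2 * s.V R) / (R ^ 2 - R)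

/-- Second derivative of `K`. -/
noncomputable def K2 : ℝ := (-(2 * R - 1) * s.K1 R + L * s.K R + 2 / R * s.A R +
  2 * (3 - 2 * R) / R * s.B R + (2 - 4 / R) * s.K R + 4 * (R - 1) / R ^ 2 * s.V R) / (R ^ 2 - R)

/-- Second derivative of `T`. -/
noncomputable def T2 : ℝ := (-(2 * R - 1) * s.T1 R + (L - 2) * s.T R -
  4 * (R - 1) / R ^ 2 * (L - 2) * s.V R) / (R ^ 2 - R)

/-- Second derivative of `V`. -/
noncomputable def V2 : ℝ := (-2 * s.V1 R + (L + 4 - 4 / R) * s.V R - 2 * R * L * s.B R +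
  R * L * s.K R - R * s.T R) / (R ^ 2 - R)

/-- Radial component of the divergence. -/
noncomputable def P : ℝ :=
  s.B1 R + (2 * s.B R - s.K R) / R - s.V R / R ^ 2 + (s.B R - s.A R) / (2 * R * (R - 1))

/-- The derivative of `P`. -/
noncomputable def P1 : ℝ :=
  (-s.A R / R ^ 2 - s.A1 R / (2 * R) + (L / R - 3 / R ^ 2 + 2 / R) * s.B R - s.B1 R / (2 * R) +
    (2 / R ^ 2 - 1 / R) * s.K R) / (R - 1) - s.K1 R / R - 2 * s.V R / R ^ 3 - s.V1 R / R ^ 2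

/-- Angular component of the divergence. -/
noncomputable def S : ℝ :=
  (R - 1) / R * s.V1 R + (2 * R - 1) / R ^ 2 * s.V R + L / 2 * s.K R - s.T R / 2

/-- The derivative of `S`. -/
noncomputable def S1 : ℝ :=
  -2 * L / R * s.B R + L / R * s.K R + L / 2 * s.K1 R - s.T R / R - s.T1 R / 2 +
    (L / R ^ 2 - 2 / R ^ 3 + 2 / R ^ 2) * s.V R + (2 / R - 2 / R ^ 2) * s.V1 R

/-- The gauge invariant function. -/
noncomputable def Y : ℝ :=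
  (R - 1) / R * (2 * L * (L - 2) * s.A R - 2 * (L - 2) * s.V R / R ^ 2 + s.T1 R)

/-- The derivative of `Y`. -/
noncomputable def Y1 : ℝ :=
  2 * L * (L - 2) / R ^ 2 * s.A R + 2 * L * (L - 2) * (R - 1) / R * s.A1 R +
    (L - 2) / R ^ 2 * s.T R - 2 * (R - 1) / R ^ 2 * s.T1 R - 2 * (L - 2) / R ^ 4 * s.V R -
    2 * (L - 2) * (R - 1) / R ^ 3 * s.V1 R

/-- The system of ordinary differential equations. -/
structure Ode : Prop where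
  dA : ∀ R, 1 < R → HasDerivAt s.A (s.A1 R) R
  dB : ∀ R, 1 < R → HasDerivAt s.B (s.B1 R) R
  dK : ∀ R, 1 < R → HasDerivAt s.K (s.K1 R) R
  dT : ∀ R, 1 < R → HasDerivAt s.T (s.T1 R) R
  dV : ∀ R, 1 < R → HasDerivAt s.V (s.V1 R) R
  dA1 : ∀ R, 1 < R → HasDerivAt s.A1 (s.A2 L R) R
  dB1 : ∀ R, 1 < R → HasDerivAt s.B1 (s.B2 L R) R
  dK1 : ∀ R, 1 < R → HasDerivAt s.K1 (s.K2 L R) R
  dT1 : ∀ R, 1 < R → HasDerivAt s.T1 (s.T2 L R) R
  dV1 : ∀ R, 1 < R → HasDerivAt s.V1 (s.V2 L R) R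

/-- The bounds for the modes. -/
structure Bd (C : ℝ) : Prop where
  bA : ∀ R, 1 < R → √R * |s.A R| ≤ C
  bB : ∀ R, 1 < R → √R * |s.B R| ≤ C
  bK : ∀ R, 1 < R → √R * |s.K R| ≤ C
  bT : ∀ R, 1 < R → √R * |s.T R| ≤ C
  bV : ∀ R, 1 < R → |s.V R| ≤ C * R
  bB1 : ∀ R, 1 < R → sg R * |s.B1 R| ≤ C
  bT1 : ∀ R, 1 < R → sg R * |s.T1 R| ≤ C
  bBA : ∀ R, 1 < R → |s.B R - s.A R| ≤ C * sg R
  bV1 : ∀ R, 1 < R → |(R - 1) / R * s.V1 R + (3 - 2 * R) / (2 * R ^ 2) * s.V R| ≤ C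

/-- All five functions vanish. -/
def Zero : Prop := ∀ R, 1 < R → s.A R = 0 ∧ s.B R = 0 ∧ s.K R = 0 ∧ s.T R = 0 ∧ s.V R = 0

end St

end Pool.Agent.Lib.MP_94aef8_gt.Kr
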