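import Pool.Agent.Lib.MP_94aef8_gt.K.ADefs

/-!
Density of the polynomials in the cosine, and parity.
-/

open Real Set Filter Polynomial
open scoped Topology

namespace Pool.Agent.Lib.MP_94aef8_gt.Kr

/-- By linearity the integral of `F * y.eval (cos θ)` vanishes for every polynomial `y`
(`Polynomial.induction_on'` or `eval_eq_sum_range`). Weierstrass
(`exists_polynomial_near_of_continuousOn (-1) 1 (F ∘ arccos)`) gives `y` with
`|y.eval (cos θ) - F θ| < ε` on `[0, π]` (`arccos_cos`), so `∫ F ^ 2 ≤ ε ∫ |F|` for all `ε`, and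
`∫ F ^ 2 = 0`; if `F θ0 ≠ 0`, `intervalIntegral.integral_pos` gives a contradiction. -/
theorem dens {F : ℝ → ℝ} (hF : Continuous F)
    (h : ∀ n : ℕ, ∫ θ in (0 : ℝ)..π, F θ * cos θ ^ n = 0) : ∀ θ, 0 ≤ θ → θ ≤ π → F θ = 0 := by
  intro θ h0 h1
  by_contra hne
  have hc : ∀ y : ℝ[X], Continuous fun θ => F θ * y.eval (cos θ) := fun y =>
    hF.mul (y.continuous.comp continuous_cos)
  have h2 : ∀ y : ℝ[X], ∫ θ in (0 : ℝ)..π, F θ * y.eval (cos θ) = 0 := fun y => by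
    induction y using Polynomial.induction_on' with
    | add p q hp hq =>
      simp only [eval_add, mul_add]
      rw [intervalIntegral.integral_add ((hc p).intervalIntegrable _ _)
        ((hc q).intervalIntegrable _ _), hp, hq, add_zero]
    | monomial n a =>
      simp only [eval_monomial, mul_left_comm _ a, intervalIntegral.integral_const_mul, h, mul_zero]
  have h3 : 0 < ∫ θ in (0 : ℝ)..π, F θ ^ 2 := intervalIntegral.integral_pos pi_pos
    (hF.pow 2).continuousOn (fun _ _ => sq_nonneg _) ⟨θ, ⟨h0, h1⟩, sq_pos_of_ne_zero hne⟩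
  have h4 : 0 < (∫ θ in (0 : ℝ)..π, |F θ|) + 1 := add_pos_of_nonneg_of_pos
    (intervalIntegral.integral_nonneg pi_pos.le fun _ _ => abs_nonneg _) one_pos
  obtain ⟨ε, hε⟩ : ∃ ε, ε = (∫ θ in (0 : ℝ)..π, F θ ^ 2) / ((∫ θ in (0 : ℝ)..π, |F θ|) + 1) :=
    ⟨_, rfl⟩
  have h5 : 0 < ε := hε ▸ div_pos h3 h4
  obtain ⟨y, hy⟩ := exists_polynomial_near_of_continuousOn (-1) 1 (F ∘ arccos)
    (hF.comp continuous_arccos).continuousOn ε h5
  have h6 : ∫ θ in (0 : ℝ)..π, (F θ ^ 2 - F θ * y.eval (cos θ)) ≤ ∫ θ in (0 : ℝ)..π, ε * |F θ| := by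
    refine intervalIntegral.integral_mono_on pi_pos.le
      (((hF.pow 2).sub (hc y)).intervalIntegrable _ _)
      ((continuous_const.mul hF.abs).intervalIntegrable _ _) fun x hx => ?_
    have h7 := hy (cos x) ⟨neg_one_le_cos x, cos_le_one x⟩
    rw [Function.comp_apply, arccos_cos hx.1 hx.2, abs_sub_comm] at h7
    rw [sq, ← mul_sub, mul_comm]
    exact (le_abs_self _).trans ((abs_mul _ _).le.trans
      (mul_le_mul_of_nonneg_right h7.le (abs_nonneg _)))
  rw [intervalIntegral.integral_sub ((hF.fun_pow 2).intervalIntegrable _ _)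
    ((hc y).intervalIntegrable _ _), h2, intervalIntegral.integral_const_mul] at h6
  rw [eq_div_iff h4.ne'] at hε
  linarith

/-- `intervalIntegral.integral_comp_sub_left`. -/
theorem int_odd {F : ℝ → ℝ} (h : ∀ θ, F (π - θ) = -F θ) : ∫ θ in (0 : ℝ)..π, F θ = 0 := by
  have h1 := intervalIntegral.integral_comp_sub_left (a := 0) (b := π) F π
  simp only [h, sub_self, sub_zero, intervalIntegral.integral_neg] at h1
  linarith

theorem Dens_aux {φ : ℝ → ℝ} (hφ : Continuous φ) (k : ℕ) (c : ℕ → ℝ) (hc : ∀ n, c n ≠ 0)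
    (h : ∀ n : ℕ, ∫ θ in (0 : ℝ)..π, φ θ * (c n * cos θ ^ n * sin θ ^ k) = 0) :
    ∀ θ, 0 < θ → θ < π → φ θ = 0 := by
  intro θ h0 h1
  refine (mul_eq_zero.1 (dens (hφ.fun_mul (continuous_sin.fun_pow k)) (fun n => ?_) θ h0.le
    h1.le)).resolve_right (pow_ne_zero _ (sin_pos_of_pos_of_lt_pi h0 h1).ne')
  refine (mul_eq_zero.1 ?_).resolve_left (hc n)
  rw [← intervalIntegral.integral_const_mul]
  exact (intervalIntegral.integral_congr fun θ _ => by ring).trans (h n)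

/-- `dens` for `F = φ * sin`. -/
theorem dens_ws {φ : ℝ → ℝ} (hφ : Continuous φ) (h : ∀ n : ℕ, ia φ (ws (X ^ n)) = 0) :
    ∀ θ, 0 < θ → θ < π → φ θ = 0 := by
  refine Dens_aux hφ 1 (fun _ => 1) (fun _ => one_ne_zero) fun n => Eq.trans ?_ (h n)
  simp [ia, ws]

/-- `dens` for `F = φ * sin ^ 2`; `wv (X ^ (n + 1)) θ = -(n + 1) cos θ ^ n sin θ ^ 2`. -/
theorem dens_wv {φ : ℝ → ℝ} (hφ : Continuous φ) (h : ∀ n : ℕ, ia φ (wv (X ^ n)) = 0) :
    ∀ θ, 0 < θ → θ < π → φ θ = 0 := by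
  refine Dens_aux hφ 2 (fun n => -(n + 1)) (fun n => neg_ne_zero.2 (by positivity))
    fun n => Eq.trans ?_ (h (n + 1))
  simp only [ia, wv, derivative_X_pow_succ, eval_mul, eval_C, eval_pow, eval_X, neg_mul]

/-- `dens` for `F = φ * sin ^ 3`; `wt (X ^ (n + 2)) θ = (n + 2) (n + 1) cos θ ^ n sin θ ^ 3`. -/
theorem dens_wt {φ : ℝ → ℝ} (hφ : Continuous φ) (h : ∀ n : ℕ, ia φ (wt (X ^ n)) = 0) :
    ∀ θ, 0 < θ → θ < π → φ θ = 0 := by
  refine Dens_aux hφ 3 (fun n => (n + 2) * (n + 1)) (fun n => by positivity)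
    fun n => Eq.trans (congrArg (fun f => intervalIntegral f 0 π _) (funext fun θ => ?_)) (h (n + 2))
  simp only [wt, derivative_X_pow_succ, derivative_C_mul, eval_mul, eval_C, eval_pow, eval_X]
  push_cast
  ring

/-- `dens` for `F = φ * sin`; `wu (X ^ (n + 1)) θ = -(n + 1) cos θ ^ n sin θ`. -/
theorem dens_wu {φ : ℝ → ℝ} (hφ : Continuous φ) (h : ∀ n : ℕ, ia φ (wu (X ^ n)) = 0) :
    ∀ θ, 0 < θ → θ < π → φ θ = 0 := by
  refine Dens_aux hφ 1 (fun n => -(n + 1)) (fun n => neg_ne_zero.2 (by positivity))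
    fun n => Eq.trans ?_ (h (n + 1))
  simp only [ia, wu, derivative_X_pow_succ, eval_mul, eval_C, eval_pow, eval_X, neg_mul, pow_one]

/-- The modes of degree one vanish by the mirror symmetry: `int_odd` for `a cos sin`, `v sin ^ 2`;
`wt X = 0`. -/
theorem modes_X {a b p q v u : J2} (h : Pol a b p q v u) : (modes a b p q v X).Zero := by
  intro R hR
  refine ⟨int_odd fun θ => ?_, int_odd fun θ => ?_, int_odd fun θ => ?_, ?_, int_odd fun θ => ?_⟩
  · simp [ws, h.pa R θ hR]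
  · simp [ws, h.pb R θ hR]
  · simp [ws, J2.cmb, h.pp R θ hR, h.pq R θ hR]
  · simp [modes, md, ia, wt]
  · simp [wv, h.pv R θ hR]

end Pool.Agent.Lib.MP_94aef8_gt.Kr
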