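import Pool.Agent.Lib.MP_94aef8_gt.K.OdeB

/-!
The polar modes of degree at least two.
-/

open Real Set Filter Polynomial
open scoped Topology

namespace Pool.Agent.Lib.MP_94aef8_gt.Kr

namespace St

variable {s : St} {L C : ℝ}

theorem OdeC_nonneg (hb : s.Bd C) : 0 ≤ C :=
  le_trans (by positivity) (hb.bA 2 one_lt_two)

theorem OdeC_bY (hb : s.Bd C) (hL : 2 ≤ L) {R : ℝ} (hR : 1 < R) : |s.Y L R| ≤
    (R - 1) / R * (2 * L * (L - 2) * |s.A R|) + sg R / R ^ 2 * ((2 * (L - 2) + 1) * C) := by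
  have h0 : 0 < R := one_pos.trans hR
  have h1 : 0 < R - 1 := sub_pos.2 hR
  have h2 : 0 ≤ L - 2 := sub_nonneg.2 hL
  have h3 : 0 ≤ L := zero_le_two.trans hL
  have hC := OdeC_nonneg hb
  have k1 : |s.V R| / R ^ 2 ≤ C / R := by
    rw [div_le_div_iff₀ (by positivity) h0]
    linarith [mul_le_mul_of_nonneg_right (hb.bV R hR) h0.le]
  have k2 : |2 * L * (L - 2) * s.A R - 2 * (L - 2) * s.V R / R ^ 2 + s.T1 R| ≤
      2 * L * (L - 2) * |s.A R| + 2 * (L - 2) * (C / R) + |s.T1 R| := by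
    refine (abs_add_le _ _).trans (add_le_add ((abs_sub _ _).trans (add_le_add ?_ ?_)) le_rfl)
    · rw [abs_mul, abs_of_nonneg (by positivity)]
    · rw [mul_div_assoc, abs_mul, abs_of_nonneg (by positivity), abs_div,
        abs_of_pos (pow_pos h0 2)]
      exact mul_le_mul_of_nonneg_left k1 (by positivity)
  have k3 : (R - 1) / R * |s.T1 R| = sg R / R ^ 2 * (sg R * |s.T1 R|) := by
    rw [← mul_assoc, div_mul_eq_mul_div (sg R), ← sq, sg_sq hR]
    field_simp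
  have k4 : (R - 1) / R * (2 * (L - 2) * (C / R)) = (R - 1) / R ^ 2 * (2 * (L - 2) * C) := by
    field_simp
  have k5 : (R - 1) / R ^ 2 * (2 * (L - 2) * C) ≤ sg R / R ^ 2 * (2 * (L - 2) * C) := by
    gcongr
    exact le_sg hR
  have k6 := mul_le_mul_of_nonneg_left (hb.bT1 R hR) (div_pos (sg_pos hR) (pow_pos h0 2)).le
  rw [Y, abs_mul, abs_of_pos (div_pos h1 h0)]
  refine (mul_le_mul_of_nonneg_left k2 (div_pos h1 h0).le).trans ?_
  rw [mul_add, mul_add, k3, k4]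
  linarith

/-- `zboth2` with `a = R ^ 3 / (R - 1)`, `c = L R ^ 2 / (R - 1) ^ 2` (`dY`, `dY1`, `tau`, `om`).
At `1`: `|Y| ≤ const * sg` on `(1, 2]` because `R - 1 ≤ sg` and
`(R - 1) / R T1 = sg (sg T1) / R ^ 2` (`lim_sg`). At infinity: `Y = (R - 1) / R * 2 L (L - 2) A + rest`
with `√R |..| ≤ const` for all three terms (`√R ≤ R`, `sg ≤ R`), `lim_sqrt`. Then `der_zero`. -/
theorem Ode.yz (h : s.Ode L) (hb : s.Bd C) (hL : 2 ≤ L) : ∀ R, 1 < R →
    s.Y L R = 0 ∧ s.Y1 L R = 0 := by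
  have h2 : 0 ≤ L - 2 := sub_nonneg.2 hL
  have h3 : 0 ≤ L := zero_le_two.trans hL
  have hC := OdeC_nonneg hb
  have hY : ∀ R, 1 < R → s.Y L R = 0 := by
    refine zboth2 (a := fun x => x ^ 3 / (x - 1)) (c := fun R => L * R ^ 2 / (R - 1) ^ 2)
      (fun R hR => h.dY hR) (fun R hR => ?_) (fun R hR => by positivity)
      (fun R hR => div_pos (pow_pos (one_pos.trans hR) 3) (sub_pos.2 hR))
      (lim_sg (C := 2 * L * (L - 2) * C + (2 * (L - 2) + 1) * C) fun R hR _ => ?_)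
      (lim_sqrt (C := 2 * L * (L - 2) * C + (2 * (L - 2) + 1) * C) fun R hR => ?_)
    · simpa only [(h.tau hb h3 R hR).1, (h.om hb hL R hR).2.2.1, mul_zero, sub_zero, add_zero]
        using h.dY1 hR
    · have k0 := sg_pos hR
      have k1 : (R - 1) / R ≤ sg R := (div_le_self (sub_pos.2 hR).le hR.le).trans (le_sg hR)
      have k2 : sg R / R ^ 2 ≤ sg R := div_le_self k0.le (one_le_pow₀ hR.le)
      have k3 := abs_le_of_sqrt hR (hb.bA R hR)
      rw [mul_comm, mul_add]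
      refine (OdeC_bY hb hL hR).trans ?_
      gcongr
    · have h0 : 0 < R := one_pos.trans hR
      have k1 : (R - 1) / R ≤ 1 := (div_le_one h0).2 (by linarith)
      have k2 : √R * (sg R / R ^ 2) ≤ 1 := by
        rw [← mul_div_assoc, div_le_one (by positivity), sq]
        exact mul_le_mul (sqrt_le_iff.2 ⟨h0.le, by nlinarith⟩) (sg_le hR) (sg_pos hR).le
          h0.le
      have k3 := mul_le_mul k1 (mul_le_mul_of_nonneg_left (hb.bA R hR)
        (by positivity : 0 ≤ 2 * L * (L - 2))) (by positivity) zero_le_one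
      have k4 := mul_le_mul_of_nonneg_right k2 (by positivity : 0 ≤ (2 * (L - 2) + 1) * C)
      linarith [mul_le_mul_of_nonneg_left (OdeC_bY hb hL hR) (sqrt_nonneg R)]
  exact fun R hR => ⟨hY R hR, der_zero hY hR (h.dY hR)⟩

/-- A linear identity, proved by `unfold`, `field_simp`, `ring`. -/
theorem idE (s : St) (L : ℝ) {R : ℝ} (hR : 1 < R) :
    L * (L - 2) * (4 * R ^ 3 * (R - 1)) * (s.T R + R * s.T1 R - (L - 2) * s.V R / R) =
      (4 * R ^ 4 * (L - 2) - 4 * R ^ 3 * ((L - 2) * R + 2)) * s.Y L R -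
      2 * R ^ 4 * ((L - 2) * R + 2) * s.Y1 L R +
      (-8 * L * R ^ 3 - 8 * L * R ^ 4 + 16 * L * R ^ 5 + 8 * L ^ 2 * R ^ 4 - 8 * L ^ 2 * R ^ 5 +
        16 * R ^ 3 - 16 * R ^ 4) * s.S1 L R +
      (8 * L * R ^ 2 + 16 * L * R ^ 3 - 16 * L * R ^ 4 - 12 * L ^ 2 * R ^ 3 + 8 * L ^ 2 * R ^ 4 -
        16 * R ^ 2 + 16 * R ^ 3) * s.S L R +
      (16 * L * R ^ 4 - 32 * L * R ^ 5 + 16 * L * R ^ 6 - 8 * L ^ 2 * R ^ 4 + 16 * L ^ 2 * R ^ 5 -
        8 * L ^ 2 * R ^ 6) * s.P1 L R +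
      (-16 * L * R ^ 3 + 32 * L * R ^ 4 - 16 * L * R ^ 5 + 8 * L ^ 2 * R ^ 3 - 24 * L ^ 2 * R ^ 4 +
        16 * L ^ 2 * R ^ 5 + 4 * L ^ 3 * R ^ 4 - 4 * L ^ 3 * R ^ 5) * s.P R +
      (8 * L * R ^ 3 - 24 * L * R ^ 4 + 16 * L * R ^ 5 - 4 * L ^ 2 * R ^ 3 + 20 * L ^ 2 * R ^ 4 -
        16 * L ^ 2 * R ^ 5 - 4 * L ^ 3 * R ^ 4 + 4 * L ^ 3 * R ^ 5) * (s.A1 R + s.B1 R + s.K1 R) +
      (8 * L * R ^ 2 - 8 * L * R ^ 3 - 4 * L ^ 2 * R ^ 2 + 2 * L ^ 3 * R ^ 3) *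
        (s.A R + s.B R + s.K R) := by
  have h0 : R ≠ 0 := by positivity
  have h1 : R - 1 ≠ 0 := by linarith [hR] |> fun (h : 0 < R - 1) => h.ne'
  unfold Y Y1 S1 S P1 P
  field_simp
  ring

/-- By `idE`, `tau`, `om`, `yz`: `E = T + R T1 - (L - 2) V / R = 0`. The derivative of
`R ^ 5 (R - 1) T1` is `R ^ 2 ((L - 6) R ^ 2 + 4 R) T + 4 R ^ 3 (R - 1) E`; `zlog2` with
`a = R ^ 5 (R - 1) ≤ 32 (R - 1)` on `(1, 2]` gives `T = 0`. Then `T1 = 0` (`der_zero`), `V = 0` from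
`E = 0`, `V1 = 0`, `K = 0` from `S = 0`, `A = 0` from `Y = 0`, `B = 0` from `tau`. -/
theorem Ode.zero6 (h : s.Ode L) (hb : s.Bd C) (hL : 6 ≤ L) : s.Zero := by
  have h2 : 0 < L - 2 := by linarith
  have h3 : 0 < L := by linarith
  have h6 : 0 ≤ L - 6 := sub_nonneg.2 hL
  have hE : ∀ R, 1 < R → s.T R + R * s.T1 R - (L - 2) * s.V R / R = 0 := fun R hR => by
    have h0 : 0 < R := one_pos.trans hR
    have h1 : 0 < R - 1 := sub_pos.2 hR
    have k := idE s L hR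
    obtain ⟨a1, a2⟩ := h.yz hb (by linarith) R hR
    obtain ⟨a3, a4, a5, a6⟩ := h.om hb (by linarith) R hR
    obtain ⟨a7, a8⟩ := h.tau hb h3.le R hR
    simp only [a1, a2, a3, a4, a5, a6, a7, a8, mul_zero, sub_zero, add_zero] at k
    exact (mul_eq_zero.1 k).resolve_left (by positivity)
  have hT : ∀ R, 1 < R → s.T R = 0 := by
    refine zlog2 (a := fun x => x ^ 5 * (x - 1)) (c := fun R => R ^ 2 * ((L - 6) * R ^ 2 + 4 * R))
      (C := max 32 C) h.dT (fun R hR => ?_) (fun R hR => ?_)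
      (fun R hR => mul_pos (pow_pos (one_pos.trans hR) 5) (sub_pos.2 hR)) (fun R hR hR' => ?_)
      (fun R hR _ => (abs_le_of_sqrt hR (hb.bT R hR)).trans (le_max_right _ _)) (lim_sqrt hb.bT)
    · have h0 : R ≠ 0 := (one_pos.trans hR).ne'
      have h1 : R - 1 ≠ 0 := (sub_pos.2 hR).ne'
      refine (((hasDerivAt_pow 5 R).fun_mul ((hasDerivAt_id' R).sub_const 1)).fun_mul
        (h.dT1 R hR)).congr_deriv ?_
      rw [← add_zero (_ * s.T R), ← mul_zero (4 * R ^ 3 * (R - 1)), ← hE R hR, T2,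
        show R ^ 2 - R = R * (R - 1) by ring]
      field_simp
      ring
    · have h0 : 0 < R := one_pos.trans hR
      positivity
    · refine mul_le_mul_of_nonneg_right (le_trans ?_ (le_max_left _ _)) (sub_pos.2 hR).le
      exact (pow_le_pow_left₀ (one_pos.trans hR).le hR' 5).trans (by norm_num)
  have hT1 : ∀ R, 1 < R → s.T1 R = 0 := fun R hR => der_zero hT hR (h.dT R hR)
  have hV : ∀ R, 1 < R → s.V R = 0 := fun R hR => by
    simpa [hT R hR, hT1 R hR, h2.ne', (one_pos.trans hR).ne'] using hE R hR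
  intro R hR
  have hK : s.K R = 0 := by
    simpa [S, hT R hR, hV R hR, der_zero hV hR (h.dV R hR), h3.ne']
      using (h.om hb (by linarith) R hR).2.2.1
  have hA : s.A R = 0 := by
    simpa [Y, hT1 R hR, hV R hR, h2.ne', h3.ne', (one_pos.trans hR).ne', (sub_pos.2 hR).ne']
      using (h.yz hb (by linarith) R hR).1
  exact ⟨hA, by simpa [hA, hK] using (h.tau hb h3.le R hR).1, hK, hT R hR, hV R hR⟩

end St

end Pool.Agent.Lib.MP_94aef8_gt.Kr
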