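import Pool.Agent.Lib.MP_94aef8_gt.K.OdeB

/-!
The radial mode and the axial modes.
-/

open Real Set Filter Polynomial
open scoped Topology

namespace Pool.Agent.Lib.MP_94aef8_gt.Kr

theorem OdeD_const {f : ℝ → ℝ} (h : ∀ R, 1 < R → HasDerivAt f 0 R) :
    ∃ c, ∀ R, 1 < R → f R = c :=
  ⟨f 2, fun _ hR => isOpen_Ioi.is_const_of_deriv_eq_zero isPreconnected_Ioi
    (fun x hx => (h x hx).differentiableAt.differentiableWithinAt) (fun x hx => (h x hx).deriv) hR
    (by norm_num : (1 : ℝ) < 2)⟩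

namespace St

variable {s : St} {C : ℝ}

/-- Use `tau`, `om0`, `V1 = 0`. Put `N = (4 R - 3) A + B`, `N1 = 4 A + (4 R - 3) A1 + B1 = N'`. The
derivative of `N1` is `((2 R - 3) A1 - 4 B - (2 R - 1) B1 + 2 K) / (R (R - 1))`, which equals
`2 P1 - 4 / R P = 0` after substituting `K = -A - B`, `K1 = -A1 - B1`. So `N1` is a constant `c` on
`(1, ∞)` (`IsOpen.is_const_of_deriv_eq_zero` or `monotoneOn_of_deriv_nonneg` twice). Eliminating
`B1` by `P = 0` and using `P1 = 0` gives `(2 R - 3) N1 = 2 N`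
(`2 R (R - 1) (2 R - 3) A1 = (4 R - 3) A + (4 R - 5) B`,
`2 R (R - 1) B1 = -(2 R - 3) A - (6 R - 5) B`). Hence `(2 R - 3) c = 2 N`; dividing by `R` and letting
`R → ∞` (`A, B → 0`) gives `c = 0`. So `N = 0 = N1`, and with `P = 0`:
`(4 R - 3) (R (R - 1) A1 + (4 R - 3) A) = 0`. Thus `R ^ 3 (R - 1) A` has derivative zero, is constant,
and tends to `0` at `1` (`|A| ≤ C`). So `A = 0`, `B = 0`, `K = 0`. -/
theorem Ode.zero0 (h : s.Ode 0) (hb : s.Bd C) (hT : ∀ R, 1 < R → s.T R = 0)
    (hV : ∀ R, 1 < R → s.V R = 0) : s.Zero := by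
  have hτ := h.tau hb le_rfl
  have hP := h.om0 hb hT hV
  have hV1 : ∀ R, 1 < R → s.V1 R = 0 := fun R hR => der_zero hV hR (h.dV R hR)
  have hK : ∀ R, 1 < R → s.K R = -s.A R - s.B R := fun R hR => by linarith [(hτ R hR).1]
  have hK1 : ∀ R, 1 < R → s.K1 R = -s.A1 R - s.B1 R := fun R hR => by linarith [(hτ R hR).2]
  have eB : ∀ R, 1 < R → 2 * R * (R - 1) * s.B1 R + (2 * R - 3) * s.A R +
      (6 * R - 5) * s.B R = 0 := fun R hR => by
    have h0 : R ≠ 0 := by linarith
    have h1 : R - 1 ≠ 0 := by linarith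
    have e : 2 * R * (R - 1) * s.B1 R + (2 * R - 3) * s.A R + (6 * R - 5) * s.B R =
        2 * R * (R - 1) * s.P R := by
      rw [P, hK R hR, hV R hR]
      field_simp
      ring
    rw [e, (hP R hR).1, mul_zero]
  have eA : ∀ R, 1 < R → R * (2 * R - 3) * (s.A1 R + s.B1 R) + (2 * R - 6) * s.A R +
      (6 * R - 10) * s.B R = 0 := fun R hR => by
    have h0 : R ≠ 0 := by linarith
    have h1 : R - 1 ≠ 0 := by linarith
    have e : R * (2 * R - 3) * (s.A1 R + s.B1 R) + (2 * R - 6) * s.A R + (6 * R - 10) * s.B R =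
        2 * R ^ 2 * (R - 1) * s.P1 0 R := by
      rw [P1, hK R hR, hK1 R hR, hV R hR, hV1 R hR]
      field_simp
      ring
    rw [e, (hP R hR).2, mul_zero]
  obtain ⟨c, hc⟩ := OdeD_const (f := fun x => 4 * s.A x + (4 * x - 3) * s.A1 x + s.B1 x)
    fun R hR => by
      have h0 : R ≠ 0 := by linarith
      have h1 : R - 1 ≠ 0 := by linarith
      have d := (((h.dA R hR).const_mul 4).add (((((hasDerivAt_id R).const_mul 4).sub_const
        3).mul (h.dA1 R hR)))).add (h.dB1 R hR)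
      refine HasDerivAt.congr_deriv d ?_
      have e : 4 * s.A1 R + (4 * 1 * s.A1 R + (4 * R - 3) * s.A2 0 R) + s.B2 0 R =
          2 * s.P1 0 R - 4 / R * s.P R := by
        have h2 : R ^ 2 - R = R * (R - 1) := by ring
        rw [A2, B2, P1, P, h2, hK R hR, hK1 R hR, hV R hR, hV1 R hR]
        field_simp
        ring
      exact e.trans (by rw [(hP R hR).1, (hP R hR).2]; ring)
  have eN : ∀ R, 1 < R → (2 * R - 3) * c = 2 * ((4 * R - 3) * s.A R + s.B R) := fun R hR => by
    have h0 : R ≠ 0 := by linarith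
    rw [← hc R hR]
    apply mul_left_cancel₀ h0
    linear_combination (4 * R - 3) * eA R hR - 2 * (2 * R - 3) * eB R hR
  have hc0 : c = 0 := by
    have hi : Tendsto (fun R : ℝ => R⁻¹) atTop (𝓝 0) := tendsto_inv_atTop_zero
    have l1 : Tendsto (fun R : ℝ => (2 - 3 * R⁻¹) * c) atTop (𝓝 ((2 - 3 * 0) * c)) :=
      ((hi.const_mul 3).const_sub 2).mul_const c
    have l2 : Tendsto (fun R : ℝ => 2 * ((4 - 3 * R⁻¹) * s.A R + R⁻¹ * s.B R)) atTop
        (𝓝 (2 * ((4 - 3 * 0) * 0 + 0 * 0))) :=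
      ((((hi.const_mul 3).const_sub 4).mul (lim_sqrt hb.bA)).add
        (hi.mul (lim_sqrt hb.bB))).const_mul 2
    have e := tendsto_nhds_unique_of_eventuallyEq l1 l2 (by
      filter_upwards [eventually_gt_atTop 1] with R hR
      have h0 : R ≠ 0 := by linarith
      have := eN R hR
      field_simp
      linarith)
    linarith
  have eB0 : ∀ R, 1 < R → s.B R = -(4 * R - 3) * s.A R := fun R hR => by
    have := eN R hR
    rw [hc0] at this
    linarith
  have eA0 : ∀ R, 1 < R → R * (R - 1) * s.A1 R + (4 * R - 3) * s.A R = 0 := fun R hR => by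
    have h0 : 4 * R - 3 ≠ 0 := by linarith
    have h1 := hc R hR
    rw [hc0] at h1
    apply mul_left_cancel₀ h0
    linear_combination (-1 / 2) * eB R hR + R * (R - 1) * h1 + (6 * R - 5) / 2 * eB0 R hR
  obtain ⟨d, hd⟩ := OdeD_const (f := fun x => x ^ 3 * (x - 1) * s.A x) fun R hR => by
    have d := ((hasDerivAt_pow 3 R).mul ((hasDerivAt_id R).sub_const 1)).mul (h.dA R hR)
    refine HasDerivAt.congr_deriv d ?_
    simp only [Pi.mul_apply, id]
    push_cast
    linear_combination R ^ 2 * eA0 R hR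
  have hd0 : d = 0 := by
    have l1 : Tendsto (fun x : ℝ => x ^ 3 * (x - 1) * s.A x) (𝓝[>] 1) (𝓝 0) := by
      refine lim_sg (C := 8 * C) fun R hR hR2 => ?_
      have h1 := abs_le_of_sqrt hR (hb.bA R hR)
      have h2 := le_sg hR
      have h3 : R ^ 3 ≤ 2 ^ 3 := pow_le_pow_left₀ (by linarith) hR2 3
      have h4 : 0 ≤ R - 1 := by linarith
      have h5 : 0 ≤ R := by linarith
      rw [abs_mul, abs_mul, abs_of_nonneg h4, abs_of_nonneg (pow_nonneg h5 3)]
      calc R ^ 3 * (R - 1) * |s.A R| ≤ 2 ^ 3 * sg R * C :=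
            mul_le_mul (mul_le_mul h3 h2 h4 (by norm_num)) h1 (abs_nonneg _)
              (mul_nonneg (by norm_num) (sg_pos hR).le)
        _ = _ := by ring
    exact (tendsto_nhds_unique_of_eventuallyEq l1 tendsto_const_nhds (by
      filter_upwards [self_mem_nhdsWithin] with R hR
      exact hd R hR)).symm
  intro R hR
  have hA : s.A R = 0 := by
    have h1 := hd R hR
    have h2 : R ^ 3 * (R - 1) ≠ 0 :=
      mul_ne_zero (pow_ne_zero 3 (by linarith)) (by linarith)
    rw [hd0] at h1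
    exact (mul_eq_zero.1 h1).resolve_left h2
  have hB : s.B R = 0 := by rw [eB0 R hR, hA, mul_zero]
  exact ⟨hA, hB, by rw [hK R hR, hA, hB]; ring, hT R hR, hV R hR⟩

end St

/-- `zboth2` for `y = U / R ^ 2`, `y1 = U1 / R ^ 2 - 2 U / R ^ 3`, `a = R ^ 4`,
`c = (L - 2) R ^ 3 / (R - 1)`; `|y| ≤ C (R - 1) / R ^ 2` tends to `0` at both ends (`lim_sg` with
`le_sg`, `lim_inv`). -/
theorem axial_zero {U U1 : ℝ → ℝ} {L C : ℝ} (hL : 2 ≤ L)
    (h : ∀ R, 1 < R → HasDerivAt U (U1 R) R ∧ HasDerivAt U1 ((L - 2 / R) * U R / (R ^ 2 - R)) R)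
    (hb : ∀ R, 1 < R → |U R| ≤ C * (R - 1)) : ∀ R, 1 < R → U R = 0 := by
  have hC : 0 ≤ C := by
    have := (abs_nonneg _).trans (hb 2 (by norm_num))
    linarith
  have key := zboth2 (y := fun x => U x / x ^ 2) (y1 := fun x => U1 x / x ^ 2 - 2 * U x / x ^ 3)
    (a := fun x => x ^ 4) (c := fun x => (L - 2) * x ^ 3 / (x - 1)) (fun R hR => by
      have h0 : R ≠ 0 := by linarith
      refine HasDerivAt.congr_deriv ((h R hR).1.div (hasDerivAt_pow 2 R) (pow_ne_zero 2 h0)) ?_
      push_cast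
      field_simp) (fun R hR => by
      have h0 : R ≠ 0 := by linarith
      have h1 : R - 1 ≠ 0 := by linarith
      have d := ((hasDerivAt_pow 2 R).mul (h R hR).2).sub
        (((hasDerivAt_id R).const_mul 2).mul (h R hR).1)
      refine HasDerivAt.congr_deriv (d.congr_of_eventuallyEq ?_) ?_
      · filter_upwards [eventually_ne_nhds h0] with x hx
        simp only [Pi.sub_apply, Pi.mul_apply, id]
        field_simp
      · have h2 : R ^ 2 - R = R * (R - 1) := by ring
        simp only [id]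
        rw [h2]
        push_cast
        field_simp
        ring)
    (fun R hR => div_nonneg (mul_nonneg (by linarith) (pow_nonneg (by linarith) 3)) (by linarith))
    (fun R hR => pow_pos (by linarith) 4)
    (lim_sg (C := C) fun R hR _ => by
      have h1 : 1 ≤ R ^ 2 := one_le_pow₀ hR.le
      rw [abs_div, abs_of_nonneg (sq_nonneg R)]
      exact (div_le_self (abs_nonneg _) h1).trans
        ((hb R hR).trans (mul_le_mul_of_nonneg_left (le_sg hR) hC)))
    (lim_inv (C := C) fun R hR => by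
      have h0 : 0 < R := by linarith
      have h1 := hb R (by linarith)
      rw [abs_div, abs_of_nonneg (sq_nonneg R), ← mul_div_assoc, div_le_iff₀ (by positivity)]
      nlinarith)
  intro R hR
  have h0 : R ≠ 0 := by linarith
  exact (div_eq_zero_iff.1 (key R hR)).resolve_right (pow_ne_zero 2 h0)

end Pool.Agent.Lib.MP_94aef8_gt.Kr
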