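import Pool.Agent.Lib.MP_94aef8_gt.K.MdB
import Pool.Agent.Lib.MP_94aef8_gt.K.OdeC
import Pool.Agent.Lib.MP_94aef8_gt.K.OdeD
import Pool.Agent.Lib.MP_94aef8_gt.K.Dens

/-!
The system in polar coordinates has only the zero solution.
-/

open Real Set Filter Polynomial
open scoped Topology

namespace Pool.Agent.Lib.MP_94aef8_gt.Kr

variable {a b p q v u : J2}

theorem modes_zero (h : Pol a b p q v u) (n : ℕ) : (modes a b p q v (X ^ n)).Zero := by
  induction n using Nat.twoStepInduction with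
  | zero =>
    obtain ⟨C, hC⟩ := modes_bd h (X ^ 0)
    have ho : (modes a b p q v (X ^ 0)).Ode 0 :=
      modes_ode h (z := 1) (β := 0) (by simpa using Lg_one) (Or.inl rfl)
    refine ho.zero0 hC (fun R _ => ?_) fun R _ => ?_
    · simp [modes, md, ia, wt]
    · simp [modes, md, ia, wv]
  | one => simpa using modes_X h
  | more n ih _ =>
    obtain ⟨C, hC⟩ := modes_bd h (X ^ (n + 2))
    refine (modes_ode h (Lg_pow n) (Or.inr ih)).zero6 hC ?_
    have : (0 : ℝ) ≤ n := n.cast_nonneg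
    nlinarith

theorem axial_modes (h : Pol a b p q v u) (n : ℕ) : ∀ R, 1 < R → md u.f (wu (X ^ n)) R = 0 := by
  induction n using Nat.twoStepInduction with
  | zero => intro R _; simp [md, ia, wu]
  | one =>
    obtain ⟨C, hC⟩ := axial_bd h X
    simpa using axial_zero le_rfl (fun R hR => axial_ode h Lg_X (Or.inl rfl) hR) hC
  | more n ih _ =>
    obtain ⟨C, hC⟩ := axial_bd h (X ^ (n + 2))
    refine axial_zero ?_ (fun R hR => axial_ode h (Lg_pow n) (Or.inr ih) hR) hC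
    have : (0 : ℝ) ≤ n := n.cast_nonneg
    nlinarith

theorem pol_zero (h : Pol a b p q v u) {R θ : ℝ} (hR : 1 < R) (h0 : 0 < θ) (h1 : θ < π) :
    a.f R θ = 0 ∧ b.f R θ = 0 ∧ p.f R θ = 0 ∧ q.f R θ = 0 ∧ v.f R θ = 0 ∧ u.f R θ = 0 := by
  have hk := dens_ws ((h.op.cmb 1 h.oq).cf.slice hR)
    (fun n => (modes_zero h n R hR).2.2.1) θ h0 h1
  have hd := dens_wt ((h.op.cmb (-1) h.oq).cf.slice hR)
    (fun n => (modes_zero h n R hR).2.2.2.1) θ h0 h1
  simp only [J2.cmb] at hk hd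
  exact ⟨dens_ws (h.oa.cf.slice hR) (fun n => (modes_zero h n R hR).1) θ h0 h1,
    dens_ws (h.ob.cf.slice hR) (fun n => (modes_zero h n R hR).2.1) θ h0 h1, by linarith,
    by linarith, dens_wv (h.ov.cf.slice hR) (fun n => (modes_zero h n R hR).2.2.2.2) θ h0 h1,
    dens_wu (h.ou.cf.slice hR) (fun n => axial_modes h n R hR) θ h0 h1⟩

end Pool.Agent.Lib.MP_94aef8_gt.Kr
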