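import Pool.Agent.Lib.MP_94aef8_gt.K.Cal
import Pool.Agent.Lib.MP_94aef8_gt.B.Nat

/-!
Facts on smooth fields.
-/

open scoped ContDiff Topology
open Matrix Filter Set Real

namespace Pool.Agent.Lib.MP_94aef8_gt.Kr

variable {G : Tn} {U V : Set E4} {τ : E4 → E4} {p : E4}

theorem dt_wm (hG : Good G U) (hp : p ∈ U) (a : Fin 4) : DT (wm G a) p :=
  fun i j => ((hG.sm_om a i j).contDiffAt (hG.isOpen.mem_nhds hp)).differentiableAt (by simp)

theorem cont_ric (hG : Good G U) (j k : Fin 4) : ContinuousOn (fun p => ric G p j k) U :=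
  (hG.sm_ric j k).continuousOn

theorem good_pull (hG : Good G V) (hτ : LDif τ U V) : Good (pull τ G) U :=
  hτ.good_pull hG

theorem w_pull (hG : Good G V) (hτ : LDif τ U V) (hp : p ∈ U) (a : Fin 4) :
    jac τ p * wm (pull τ G) a p =
      dmt a (jac τ) p + (∑ c, jac τ p c a • wm G c (τ p)) * jac τ p :=
  hτ.om_pull hG hp a

theorem ric_pull (hG : Good G V) (hτ : LDif τ U V) (hp : p ∈ U) :
    ric (pull τ G) p = pull τ (ric G) p :=
  hτ.ric_pull hG hp

theorem lich_pull_sm (hG : Good G V) (hτ : LDif τ U V) (hp : p ∈ U) {h : Tn} (hh : SmT h V) :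
    lich (pull τ G) (pull τ h) p = pull τ (lich G h) p :=
  hτ.lich_pull hG hp hh

end Pool.Agent.Lib.MP_94aef8_gt.Kr
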