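import Pool.Agent.Lib.MP_94aef8_gt.Ops

/-!
Calculus at a point for fields of matrices of finite regularity.
-/

open scoped ContDiff Topology
open Matrix Filter Set

namespace Pool.Agent.Lib.MP_94aef8_gt.Kr

/-- Entrywise derivative. -/
noncomputable def dmt (a : Fin 4) (h : Tn) : Tn :=
  fun p => Matrix.of fun i j => pd a (fun x => h x i j) p

/-- Differentiable at `p`. -/
def DT (h : Tn) (p : E4) : Prop := ∀ i j, DifferentiableAt ℝ (fun x => h x i j) p

/-- Twice continuously differentiable at `p`. -/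
def C2T (h : Tn) (p : E4) : Prop := ∀ i j, ContDiffAt ℝ 2 (fun x => h x i j) p

/-- The connection matrices. -/
noncomputable def wm (G : Tn) (a : Fin 4) : Tn := fm ((geo G).w a)

section scalar

variable {f g : Fn} {p : E4}

theorem pd_congr (e : f =ᶠ[𝓝 p] g) (i : Fin 4) : pd i f p = pd i g p := by
  simp only [pd, e.fderiv_eq]

theorem pd_congr' (e : f =ᶠ[𝓝 p] g) (i : Fin 4) : pd i f =ᶠ[𝓝 p] pd i g :=
  e.eventuallyEq_nhds.mono fun _ hq => pd_congr hq i

theorem pd_add (hf : DifferentiableAt ℝ f p) (hg : DifferentiableAt ℝ g p) (i : Fin 4) :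
    pd i (fun x => f x + g x) p = pd i f p + pd i g p := by
  simp only [pd, fderiv_fun_add hf hg, _root_.add_apply]

theorem pd_sub (hf : DifferentiableAt ℝ f p) (hg : DifferentiableAt ℝ g p) (i : Fin 4) :
    pd i (fun x => f x - g x) p = pd i f p - pd i g p := by
  simp only [pd, fderiv_fun_sub hf hg, _root_.sub_apply]

theorem pd_mul (hf : DifferentiableAt ℝ f p) (hg : DifferentiableAt ℝ g p) (i : Fin 4) :
    pd i (fun x => f x * g x) p = pd i f p * g p + f p * pd i g p := by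
  simp only [pd, fderiv_fun_mul hf hg, _root_.add_apply,
    _root_.smul_apply, smul_eq_mul]
  ring

theorem pd_const (c : ℝ) (p : E4) (i : Fin 4) : pd i (fun _ => c) p = 0 := by
  simp [pd]

theorem pd_sum {ι : Type} (s : Finset ι) {F : ι → Fn} (hF : ∀ k ∈ s, DifferentiableAt ℝ (F k) p)
    (i : Fin 4) : pd i (fun x => ∑ k ∈ s, F k x) p = ∑ k ∈ s, pd i (F k) p := by
  simp only [pd, fderiv_fun_sum hF, _root_.sum_apply]

theorem diff_coord (j : Fin 4) (p : E4) : DifferentiableAt ℝ (fun x : E4 => x j) p :=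
  (EuclideanSpace.proj (𝕜 := ℝ) j).differentiableAt

theorem pd_coord (j : Fin 4) (p : E4) (i : Fin 4) :
    pd i (fun x => x j) p = if j = i then 1 else 0 := by
  have h : (fun x : E4 => x j) = EuclideanSpace.proj (𝕜 := ℝ) j := rfl
  rw [pd, h, ContinuousLinearMap.fderiv]
  simp [bas]

theorem pd_one {φ : ℝ → ℝ} {φ' : ℝ} (hφ : HasDerivAt φ φ' (f p)) (hf : DifferentiableAt ℝ f p)
    (i : Fin 4) : pd i (fun x => φ (f x)) p = φ' * pd i f p := by
  have := (hφ.comp_hasFDerivAt p hf.hasFDerivAt).fderiv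
  rw [pd, show (fun x => φ (f x)) = φ ∘ f from rfl, this]
  simp [pd]

theorem diff_sep {α β : ℝ → ℝ} {α' β' : ℝ} (hα : HasDerivAt α α' (p 0))
    (hβ : HasDerivAt β β' (p 1)) : DifferentiableAt ℝ (fun x : E4 => α (x 0) * β (x 1)) p :=
  (hα.differentiableAt.comp p (diff_coord 0 p)).mul (hβ.differentiableAt.comp p (diff_coord 1 p))

/-- Derivatives of a product of a function of `x 0` and a function of `x 1`. -/
theorem pd_sep {α β : ℝ → ℝ} {α' β' : ℝ} (hα : HasDerivAt α α' (p 0))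
    (hβ : HasDerivAt β β' (p 1)) (i : Fin 4) :
    pd i (fun x => α (x 0) * β (x 1)) p = ![α' * β (p 1), α (p 0) * β', 0, 0] i := by
  rw [pd_mul (f := fun x => α (x 0)) (g := fun x => β (x 1))
    (hα.differentiableAt.comp p (diff_coord 0 p)) (hβ.differentiableAt.comp p (diff_coord 1 p)),
    pd_one (f := fun x => x 0) hα (diff_coord 0 p), pd_one (f := fun x => x 1) hβ (diff_coord 1 p),
    pd_coord, pd_coord]
  fin_cases i <;> simp

theorem fderiv_eq_sum (f : Fn) (p v : E4) : fderiv ℝ f p v = ∑ i, v i * pd i f p := by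
  have hv : v = ∑ i, v i • bas i := by
    ext j
    simp [bas, Pi.single_apply]
  conv_lhs => rw [hv]
  simp [pd]

theorem jac_apply {τ : E4 → E4} (hτ : DifferentiableAt ℝ τ p) (i a : Fin 4) :
    jac τ p i a = fderiv ℝ τ p (bas a) i := by
  have h3 := ((EuclideanSpace.proj (𝕜 := ℝ) i).hasFDerivAt.comp p hτ.hasFDerivAt).fderiv
  have h4 : (fun y => τ y i) = (EuclideanSpace.proj (𝕜 := ℝ) i) ∘ τ := rfl
  simp only [jac, Matrix.of_apply, pd, h4, h3]
  rfl

theorem pd_comp {τ : E4 → E4} (hf : DifferentiableAt ℝ f (τ p)) (hτ : DifferentiableAt ℝ τ p)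
    (a : Fin 4) : pd a (fun x => f (τ x)) p = ∑ c, jac τ p c a * pd c f (τ p) := by
  rw [pd, show (fun x => f (τ x)) = f ∘ τ from rfl, fderiv_comp p hf hτ,
    ContinuousLinearMap.comp_apply, fderiv_eq_sum]
  exact Finset.sum_congr rfl fun c _ => by rw [jac_apply hτ]

theorem c1_pd (hf : ContDiffAt ℝ 2 f p) (i : Fin 4) : ContDiffAt ℝ 1 (pd i f) p :=
  (hf.fderiv_right (m := 1) (by norm_num)).clm_apply contDiffAt_const

theorem diff_pd (hf : ContDiffAt ℝ 2 f p) (i : Fin 4) : DifferentiableAt ℝ (pd i f) p :=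
  (c1_pd hf i).differentiableAt (by simp)

theorem ev_diff (hf : ContDiffAt ℝ 2 f p) : ∀ᶠ q in 𝓝 p, DifferentiableAt ℝ f q :=
  (hf.eventually (by simp)).mono fun _ hq => hq.differentiableAt (by simp)

/-- Second derivative of a product. -/
theorem pd_pd_mul (hf : ContDiffAt ℝ 2 f p) (hg : ContDiffAt ℝ 2 g p) (i : Fin 4) :
    pd i (pd i fun x => f x * g x) p =
      pd i (pd i f) p * g p + 2 * (pd i f p * pd i g p) + f p * pd i (pd i g) p := by
  have e : (pd i fun x => f x * g x) =ᶠ[𝓝 p] fun x => pd i f x * g x + f x * pd i g x := by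
    filter_upwards [ev_diff hf, ev_diff hg] with q h1 h2 using pd_mul h1 h2 i
  have d1 := hf.differentiableAt (by simp)
  have d2 := hg.differentiableAt (by simp)
  rw [pd_congr e, pd_add ((diff_pd hf i).fun_mul d2) (d1.fun_mul (diff_pd hg i)), pd_mul (diff_pd hf i) d2,
    pd_mul d1 (diff_pd hg i)]
  ring

end scalar

section matrix

variable {h k G : Tn} {p : E4}

theorem dmt_congr (e : h =ᶠ[𝓝 p] k) (a : Fin 4) : dmt a h p = dmt a k p := by
  ext i j
  exact pd_congr (e.mono fun _ hq => by simp only [hq]) a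

theorem DT.congr (hh : DT h p) (e : k =ᶠ[𝓝 p] h) : DT k p := fun i j =>
  (hh i j).congr_of_eventuallyEq (e.mono fun _ hq => by simp only [hq])

theorem DT.add (hh : DT h p) (hk : DT k p) : DT (fun x => h x + k x) p := fun i j =>
  (hh i j).add (hk i j)

theorem DT.sub (hh : DT h p) (hk : DT k p) : DT (fun x => h x - k x) p := fun i j =>
  (hh i j).sub (hk i j)

theorem DT.tr (hh : DT h p) : DT (fun x => (h x)ᵀ) p := fun i j => hh j i

theorem DT.mul (hh : DT h p) (hk : DT k p) : DT (fun x => h x * k x) p := fun i j => by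
  simp only [Matrix.mul_apply]
  exact DifferentiableAt.fun_sum fun l _ => (hh i l).mul (hk l j)

theorem DT.smul {f : Fn} (hf : DifferentiableAt ℝ f p) (hk : DT k p) :
    DT (fun x => f x • k x) p := fun i j => hf.mul (hk i j)

theorem DT.sum {F : Fin 4 → Tn} (hF : ∀ c, DT (F c) p) : DT (fun x => ∑ c, F c x) p :=
  fun i j => by
    simp only [Matrix.sum_apply]
    exact DifferentiableAt.fun_sum fun c _ => hF c i j

theorem DT.comp {τ : E4 → E4} (hh : DT h (τ p)) (hτ : DifferentiableAt ℝ τ p) :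
    DT (fun x => h (τ x)) p := fun i j => (hh i j).comp p hτ

theorem C2T.dt (hh : C2T h p) : DT h p := fun i j => (hh i j).differentiableAt (by simp)

theorem C2T.ev (hh : C2T h p) : ∀ᶠ q in 𝓝 p, DT h q :=
  eventually_all.2 fun i => eventually_all.2 fun j => ev_diff (hh i j)

theorem C2T.dmt (hh : C2T h p) (a : Fin 4) : DT (dmt a h) p := fun i j => diff_pd (hh i j) a

theorem dmt_add (hh : DT h p) (hk : DT k p) (a : Fin 4) :
    dmt a (fun x => h x + k x) p = dmt a h p + dmt a k p := by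
  ext i j
  exact pd_add (hh i j) (hk i j) a

theorem dmt_sub (hh : DT h p) (hk : DT k p) (a : Fin 4) :
    dmt a (fun x => h x - k x) p = dmt a h p - dmt a k p := by
  ext i j
  exact pd_sub (hh i j) (hk i j) a

theorem dmt_tr (h : Tn) (p : E4) (a : Fin 4) : dmt a (fun x => (h x)ᵀ) p = (dmt a h p)ᵀ := rfl

theorem dmt_mul (hh : DT h p) (hk : DT k p) (a : Fin 4) :
    dmt a (fun x => h x * k x) p = dmt a h p * k p + h p * dmt a k p := by
  ext i j
  simp only [dmt, Matrix.of_apply, Matrix.mul_apply, Matrix.add_apply]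
  rw [pd_sum (F := fun l x => h x i l * k x l j) _ fun l _ => (hh i l).mul (hk l j),
    ← Finset.sum_add_distrib]
  exact Finset.sum_congr rfl fun l _ => pd_mul (hh i l) (hk l j) a

theorem dmt_smul {f : Fn} (hf : DifferentiableAt ℝ f p) (hk : DT k p) (a : Fin 4) :
    dmt a (fun x => f x • k x) p = pd a f p • k p + f p • dmt a k p := by
  ext i j
  exact pd_mul hf (hk i j) a

theorem dmt_sum {F : Fin 4 → Tn} (hF : ∀ c, DT (F c) p) (a : Fin 4) :
    dmt a (fun x => ∑ c, F c x) p = ∑ c, dmt a (F c) p := by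
  ext i j
  simp only [dmt, Matrix.of_apply, Matrix.sum_apply]
  exact pd_sum (F := fun c x => F c x i j) _ (fun c _ => hF c i j) a

theorem dmt_comp {τ : E4 → E4} (hh : DT h (τ p)) (hτ : DifferentiableAt ℝ τ p) (a : Fin 4) :
    dmt a (fun x => h (τ x)) p = ∑ c, jac τ p c a • dmt c h (τ p) := by
  ext i j
  simp only [dmt, Matrix.of_apply, Matrix.sum_apply, Matrix.smul_apply, smul_eq_mul]
  exact pd_comp (f := fun y => h y i j) (hh i j) hτ a

theorem wm_apply (G : Tn) (a k j : Fin 4) (p : E4) : wm G a p k j =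
    1 / 2 * ∑ l, (G p)⁻¹ k l * (dmt a G p j l + dmt j G p a l - dmt l G p a j) := by
  simp [wm, fm, geo, Geo.w, mf, inv, dmt, Finset.sum_apply]

theorem nab_eq (G h : Tn) (a : Fin 4) (p : E4) :
    nab G a h p = dmt a h p - (wm G a p)ᵀ * h p - h p * wm G a p := by
  ext i j
  simp [nab, wm, fm, Geo.nab, Geo.dm, mf, dmt, Matrix.mul_apply, Finset.sum_apply]
  rfl

theorem mf_fm (M : MA Fn) : mf (fm M) = M := rfl

theorem nab2_eq (G h : Tn) (a b : Fin 4) (p : E4) :
    nab2 G a b h p = nab G a (nab G b h) p - ∑ e, wm G a p e b • nab G e h p := by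
  ext i j
  simp [nab2, nab, wm, Geo.nab2, mf_fm, Matrix.sum_apply]
  simp [fm, Matrix.sum_apply, Finset.sum_apply]

theorem rough_eq (G h : Tn) (p : E4) :
    rough G h p = -∑ a, ∑ b, (G p)⁻¹ a b • nab2 G a b h p := by
  ext i j
  simp [rough, nab2, fm, Geo.rough, geo, mf, inv, Matrix.sum_apply, Finset.sum_apply]

theorem rm_eq (G : Tn) (a b : Fin 4) (p : E4) : rm G a b p =
    dmt a (wm G b) p - dmt b (wm G a) p + wm G a p * wm G b p - wm G b p * wm G a p := by
  ext i j
  simp [rm, wm, fm, Geo.rm, Geo.dm, dmt, Matrix.mul_apply, Finset.sum_apply]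
  rfl

theorem rring_apply (G h : Tn) (p : E4) (i j : Fin 4) :
    rring G h p i j = ∑ a, ((G p)⁻¹ * h p * rm G a i p) a j := by
  simp [rring, rm, fm, Geo.rring, geo, mf, inv, Matrix.mul_apply, Finset.sum_apply]

theorem ric_geo (G : Tn) (p : E4) (j k : Fin 4) : (geo G).ric j k p = ric G p j k := by
  simp [ric, Geo.ric, Finset.sum_apply]
  rfl

theorem ric_apply (G : Tn) (p : E4) (j k : Fin 4) : ric G p j k = ∑ i, rm G i j p i k := by
  rw [← ric_geo]
  simp [rm, fm, Geo.ric, Geo.rm, Geo.dm, Matrix.mul_apply, Finset.sum_apply,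
    Finset.sum_sub_distrib, Finset.sum_add_distrib]
  ring

theorem lich_eq (G h : Tn) (p : E4) : lich G h p = rough G h p - (2 : ℝ) • rring G h p +
    ric G p * (G p)⁻¹ * h p + h p * (G p)⁻¹ * ric G p := by
  ext i j
  simp [lich, rough, rring, fm, Geo.lich, Matrix.mul_apply, Finset.sum_apply, ric_geo]
  rfl

theorem ipD_eq (G h k : Tn) (p : E4) :
    ipD G h k p = ∑ a, ∑ b, (G p)⁻¹ a b * ipM (G p) (nab G a h p) (nab G b k p) := by
  simp [ipD, Geo.ipD, Geo.ipT, ipM, nab, fm, Matrix.trace, Matrix.mul_apply, Finset.sum_apply]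
  rfl

/-- The second covariant derivative expanded. -/
theorem nab_nab (hh : C2T h p) {b : Fin 4} (hw : DT (wm G b) p) (a : Fin 4) :
    nab G a (nab G b h) p = dmt a (dmt b h) p - ((dmt a (wm G b) p)ᵀ * h p +
      (wm G b p)ᵀ * dmt a h p) - (dmt a h p * wm G b p + h p * dmt a (wm G b) p) -
      (wm G a p)ᵀ * nab G b h p - nab G b h p * wm G a p := by
  have e : nab G b h = fun x => dmt b h x - (wm G b x)ᵀ * h x - h x * wm G b x :=
    funext fun x => nab_eq G h b x
  rw [nab_eq G (nab G b h) a p]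
  congr 2
  rw [e, dmt_sub ((hh.dmt b).sub (hw.tr.mul hh.dt)) (hh.dt.mul hw), dmt_sub (hh.dmt b)
    (hw.tr.mul hh.dt), dmt_mul hw.tr hh.dt, dmt_mul hh.dt hw, dmt_tr]

theorem DT.nab (hh : C2T h p) {b : Fin 4} (hw : DT (wm G b) p) : DT (nab G b h) p := by
  have e : Pool.Agent.Lib.MP_94aef8_gt.nab G b h =
      fun x => dmt b h x - (wm G b x)ᵀ * h x - h x * wm G b x := funext fun x => nab_eq G h b x
  rw [e]
  exact ((hh.dmt b).sub (hw.tr.mul hh.dt)).sub (hh.dt.mul hw)

/-! The operators depend only on the germs. -/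

theorem wm_congr {G' : Tn} (e : G =ᶠ[𝓝 p] G') (a : Fin 4) : wm G a =ᶠ[𝓝 p] wm G' a :=
  e.eventuallyEq_nhds.mono fun q hq => by
    ext k j
    simp only [wm_apply, dmt_congr hq, hq.eq_of_nhds]

theorem nab_congr {G' : Tn} (e : G =ᶠ[𝓝 p] G') (e' : h =ᶠ[𝓝 p] k) (a : Fin 4) :
    nab G a h =ᶠ[𝓝 p] nab G' a k := by
  filter_upwards [wm_congr e a, e'.eventuallyEq_nhds] with q h1 h2
  rw [nab_eq, nab_eq, h1, dmt_congr h2, h2.eq_of_nhds]

theorem rm_congr {G' : Tn} (e : G =ᶠ[𝓝 p] G') (a b : Fin 4) : rm G a b p = rm G' a b p := by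
  rw [rm_eq, rm_eq, dmt_congr (wm_congr e b), dmt_congr (wm_congr e a), (wm_congr e a).eq_of_nhds,
    (wm_congr e b).eq_of_nhds]

theorem ric_congr {G' : Tn} (e : G =ᶠ[𝓝 p] G') : ric G p = ric G' p := by
  ext j k
  simp only [ric_apply, rm_congr e]

theorem lich_congr {G' : Tn} (e : G =ᶠ[𝓝 p] G') (e' : h =ᶠ[𝓝 p] k) :
    lich G h p = lich G' k p := by
  have h1 : rough G h p = rough G' k p := by
    simp only [rough_eq, nab2_eq, e.eq_of_nhds, fun a => (wm_congr e a).eq_of_nhds,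
      fun a => (nab_congr e e' a).eq_of_nhds,
      fun a b => (nab_congr e (nab_congr e e' b) a).eq_of_nhds]
  have h2 : rring G h p = rring G' k p := by
    ext i j
    simp only [rring_apply, e.eq_of_nhds, e'.eq_of_nhds, rm_congr e]
  rw [lich_eq, lich_eq, h1, h2, ric_congr e, e.eq_of_nhds, e'.eq_of_nhds]

theorem ipD_congr {G' : Tn} (e : G =ᶠ[𝓝 p] G') (e' : h =ᶠ[𝓝 p] k) :
    ipD G h h p = ipD G' k k p := by
  simp only [ipD_eq, e.eq_of_nhds, fun a => (nab_congr e e' a).eq_of_nhds]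

end matrix

end Pool.Agent.Lib.MP_94aef8_gt.Kr
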