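import Pool.Agent.Lib.MP_94aef8_gt.K.ADefs

/-!
Integration by parts in the angle, first part.
-/

open Real Set Filter Polynomial
open scoped Topology

namespace Pool.Agent.Lib.MP_94aef8_gt.Kr

/-! In each lemma write (left integrand) - (right integrand) as the derivative of a boundary
function `Bd` which vanishes at `0` and `π`, apply
`intervalIntegral.integral_eq_sub_of_hasDerivAt` and `intervalIntegral.integral_sub` (everything is
continuous). The derivative of `θ ↦ z.eval (cos θ)` is `z.derivative.eval (cos θ) * (-sin θ)`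
(`Polynomial.hasDerivAt`, `HasDerivAt.comp`). After `simp [Lg, derivative_mul, ..]` the pointwise
identity is `linear_combination (..) * sin_sq_add_cos_sq θ`. Below `s = sin θ`, `c = cos θ`,
`y0, y1, y2` are `y, y', y''` at `c`. -/

variable {φ φ1 φ2 : ℝ → ℝ}

theorem Ibp1_core {f g B : ℝ → ℝ} (hf : Continuous f) (hg : Continuous g)
    (hB : ∀ θ, HasDerivAt B (f θ + g θ) θ) (b0 : B 0 = 0) (b1 : B π = 0) :
    ∫ θ in (0 : ℝ)..π, f θ = -∫ θ in (0 : ℝ)..π, g θ := by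
  have h := intervalIntegral.integral_eq_sub_of_hasDerivAt (a := 0) (b := π) (fun θ _ => hB θ)
    ((hf.add hg).intervalIntegrable _ _)
  rw [intervalIntegral.integral_add (hf.intervalIntegrable _ _) (hg.intervalIntegrable _ _),
    b0, b1] at h
  linarith

theorem Ibp1_der (z : ℝ[X]) (θ : ℝ) :
    HasDerivAt (fun t => z.eval (cos t)) ((derivative z).eval (cos θ) * -sin θ) θ :=
  (z.hasDerivAt (cos θ)).comp θ (hasDerivAt_cos θ)

theorem Ibp1_cont (z : ℝ[X]) : Continuous fun t : ℝ => z.eval (cos t) :=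
  z.continuous.comp continuous_cos

theorem Ibp1_Lg (y : ℝ[X]) (c : ℝ) : (Lg y).eval c =
    (1 - c ^ 2) * (derivative (derivative y)).eval c - 2 * c * (derivative y).eval c := by
  simp [Lg]

theorem Ibp1_c {f g : ℝ → ℝ} (h : ∀ θ, HasDerivAt f (g θ) θ) : Continuous f :=
  continuous_iff_continuousAt.2 fun θ => (h θ).continuousAt

theorem Ibp1_sq (θ : ℝ) : HasDerivAt (fun t => sin t ^ 2) (2 * sin θ * cos θ) θ := by
  have h := (hasDerivAt_sin θ).mul (hasDerivAt_sin θ)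
  have e : (fun t => sin t ^ 2) = sin * sin := by
    funext t
    simp [sq]
  rw [e]
  refine HasDerivAt.congr_deriv h ?_
  ring

/-- `Bd = -φ1 s y0 - φ s ^ 2 y1`. -/
theorem ibpS (h1 : ∀ θ, HasDerivAt φ (φ1 θ) θ) (h2 : ∀ θ, HasDerivAt φ1 (φ2 θ) θ)
    (c2 : Continuous φ2) (y : ℝ[X]) :
    ∫ θ in (0 : ℝ)..π, (-φ2 θ * sin θ - cos θ * φ1 θ) * y.eval (cos θ) = -ia φ (ws (Lg y)) := by
  have c0 := Ibp1_c h1
  have c1 := Ibp1_c h2
  have cy := Ibp1_cont y
  have cL := Ibp1_cont (Lg y)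
  unfold ia ws
  refine Ibp1_core (B := fun θ => -(φ1 θ * sin θ * y.eval (cos θ)) -
    φ θ * sin θ ^ 2 * (derivative y).eval (cos θ)) (by fun_prop) (by fun_prop) ?_ (by simp)
    (by simp)
  intro θ
  have h := ((((h2 θ).mul (hasDerivAt_sin θ)).mul (Ibp1_der y θ)).neg).sub
    (((h1 θ).mul (Ibp1_sq θ)).mul (Ibp1_der (derivative y) θ))
  refine HasDerivAt.congr_deriv h ?_
  rw [Ibp1_Lg]
  simp only [Pi.mul_apply]
  linear_combination (φ θ * sin θ * (derivative (derivative y)).eval (cos θ)) *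
    sin_sq_add_cos_sq θ

/-- `Bd = φ s y0`. -/
theorem ibpD (h1 : ∀ θ, HasDerivAt φ (φ1 θ) θ) (c1 : Continuous φ1) (y : ℝ[X]) :
    ∫ θ in (0 : ℝ)..π, (φ1 θ * sin θ + cos θ * φ θ) * y.eval (cos θ) = -ia φ (wv y) := by
  have c0 := Ibp1_c h1
  have cy := Ibp1_cont y
  have cy1 := Ibp1_cont (derivative y)
  unfold ia wv
  refine Ibp1_core (B := fun θ => φ θ * sin θ * y.eval (cos θ)) (by fun_prop) (by fun_prop) ?_
    (by simp) (by simp)
  intro θ
  have h := ((h1 θ).mul (hasDerivAt_sin θ)).mul (Ibp1_der y θ)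
  refine HasDerivAt.congr_deriv h ?_
  simp only [Pi.mul_apply]
  ring

/-- `Bd = -φ s ^ 2 y1`. -/
theorem ibpG (h1 : ∀ θ, HasDerivAt φ (φ1 θ) θ) (c1 : Continuous φ1) (y : ℝ[X]) :
    ia φ1 (wv y) = -ia φ (ws (Lg y)) := by
  have c0 := Ibp1_c h1
  have cy1 := Ibp1_cont (derivative y)
  have cL := Ibp1_cont (Lg y)
  unfold ia wv ws
  refine Ibp1_core (B := fun θ => -(φ θ * sin θ ^ 2 * (derivative y).eval (cos θ)))
    (by fun_prop) (by fun_prop) ?_ (by simp) (by simp)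
  intro θ
  have h := (((h1 θ).mul (Ibp1_sq θ)).mul (Ibp1_der (derivative y) θ)).neg
  refine HasDerivAt.congr_deriv h ?_
  rw [Ibp1_Lg]
  simp only [Pi.mul_apply]
  linear_combination (φ θ * sin θ * (derivative (derivative y)).eval (cos θ)) *
    sin_sq_add_cos_sq θ

/-- `Bd = φ s ^ 2 y1`. -/
theorem ibpE (h1 : ∀ θ, HasDerivAt φ (φ1 θ) θ) (c1 : Continuous φ1) (y : ℝ[X]) :
    ∫ θ in (0 : ℝ)..π, (φ1 θ * sin θ ^ 2 + 2 * cos θ * sin θ * φ θ) *
      (derivative y).eval (cos θ) = ia φ (wt y) := by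
  have c0 := Ibp1_c h1
  have cy1 := Ibp1_cont (derivative y)
  have cy2 := Ibp1_cont (derivative (derivative y))
  unfold ia wt
  have key := Ibp1_core
    (f := fun θ => (φ1 θ * sin θ ^ 2 + 2 * cos θ * sin θ * φ θ) * (derivative y).eval (cos θ))
    (g := fun θ => -(φ θ * ((derivative (derivative y)).eval (cos θ) * sin θ ^ 3)))
    (B := fun θ => φ θ * sin θ ^ 2 * (derivative y).eval (cos θ))
    (by fun_prop) (by fun_prop) (fun θ => by
      have h := ((h1 θ).mul (Ibp1_sq θ)).mul (Ibp1_der (derivative y) θ)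
      refine HasDerivAt.congr_deriv h ?_
      simp only [Pi.mul_apply]
      ring) (by simp) (by simp)
  rw [key, intervalIntegral.integral_neg, neg_neg]

/-- `Bd = φ1 s y1 + φ (Lg y)(c)`. -/
theorem ibpU (h1 : ∀ θ, HasDerivAt φ (φ1 θ) θ) (h2 : ∀ θ, HasDerivAt φ1 (φ2 θ) θ)
    (c2 : Continuous φ2) (e0 : φ 0 = 0) (e1 : φ π = 0) (y : ℝ[X]) :
    ∫ θ in (0 : ℝ)..π, (φ2 θ * sin θ - cos θ * φ1 θ) * (derivative y).eval (cos θ) =
      -ia φ (wu (Lg y)) := by
  have c0 := Ibp1_c h1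
  have c1 := Ibp1_c h2
  have cy1 := Ibp1_cont (derivative y)
  have cL := Ibp1_cont (derivative (Lg y))
  unfold ia wu
  refine Ibp1_core (B := fun θ => φ1 θ * sin θ * (derivative y).eval (cos θ) +
    φ θ * (Lg y).eval (cos θ)) (by fun_prop) (by fun_prop) ?_ (by simp [e0]) (by simp [e1])
  intro θ
  have h := (((h2 θ).mul (hasDerivAt_sin θ)).mul (Ibp1_der (derivative y) θ)).add
    ((h1 θ).mul (Ibp1_der (Lg y) θ))
  refine HasDerivAt.congr_deriv h ?_
  rw [Ibp1_Lg]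
  simp only [Pi.mul_apply]
  linear_combination (-φ1 θ * (derivative (derivative y)).eval (cos θ)) * sin_sq_add_cos_sq θ

end Pool.Agent.Lib.MP_94aef8_gt.Kr
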