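import Pool.Agent.Lib.MP_94aef8_gt.K.ADefs

/-!
Integration by parts in the angle, second part.
-/

open Real Set Filter Polynomial
open scoped Topology

namespace Pool.Agent.Lib.MP_94aef8_gt.Kr

/-! Same method as in `Ibp1`: (left integrand) - (right integrand) is the derivative of a boundary
function `Bd` which vanishes at `0` and `π`; use
`intervalIntegral.integral_eq_sub_of_hasDerivAt`, `intervalIntegral.integral_sub`. The derivative
of `θ ↦ z.eval (cos θ)` is `z.derivative.eval (cos θ) * (-sin θ)`. One has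
`(Lg y)' = (1 - X^2) y''' - 4 X y'' - 2 y'` and `(Lg y)'' = (1 - X^2) y'''' - 6 X y''' - 6 y''`.
The pointwise identity is `linear_combination (..) * sin_sq_add_cos_sq θ`. Below `s = sin θ`,
`c = cos θ`, `y1, y2, y3` are the derivatives of `y` at `c`. -/

theorem Ibp2_key {f g B : ℝ → ℝ} (cf : Continuous f) (cg : Continuous g)
    (hB : ∀ θ, HasDerivAt B (f θ - g θ) θ) (h0 : B 0 = 0) (h1 : B π = 0) :
    ∫ θ in (0 : ℝ)..π, f θ = ∫ θ in (0 : ℝ)..π, g θ := by
  have h := intervalIntegral.integral_eq_sub_of_hasDerivAt (a := 0) (b := π)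
    (fun θ _ => hB θ) ((cf.sub cg).intervalIntegrable _ _)
  rw [intervalIntegral.integral_sub (cf.intervalIntegrable _ _) (cg.intervalIntegrable _ _), h0,
    h1] at h
  linarith

theorem Ibp2_der (z : ℝ[X]) (θ : ℝ) :
    HasDerivAt (fun θ => z.eval (cos θ)) ((derivative z).eval (cos θ) * -sin θ) θ :=
  (z.hasDerivAt (cos θ)).comp θ (hasDerivAt_cos θ)

theorem Ibp2_cont (z : ℝ[X]) : Continuous fun θ => z.eval (cos θ) :=
  z.continuous.comp continuous_cos

theorem Ibp2_Lg1 (y : ℝ[X]) (c : ℝ) : (derivative (Lg y)).eval c =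
    (1 - c ^ 2) * (derivative (derivative (derivative y))).eval c -
      4 * c * (derivative (derivative y)).eval c - 2 * (derivative y).eval c := by
  simp [Lg, derivative_mul, derivative_sub]
  ring

theorem Ibp2_Lg2 (y : ℝ[X]) (c : ℝ) : (derivative (derivative (Lg y))).eval c =
    (1 - c ^ 2) * (derivative (derivative (derivative (derivative y)))).eval c -
      6 * c * (derivative (derivative (derivative y))).eval c -
      6 * (derivative (derivative y)).eval c := by
  simp [Lg, derivative_mul, derivative_sub]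
  ring

variable {φ φ1 φ2 : ℝ → ℝ}

/-- `Bd = φ1 s ^ 2 y1 - φ s (c y1 - s ^ 2 y2)`. -/
theorem ibpV (h1 : ∀ θ, HasDerivAt φ (φ1 θ) θ) (h2 : ∀ θ, HasDerivAt φ1 (φ2 θ) θ)
    (c2 : Continuous φ2) (y : ℝ[X]) :
    ∫ θ in (0 : ℝ)..π, (φ2 θ * sin θ ^ 2 + cos θ * sin θ * φ1 θ - φ θ) *
      (derivative y).eval (cos θ) = -ia φ (wv (Lg y)) := by
  have c0 : Continuous φ := continuous_iff_continuousAt.2 fun θ => (h1 θ).continuousAt
  have c1 : Continuous φ1 := continuous_iff_continuousAt.2 fun θ => (h2 θ).continuousAt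
  have k1 := Ibp2_cont (derivative y)
  have k2 := Ibp2_cont (derivative (Lg y))
  rw [ia, ← intervalIntegral.integral_neg]
  refine Ibp2_key (B := fun θ => φ1 θ * sin θ ^ 2 * (derivative y).eval (cos θ) -
    φ θ * sin θ * (cos θ * (derivative y).eval (cos θ) -
      sin θ ^ 2 * (derivative (derivative y)).eval (cos θ))) (by fun_prop)
    (by unfold wv; fun_prop) (fun θ => ?_) (by simp) (by simp)
  have hs := hasDerivAt_sin θ
  refine ((((h2 θ).fun_mul (hs.fun_pow 2)).fun_mul (Ibp2_der _ θ)).fun_sub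
    (((h1 θ).fun_mul hs).fun_mul (((hasDerivAt_cos θ).fun_mul (Ibp2_der _ θ)).fun_sub
      ((hs.fun_pow 2).fun_mul (Ibp2_der _ θ))))).congr_deriv ?_
  simp only [wv, Ibp2_Lg1]
  norm_num
  linear_combination (-φ θ * ((derivative y).eval (cos θ) +
    sin θ ^ 2 * (derivative (derivative (derivative y))).eval (cos θ))) * sin_sq_add_cos_sq θ

/-- `Bd = -φ1 s ^ 3 y2 + φ s (2 s c y2 - s ^ 3 y3)`. -/
theorem ibpT (h1 : ∀ θ, HasDerivAt φ (φ1 θ) θ) (h2 : ∀ θ, HasDerivAt φ1 (φ2 θ) θ)
    (c2 : Continuous φ2) (y : ℝ[X]) :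
    ∫ θ in (0 : ℝ)..π, (-φ2 θ * sin θ ^ 3 - cos θ * sin θ ^ 2 * φ1 θ + 4 * sin θ * φ θ) *
      (derivative (derivative y)).eval (cos θ) = -ia φ (wt (Lg y)) := by
  have c0 : Continuous φ := continuous_iff_continuousAt.2 fun θ => (h1 θ).continuousAt
  have c1 : Continuous φ1 := continuous_iff_continuousAt.2 fun θ => (h2 θ).continuousAt
  have k1 := Ibp2_cont (derivative (derivative y))
  have k2 := Ibp2_cont (derivative (derivative (Lg y)))
  rw [ia, ← intervalIntegral.integral_neg]
  refine Ibp2_key (B := fun θ => -φ1 θ * sin θ ^ 3 * (derivative (derivative y)).eval (cos θ) +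
    φ θ * sin θ * (2 * sin θ * cos θ * (derivative (derivative y)).eval (cos θ) -
      sin θ ^ 3 * (derivative (derivative (derivative y))).eval (cos θ))) (by fun_prop)
    (by unfold wt; fun_prop) (fun θ => ?_) (by simp) (by simp)
  have hs := hasDerivAt_sin θ
  refine ((((h2 θ).fun_neg.fun_mul (hs.fun_pow 3)).fun_mul (Ibp2_der _ θ)).fun_add
    (((h1 θ).fun_mul hs).fun_mul ((((hs.const_mul 2).fun_mul (hasDerivAt_cos θ)).fun_mul
      (Ibp2_der _ θ)).fun_sub ((hs.fun_pow 3).fun_mul (Ibp2_der _ θ))))).congr_deriv ?_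
  simp only [wt, Ibp2_Lg2]
  norm_num
  linear_combination (φ θ * (4 * sin θ * (derivative (derivative y)).eval (cos θ) + sin θ ^ 3 *
    (derivative (derivative (derivative (derivative y)))).eval (cos θ))) * sin_sq_add_cos_sq θ

/-- `Bd = φ s ^ 3 y2`. -/
theorem ibpW (h1 : ∀ θ, HasDerivAt φ (φ1 θ) θ) (c1 : Continuous φ1) (y : ℝ[X]) :
    ∫ θ in (0 : ℝ)..π, (φ1 θ * sin θ ^ 3 - cos θ * sin θ ^ 2 * φ θ) *
      (derivative (derivative y)).eval (cos θ) = -ia φ (wv (Lg y)) - 2 * ia φ (wv y) := by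
  have c0 : Continuous φ := continuous_iff_continuousAt.2 fun θ => (h1 θ).continuousAt
  have k1 := Ibp2_cont (derivative (derivative y))
  have k2 := Ibp2_cont (derivative (Lg y))
  have k3 := Ibp2_cont (derivative y)
  have k4 : Continuous fun θ => -(φ θ * wv (Lg y) θ) := by
    unfold wv
    fun_prop
  have k5 : Continuous fun θ => 2 * (φ θ * wv y θ) := by
    unfold wv
    fun_prop
  rw [ia, ia, ← intervalIntegral.integral_neg, ← intervalIntegral.integral_const_mul,
    ← intervalIntegral.integral_sub (k4.intervalIntegrable _ _) (k5.intervalIntegrable _ _)]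
  refine Ibp2_key (B := fun θ => φ θ * sin θ ^ 3 * (derivative (derivative y)).eval (cos θ))
    (by fun_prop) (k4.sub k5) (fun θ => ?_) (by simp) (by simp)
  refine (((h1 θ).fun_mul ((hasDerivAt_sin θ).fun_pow 3)).fun_mul (Ibp2_der _ θ)).congr_deriv ?_
  simp only [wv, Ibp2_Lg1]
  norm_num
  linear_combination (-φ θ * sin θ ^ 2 *
    (derivative (derivative (derivative y))).eval (cos θ)) * sin_sq_add_cos_sq θ

end Pool.Agent.Lib.MP_94aef8_gt.Kr
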