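import Pool.Agent.Lib.MP_94aef8_gt.Sys
import Pool.Agent.Lib.MP_94aef8_gt.K.Cal
import Pool.Agent.Lib.MP_94aef8_gt.K.ADefs

/-!
Polar coordinates on the Schwarzschild space: definitions.
-/

open scoped ContDiff Topology
open Matrix Filter Set Real

namespace Pool.Agent.Lib.MP_94aef8_gt.Kr

/-- The exterior region. -/
def Ext : Set E4 := {x | 1 < R3 x}

/-- The half space `1 < R`. -/
def U1 : Set E4 := {x | 1 < x 0}

/-- The domain of polar coordinates. -/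
def U2 : Set E4 := {x | 1 < x 0 ∧ 0 < x 1 ∧ x 1 < π}

/-- Polar coordinates `(R, θ, φ, t)`. -/
noncomputable def Ps (x : E4) : E4 :=
  mk4 (x 0 * sin (x 1) * cos (x 2)) (x 0 * sin (x 1) * sin (x 2)) (x 0 * cos (x 1)) (x 3)

/-- The point with `φ = t = 0`. -/
noncomputable def P0 (x : E4) : E4 := mk4 (x 0 * sin (x 1)) 0 (x 0 * cos (x 1)) 0

/-- The matrix of `rot a`. -/
noncomputable def Rm (a : ℝ) : Mat :=
  !![cos a, -sin a, 0, 0; sin a, cos a, 0, 0; 0, 0, 1, 0; 0, 0, 0, 1]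

/-- The frame at `φ = 0`. -/
noncomputable def Fr (θ : ℝ) : Mat :=
  !![sin θ, cos θ, 0, 0; 0, 0, 1, 0; cos θ, -sin θ, 0, 0; 0, 0, 0, 1]

/-- The lengths of the coordinate vectors. -/
noncomputable def Dg (x : E4) : Mat := diagonal ![1, x 0, x 0 * sin (x 1), 1]

/-- The metric in polar coordinates. -/
noncomputable def Gp (x : E4) : Mat :=
  diagonal ![x 0 / (x 0 - 1), x 0 ^ 2, x 0 ^ 2 * sin (x 1) ^ 2, (x 0 - 1) / x 0]

/-- Its inverse. -/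
noncomputable def Hp (x : E4) : Mat :=
  diagonal ![(x 0 - 1) / x 0, 1 / x 0 ^ 2, 1 / (x 0 ^ 2 * sin (x 1) ^ 2), x 0 / (x 0 - 1)]

/-- The connection matrices at `(R, θ)`. -/
noncomputable def Wp (R θ : ℝ) : Fin 4 → Mat :=
  ![!![-1 / (2 * R * (R - 1)), 0, 0, 0; 0, 1 / R, 0, 0; 0, 0, 1 / R, 0;
      0, 0, 0, 1 / (2 * R * (R - 1))],
    !![0, 1 - R, 0, 0; 1 / R, 0, 0, 0; 0, 0, cos θ / sin θ, 0; 0, 0, 0, 0],
    !![0, 0, (1 - R) * sin θ ^ 2, 0; 0, 0, -(cos θ * sin θ), 0; 1 / R, cos θ / sin θ, 0, 0;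
      0, 0, 0, 0],
    !![0, 0, 0, (1 - R) / (2 * R ^ 3); 0, 0, 0, 0; 0, 0, 0, 0; 1 / (2 * R * (R - 1)), 0, 0, 0]]

/-- Their derivatives with respect to `R`. -/
noncomputable def Wr (R θ : ℝ) : Fin 4 → Mat :=
  ![!![(2 * R - 1) / (2 * R ^ 2 * (R - 1) ^ 2), 0, 0, 0; 0, -1 / R ^ 2, 0, 0; 0, 0, -1 / R ^ 2, 0;
      0, 0, 0, -(2 * R - 1) / (2 * R ^ 2 * (R - 1) ^ 2)],
    !![0, -1, 0, 0; -1 / R ^ 2, 0, 0, 0; 0, 0, 0, 0; 0, 0, 0, 0],
    !![0, 0, -sin θ ^ 2, 0; 0, 0, 0, 0; -1 / R ^ 2, 0, 0, 0; 0, 0, 0, 0],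
    !![0, 0, 0, (2 * R - 3) / (2 * R ^ 4); 0, 0, 0, 0; 0, 0, 0, 0;
      -(2 * R - 1) / (2 * R ^ 2 * (R - 1) ^ 2), 0, 0, 0]]

/-- Their derivatives with respect to `θ`. -/
noncomputable def Wt (R θ : ℝ) : Fin 4 → Mat :=
  ![0, !![0, 0, 0, 0; 0, 0, 0, 0; 0, 0, -1 / sin θ ^ 2, 0; 0, 0, 0, 0],
    !![0, 0, (1 - R) * (2 * sin θ * cos θ), 0; 0, 0, sin θ ^ 2 - cos θ ^ 2, 0;
      0, -1 / sin θ ^ 2, 0, 0; 0, 0, 0, 0], 0]

/-- The components in the frame. -/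
noncomputable def mm (h : Tn) (x : E4) : Mat := (Fr (x 1))ᵀ * h (P0 x) * Fr (x 1)

/-- The component `a`. -/
noncomputable def ca (h : Tn) (x : E4) : ℝ := x 0 / (x 0 - 1) * mm h x 3 3

/-- The component `b`. -/
noncomputable def cb (h : Tn) (x : E4) : ℝ := (x 0 - 1) / x 0 * mm h x 0 0

/-- The component `p`. -/
noncomputable def cp (h : Tn) (x : E4) : ℝ := mm h x 1 1

/-- The component `q`. -/
noncomputable def cq (h : Tn) (x : E4) : ℝ := mm h x 2 2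

/-- The component `v`. -/
noncomputable def cv (h : Tn) (x : E4) : ℝ := x 0 * mm h x 0 1

/-- The component `u`. -/
noncomputable def cu (h : Tn) (x : E4) : ℝ := x 0 * sin (x 1) * mm h x 2 3

/-- The tensor with given components. -/
noncomputable def tk (a b p q v u : Fn) (x : E4) : Mat :=
  !![x 0 / (x 0 - 1) * b x, v x, 0, 0; v x, x 0 ^ 2 * p x, 0, 0;
    0, 0, x 0 ^ 2 * sin (x 1) ^ 2 * q x, u x; 0, 0, u x, (x 0 - 1) / x 0 * a x]

/-- A function of the first two coordinates, of class `C^2` for `1 < R`. -/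
structure Ax (c : Fn) : Prop where
  sm : ContDiffOn ℝ 2 c U1
  dep : ∀ x y : E4, x 0 = y 0 → x 1 = y 1 → c x = c y

/-- Six such functions. -/
structure Ax6 (a b p q v u : Fn) : Prop where
  a : Ax a
  b : Ax b
  p : Ax p
  q : Ax q
  v : Ax v
  u : Ax u

/-- The function of `(R, θ)` with its derivatives. -/
noncomputable def sl (c : Fn) : J2 :=
  ⟨fun R θ => c (mk4 R θ 0 0), fun R θ => pd 0 c (mk4 R θ 0 0),
    fun R θ => pd 0 (pd 0 c) (mk4 R θ 0 0), fun R θ => pd 1 c (mk4 R θ 0 0),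
    fun R θ => pd 1 (pd 1 c) (mk4 R θ 0 0)⟩

/-- The hypotheses of the theorem. -/
structure Ker (h : Tn) : Prop where
  sm : ∀ i j, ContDiffOn ℝ 2 (fun x => h x i j) Ext
  sy : ∀ x ∈ Ext, (h x)ᵀ = h x
  eq : ∀ x ∈ Ext, lich (GB 0) h x = 0
  it : ∀ a, ∀ x ∈ Ext, h (tsh a x) = h x
  ir : ∀ a, ∀ x ∈ Ext, (Rm a)ᵀ * h (rot a x) * Rm a = h x
  i1 : ∀ x ∈ Ext, diagonal ![1, -1, 1, -1] * h (fl1 x) * diagonal ![1, -1, 1, -1] = h x
  i2 : ∀ x ∈ Ext, diagonal ![1, 1, -1, 1] * h (fl2 x) * diagonal ![1, 1, -1, 1] = h x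
  bd : ∃ C, ∀ x ∈ Ext, R3 x * (ipT (GB 0) h h x + R3 x ^ 2 * ipD (GB 0) h h x) ≤ C

@[simp] theorem mk4_0 (a b c d : ℝ) : mk4 a b c d 0 = a := rfl

@[simp] theorem mk4_1 (a b c d : ℝ) : mk4 a b c d 1 = b := rfl

@[simp] theorem mk4_2 (a b c d : ℝ) : mk4 a b c d 2 = c := rfl

@[simp] theorem mk4_3 (a b c d : ℝ) : mk4 a b c d 3 = d := rfl

theorem cd_coord (j : Fin 4) : ContDiff ℝ ∞ fun x : E4 => x j :=
  (EuclideanSpace.proj (𝕜 := ℝ) j).contDiff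

theorem open_U1 : IsOpen U1 := isOpen_lt continuous_const (cd_coord 0).continuous

theorem open_U2 : IsOpen U2 := (isOpen_lt continuous_const (cd_coord 0).continuous).inter
  ((isOpen_lt continuous_const (cd_coord 1).continuous).inter
    (isOpen_lt (cd_coord 1).continuous continuous_const))

theorem cont_R3 : Continuous R3 := by
  have h0 := (cd_coord 0).continuous
  have h1 := (cd_coord 1).continuous
  have h2 := (cd_coord 2).continuous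
  unfold R3 u01
  fun_prop

theorem open_Ext : IsOpen Ext := isOpen_lt continuous_const cont_R3

theorem U2.sin_pos {x : E4} (hx : x ∈ U2) : 0 < sin (x 1) :=
  sin_pos_of_pos_of_lt_pi hx.2.1 hx.2.2

theorem cd_mk4 {a b c d : Fn} {n : WithTop ℕ∞} {U : Set E4} (ha : ContDiffOn ℝ n a U)
    (hb : ContDiffOn ℝ n b U) (hc : ContDiffOn ℝ n c U) (hd : ContDiffOn ℝ n d U) :
    ContDiffOn ℝ n (fun x => mk4 (a x) (b x) (c x) (d x)) U := by
  rw [contDiffOn_euclidean]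
  intro i
  fin_cases i
  exacts [ha, hb, hc, hd]

end Pool.Agent.Lib.MP_94aef8_gt.Kr
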