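import Pool.Agent.Lib.MP_94aef8_gt.K.ADefs

/-!
Maximum principles on the half line.
-/

open Real Set Filter Polynomial
open scoped Topology

namespace Pool.Agent.Lib.MP_94aef8_gt.Kr

theorem Z_mono {f f' : ℝ → ℝ} {D : Set ℝ} (hD : Convex ℝ D) (hf : ∀ x ∈ D, HasDerivAt f (f' x) x)
    (h0 : ∀ x ∈ D, 0 ≤ f' x) : MonotoneOn f D :=
  monotoneOn_of_deriv_nonneg hD (fun x hx => (hf x hx).continuousAt.continuousWithinAt)
    (fun x hx => (hf x (interior_subset hx)).differentiableAt.differentiableWithinAt) fun x hx => by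
      rw [(hf x (interior_subset hx)).deriv]
      exact h0 x (interior_subset hx)

theorem Z_le {w w1 : ℝ → ℝ} {ξ R : ℝ} (hw : ∀ x, ξ ≤ x → HasDerivAt w (w1 x) x)
    (h0 : ∀ x, ξ ≤ x → 0 ≤ w1 x) (hi : Tendsto w atTop (𝓝 0)) (hR : ξ ≤ R) : w R ≤ 0 :=
  ge_of_tendsto hi ((eventually_ge_atTop R).mono fun _ hx =>
    Z_mono (convex_Ici ξ) hw h0 hR (hR.trans hx) hx)

theorem Z_sq {a c y y1 : ℝ → ℝ} {R : ℝ} (hy : HasDerivAt y (y1 R) R)
    (hF : HasDerivAt (fun x => a x * y1 x) (c R * y R) R) :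
    HasDerivAt (fun x => y x ^ 2) (2 * y R * y1 R) R ∧
      HasDerivAt (fun x => a x * (2 * y x * y1 x)) (2 * (a R * y1 R ^ 2 + c R * y R ^ 2)) R := by
  refine ⟨(hy.fun_pow 2).congr_deriv (by simp), ?_⟩
  have h : (fun x => a x * (2 * y x * y1 x)) = fun x => 2 * (y x * (a x * y1 x)) := by
    funext x
    ring
  rw [h]
  exact ((hy.fun_mul hF).const_mul 2).congr_deriv (by ring)

theorem Z_sq_lim {y : ℝ → ℝ} {l : Filter ℝ} (h : Tendsto y l (𝓝 0)) :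
    Tendsto (fun x => y x ^ 2) l (𝓝 0) := by
  simpa using h.pow 2

/-- Put `Φ = a w1`, monotone on `(1, ∞)` (`monotoneOn_of_deriv_nonneg`). Step 1: `0 ≤ Φ`. Otherwise
`Φ R0 = -c < 0`, and by monotonicity we may take `R0 ≤ 2`; on `(1, R0]` we get
`w1 ≤ -c / a ≤ -c / (C (R - 1))` (`C > 0` because `0 < a`), so `w + (c / C) log (R - 1)` is antitone
on `(1, R0]`; at `R = 1 + exp (-N)` this gives `C - (c / C) N ≥ const`, false for large `N`.
Step 2: `0 ≤ w1`, so `w` is monotone on `(1, ∞)` and tends to `0`, hence `w ≤ 0`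
(`ge_of_tendsto`). -/
theorem zlog {a w w1 F : ℝ → ℝ} {C : ℝ} (hw : ∀ R, 1 < R → HasDerivAt w (w1 R) R)
    (hF : ∀ R, 1 < R → HasDerivAt (fun x => a x * w1 x) (F R) R) (F0 : ∀ R, 1 < R → 0 ≤ F R)
    (w0 : ∀ R, 1 < R → 0 ≤ w R) (a0 : ∀ R, 1 < R → 0 < a R)
    (ha : ∀ R, 1 < R → R ≤ 2 → a R ≤ C * (R - 1)) (hb : ∀ R, 1 < R → R ≤ 2 → w R ≤ C)
    (hi : Tendsto w atTop (𝓝 0)) : ∀ R, 1 < R → w R = 0 := by
  have hΦ := Z_mono (convex_Ioi 1) hF F0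
  have hC : 0 < C := by linarith [a0 2 one_lt_two, ha 2 one_lt_two le_rfl]
  have h1 : ∀ R, 1 < R → 0 ≤ a R * w1 R := fun R₀ hR₀ => by
    by_contra hneg
    obtain ⟨c, hc⟩ : ∃ c, c = -(a R₀ * w1 R₀) := ⟨_, rfl⟩
    have hc0 : 0 < c := by linarith
    obtain ⟨R₁, l1, l2, l3⟩ : ∃ R₁, 1 < R₁ ∧ R₁ ≤ R₀ ∧ R₁ ≤ 2 :=
      ⟨min R₀ 2, lt_min hR₀ one_lt_two, min_le_left _ _, min_le_right _ _⟩
    have hg : MonotoneOn (fun x => -(w x + c / C * log (x - 1))) (Ioc 1 R₁) := by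
      refine Z_mono (f' := fun x => -(w1 x + c / C * (1 / (x - 1)))) (convex_Ioc 1 R₁)
        (fun x hx => ((hw x hx.1).fun_add ((((hasDerivAt_id' x).sub_const 1).log
          (sub_pos.2 hx.1).ne').const_mul _)).fun_neg) fun x hx => ?_
      have h2 : a x * w1 x ≤ a R₀ * w1 R₀ := hΦ hx.1 hR₀ (hx.2.trans l2)
      have h3 : w1 x ≤ 0 := by
        by_contra h4
        linarith [mul_pos (a0 x hx.1) (not_le.1 h4)]
      have h4 := mul_le_mul_of_nonpos_right (ha x hx.1 (hx.2.trans l3)) h3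
      have h5 := mul_pos hC (sub_pos.2 hx.1)
      rw [neg_nonneg, div_mul_div_comm, mul_one, add_comm, ← le_neg_iff_add_nonpos_right,
        div_le_iff₀ h5]
      linarith
    have hM : 0 < C ^ 2 / c + 1 := by positivity
    have h2 : exp (log (R₁ - 1) - (C ^ 2 / c + 1)) ≤ R₁ - 1 :=
      (exp_le_exp.2 (by linarith)).trans_eq (exp_log (sub_pos.2 l1))
    have h3 := exp_pos (log (R₁ - 1) - (C ^ 2 / c + 1))
    have h4 := hg (a := 1 + exp (log (R₁ - 1) - (C ^ 2 / c + 1))) ⟨by linarith, by linarith⟩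
      ⟨l1, le_rfl⟩ (by linarith)
    have h5 := hb (1 + exp (log (R₁ - 1) - (C ^ 2 / c + 1))) (by linarith) (by linarith)
    have h6 : c / C * (C ^ 2 / c + 1) = C + c / C := by field_simp
    simp only [add_sub_cancel_left, log_exp, mul_sub, h6] at h4
    linarith [w0 R₁ l1, div_pos hc0 hC]
  intro R hR
  exact le_antisymm (Z_le (fun x hx => hw x (hR.trans_le hx)) (fun x hx =>
    nonneg_of_mul_nonneg_right (h1 x (hR.trans_le hx)) (a0 x (hR.trans_le hx))) hi le_rfl)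
    (w0 R hR)

/-- If `0 < w R0`, pick `R1 ∈ (1, R0)` with `w R1 < w R0`; the mean value theorem
(`exists_hasDerivAt_eq_slope`) gives `ξ ∈ (R1, R0)` with `0 < w1 ξ`; `Φ = a w1` is monotone, so
`0 < w1` on `[ξ, ∞)`, `w` is monotone there and `w R0 ≤ w R` for `R0 ≤ R`; this contradicts `hi`. -/
theorem zboth {a w w1 F : ℝ → ℝ} (hw : ∀ R, 1 < R → HasDerivAt w (w1 R) R)
    (hF : ∀ R, 1 < R → HasDerivAt (fun x => a x * w1 x) (F R) R) (F0 : ∀ R, 1 < R → 0 ≤ F R)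
    (w0 : ∀ R, 1 < R → 0 ≤ w R) (a0 : ∀ R, 1 < R → 0 < a R)
    (h1 : Tendsto w (𝓝[>] 1) (𝓝 0)) (hi : Tendsto w atTop (𝓝 0)) : ∀ R, 1 < R → w R = 0 := by
  have hΦ := Z_mono (convex_Ioi 1) hF F0
  intro R₀ hR₀
  refine le_antisymm (not_lt.1 fun hpos => ?_) (w0 R₀ hR₀)
  obtain ⟨R₁, l1, l2, l3⟩ :=
    ((h1.eventually (gt_mem_nhds hpos)).and (Ioo_mem_nhdsGT hR₀)).exists
  obtain ⟨ξ, hξ, e⟩ := exists_hasDerivAt_eq_slope w w1 l3
    (fun x hx => (hw x (l2.trans_le hx.1)).continuousAt.continuousWithinAt)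
    fun x hx => hw x (l2.trans hx.1)
  have h2 : 1 < ξ := l2.trans hξ.1
  have h3 : 0 < a ξ * w1 ξ := mul_pos (a0 ξ h2) (e ▸ div_pos (sub_pos.2 l1) (sub_pos.2 l3))
  exact hpos.not_ge (Z_le (fun x hx => hw x (h2.trans_le hx)) (fun x hx =>
    nonneg_of_mul_nonneg_right (h3.le.trans (hΦ h2 (h2.trans_le hx) hx)) (a0 x (h2.trans_le hx)))
    hi hξ.2.le)

/-- `zlog` for `w = y ^ 2`, `w1 = 2 y y1`, `a w1 = 2 y (a y1)`, `F = 2 a y1 ^ 2 + 2 c y ^ 2`, constant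
`max C (C ^ 2)`. -/
theorem zlog2 {a c y y1 : ℝ → ℝ} {C : ℝ} (hy : ∀ R, 1 < R → HasDerivAt y (y1 R) R)
    (hF : ∀ R, 1 < R → HasDerivAt (fun x => a x * y1 x) (c R * y R) R) (c0 : ∀ R, 1 < R → 0 ≤ c R)
    (a0 : ∀ R, 1 < R → 0 < a R) (ha : ∀ R, 1 < R → R ≤ 2 → a R ≤ C * (R - 1))
    (hb : ∀ R, 1 < R → R ≤ 2 → |y R| ≤ C) (hi : Tendsto y atTop (𝓝 0)) : ∀ R, 1 < R → y R = 0 := by
  intro R hR
  refine pow_eq_zero_iff two_ne_zero |>.1 (zlog (C := max C (C ^ 2))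
    (fun R hR => (Z_sq (hy R hR) (hF R hR)).1) (fun R hR => (Z_sq (hy R hR) (hF R hR)).2)
    (fun R hR => ?_) (fun R _ => sq_nonneg _) a0 (fun R h1 h2 => ?_) (fun R h1 h2 => ?_)
    (Z_sq_lim hi) R hR)
  · have := a0 R hR
    have := c0 R hR
    positivity
  · exact (ha R h1 h2).trans (mul_le_mul_of_nonneg_right (le_max_left _ _) (sub_pos.2 h1).le)
  · rw [← sq_abs]
    exact (pow_le_pow_left₀ (abs_nonneg _) (hb R h1 h2) 2).trans (le_max_right _ _)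

/-- `zboth` for `w = y ^ 2`. -/
theorem zboth2 {a c y y1 : ℝ → ℝ} (hy : ∀ R, 1 < R → HasDerivAt y (y1 R) R)
    (hF : ∀ R, 1 < R → HasDerivAt (fun x => a x * y1 x) (c R * y R) R) (c0 : ∀ R, 1 < R → 0 ≤ c R)
    (a0 : ∀ R, 1 < R → 0 < a R) (h1 : Tendsto y (𝓝[>] 1) (𝓝 0)) (hi : Tendsto y atTop (𝓝 0)) :
    ∀ R, 1 < R → y R = 0 := by
  intro R hR
  refine pow_eq_zero_iff two_ne_zero |>.1 (zboth
    (fun R hR => (Z_sq (hy R hR) (hF R hR)).1) (fun R hR => (Z_sq (hy R hR) (hF R hR)).2)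
    (fun R hR => ?_) (fun R _ => sq_nonneg _) a0 (Z_sq_lim h1) (Z_sq_lim hi) R hR)
  have := a0 R hR
  have := c0 R hR
  positivity

/-- The derivative of a function vanishing on `(1, ∞)` vanishes: `y =ᶠ 0` near `R`,
`HasDerivAt.unique`. -/
theorem der_zero {y : ℝ → ℝ} {d R : ℝ} (h0 : ∀ x, 1 < x → y x = 0) (hR : 1 < R)
    (hd : HasDerivAt y d R) : d = 0 := by
  refine hd.unique ((hasDerivAt_const R (0 : ℝ)).congr_of_eventuallyEq ?_)
  filter_upwards [Ioi_mem_nhds hR] with x hx using h0 x hx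

/-- Squeeze: `|y R| ≤ C / √R`. -/
theorem lim_sqrt {y : ℝ → ℝ} {C : ℝ} (h : ∀ R, 1 < R → √R * |y R| ≤ C) :
    Tendsto y atTop (𝓝 0) := by
  refine squeeze_zero_norm' ?_ (tendsto_sqrt_atTop.const_div_atTop C)
  filter_upwards [eventually_gt_atTop 1] with R hR
  rw [le_div_iff₀' (sqrt_pos.2 (by linarith))]
  exact h R hR

/-- `1 ≤ √R`. -/
theorem abs_le_of_sqrt {R y C : ℝ} (hR : 1 < R) (h : √R * |y| ≤ C) : |y| ≤ C := by
  exact (le_mul_of_one_le_left (abs_nonneg y) (one_le_sqrt.2 hR.le)).trans h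

/-- Squeeze: `|y R| ≤ C / R` for large `R`. -/
theorem lim_inv {y : ℝ → ℝ} {C : ℝ} (h : ∀ R, 2 ≤ R → R * |y R| ≤ C) :
    Tendsto y atTop (𝓝 0) := by
  refine squeeze_zero_norm' ?_ (tendsto_id.const_div_atTop C)
  filter_upwards [eventually_ge_atTop 2] with R hR
  rw [id, le_div_iff₀' (by linarith)]
  exact h R hR

/-- Squeeze at `1`: `sg` is continuous and `sg 1 = 0`. -/
theorem lim_sg {y : ℝ → ℝ} {C : ℝ} (h : ∀ R, 1 < R → R ≤ 2 → |y R| ≤ C * sg R) :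
    Tendsto y (𝓝[>] 1) (𝓝 0) := by
  have h1 : Continuous fun R => C * sg R := by
    unfold sg
    fun_prop
  refine squeeze_zero_norm' (a := fun R => C * sg R) ?_
    ((h1.tendsto' 1 0 (by simp [sg])).mono_left nhdsWithin_le_nhds)
  filter_upwards [Ioc_mem_nhdsGT one_lt_two] with R hR using h R hR.1 hR.2

theorem sg_pos {R : ℝ} (hR : 1 < R) : 0 < sg R := by
  exact sqrt_pos.2 (mul_pos (by linarith) (by linarith))

theorem sg_sq {R : ℝ} (hR : 1 < R) : sg R ^ 2 = R * (R - 1) := by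
  exact sq_sqrt (mul_nonneg (by linarith) (by linarith))

theorem sg_le {R : ℝ} (hR : 1 < R) : sg R ≤ R := by
  exact sqrt_le_iff.2 ⟨by linarith, by nlinarith⟩

theorem le_sg {R : ℝ} (hR : 1 < R) : R - 1 ≤ sg R := by
  exact le_sqrt_of_sq_le (by nlinarith)

end Pool.Agent.Lib.MP_94aef8_gt.Kr
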