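import Pool.Agent.Lib.MP_94aef8_gt.K.PolN
import Pool.Agent.Lib.MP_94aef8_gt.K.Z

/-!
The bounds in polar coordinates.
-/

open scoped ContDiff Topology
open Matrix Filter Set Real

namespace Pool.Agent.Lib.MP_94aef8_gt.Kr

variable {x : E4} {a b p q v u : Fn}

/-- For a diagonal metric the norm is a weighted sum of squares. -/
theorem ipM_Gp (hx : x ∈ U2) (A : Mat) :
    ipM (Gp x) A A = ∑ i, ∑ j, Hp x i i * Hp x j j * A i j ^ 2 := by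
  rw [ipM, inv_Gp hx, Hp, Matrix.trace]
  refine Finset.sum_congr rfl fun i _ => ?_
  rw [diag_apply, Matrix.mul_apply]
  refine Finset.sum_congr rfl fun j _ => ?_
  rw [mul_diagonal, diagonal_mul, transpose_apply, diagonal_apply_eq, diagonal_apply_eq]
  ring

theorem Hp_pos (hx : x ∈ U2) (i : Fin 4) : 0 < Hp x i i := by
  have h1 : 0 < x 0 - 1 := sub_pos.2 hx.1
  have h0 : 0 < x 0 := one_pos.trans hx.1
  have hs := U2.sin_pos hx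
  rw [Hp, diagonal_apply_eq]
  fin_cases i
  · exact div_pos h1 h0
  · exact div_pos one_pos (pow_pos h0 2)
  · exact div_pos one_pos (mul_pos (pow_pos h0 2) (pow_pos hs 2))
  · exact div_pos h0 h1

theorem PolB_nn (hx : x ∈ U2) (A : Mat) (i j : Fin 4) : 0 ≤ Hp x i i * Hp x j j * A i j ^ 2 :=
  mul_nonneg (mul_pos (Hp_pos hx i) (Hp_pos hx j)).le (sq_nonneg _)

theorem PolB_le (hx : x ∈ U2) (A : Mat) (i j : Fin 4) :
    Hp x i i * Hp x j j * A i j ^ 2 ≤ ipM (Gp x) A A := by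
  rw [ipM_Gp hx]
  exact (Finset.single_le_sum (fun j _ => PolB_nn hx A i j) (Finset.mem_univ j)).trans
    (Finset.single_le_sum (f := fun i => ∑ j, Hp x i i * Hp x j j * A i j ^ 2)
      (fun i _ => Finset.sum_nonneg fun j _ => PolB_nn hx A i j) (Finset.mem_univ i))

/-- One term of the sum (`Finset.single_le_sum`). -/
theorem le_ipT (hx : x ∈ U2) (k : Tn) (i j : Fin 4) :
    Hp x i i * Hp x j j * k x i j ^ 2 ≤ ipT Gp k k x := by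
  exact PolB_le hx (k x) i j

/-- `ipD_eq`, `inv_Gp`, `ipM_Gp`. -/
theorem le_ipD (hx : x ∈ U2) (k : Tn) (e i j : Fin 4) :
    Hp x e e * (Hp x i i * Hp x j j * nab Gp e k x i j ^ 2) ≤ ipD Gp k k x := by
  have h : ∀ c, ∑ d, Hp x c d * ipM (Gp x) (nab Gp c k x) (nab Gp d k x) =
      Hp x c c * ipM (Gp x) (nab Gp c k x) (nab Gp c k x) := fun c =>
    Finset.sum_eq_single c (fun d _ hd => by rw [Hp, diagonal_apply_ne _ hd.symm, zero_mul])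
      fun hc => absurd (Finset.mem_univ c) hc
  rw [ipD_eq, inv_Gp hx, Finset.sum_congr rfl fun c _ => h c]
  refine (mul_le_mul_of_nonneg_left (PolB_le hx _ i j) (Hp_pos hx e).le).trans ?_
  exact Finset.single_le_sum (f := fun c => Hp x c c * ipM (Gp x) (nab Gp c k x) (nab Gp c k x))
    (fun c _ => mul_nonneg (Hp_pos hx c).le ((PolB_nn hx _ 0 0).trans (PolB_le hx _ 0 0)))
    (Finset.mem_univ e)

theorem PolB_abs {y w C : ℝ} (hw : 0 ≤ w) (h : y ^ 2 ≤ 9 * C * w ^ 2) : |y| ≤ 3 * √C * w := by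
  refine abs_le_of_sq_le_sq (h.trans ?_) (by positivity)
  rw [mul_pow, mul_pow, show (3 : ℝ) ^ 2 = 9 by norm_num, sq_sqrt']
  exact mul_le_mul_of_nonneg_right (by linarith [le_max_left C 0]) (sq_nonneg w)

theorem PolB_sqrt {R y C : ℝ} (hR : 1 < R) (h : R * y ^ 2 ≤ 9 * C) : √R * |y| ≤ 3 * √C := by
  have h1 := PolB_abs (y := √R * y) (C := C) zero_le_one
    (by rw [mul_pow, sq_sqrt (by linarith)]; linarith)
  rwa [abs_mul, abs_of_nonneg (sqrt_nonneg R), mul_one] at h1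

theorem PolB_sg {R y C : ℝ} (hR : 1 < R) (h : R * (R - 1) * y ^ 2 ≤ 9 * C) :
    sg R * |y| ≤ 3 * √C := by
  have h1 := PolB_abs (y := sg R * y) (C := C) zero_le_one (by rw [mul_pow, sg_sq hR]; linarith)
  rwa [abs_mul, abs_of_pos (sg_pos hR), mul_one] at h1

theorem PolB_v {R v n0 n1 C : ℝ} (hR : 1 < R) (c0 : R * n0 ≤ C) (c1 : R ^ 3 * n1 ≤ C) (hC : 0 ≤ C)
    (h0 : (R - 1) * v ^ 2 ≤ R ^ 2 * (R * n0)) (h1 : v ^ 2 ≤ 4 * R ^ 3 * (R ^ 3 * n1)) :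
    v ^ 2 ≤ 9 * C * R ^ 2 := by
  have h2 : 0 ≤ C * R ^ 2 := by positivity
  rcases le_total R 2 with h | h
  · have h3 := mul_le_mul_of_nonneg_left c1 (show 0 ≤ 4 * R ^ 3 by positivity)
    nlinarith
  · have h3 := mul_le_mul_of_nonneg_left c0 (sq_nonneg R)
    nlinarith [sq_nonneg v]

theorem PolB_u {R u n0 n1 C : ℝ} (hR : 1 < R) (c0 : R * n0 ≤ C) (c1 : R ^ 3 * n1 ≤ C) (hC : 0 ≤ C)
    (h0 : u ^ 2 ≤ (R - 1) * (R * n0)) (h1 : u ^ 2 ≤ 4 * R * (R - 1) ^ 2 * (R ^ 3 * n1)) :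
    u ^ 2 ≤ 9 * C * (R - 1) ^ 2 := by
  have h2 : 0 ≤ C * (R - 1) ^ 2 := by positivity
  rcases le_total R 2 with h | h
  · have h3 := mul_le_mul_of_nonneg_left c1 (show 0 ≤ 4 * R * (R - 1) ^ 2 by positivity)
    nlinarith
  · have h3 := mul_le_mul_of_nonneg_left c0 (sub_pos.2 hR).le
    have h4 : 0 ≤ C * (R - 1) := mul_nonneg hC (sub_pos.2 hR).le
    nlinarith

theorem PolB_key (h : Ax6 a b p q v u) (hx : x ∈ U2) {C : ℝ}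
    (hb : x 0 * (ipT Gp (tk a b p q v u) (tk a b p q v u) x +
      x 0 ^ 2 * ipD Gp (tk a b p q v u) (tk a b p q v u) x) ≤ C) :
    (x 0 * a x ^ 2 ≤ 9 * C ∧ x 0 * b x ^ 2 ≤ 9 * C ∧ x 0 * p x ^ 2 ≤ 9 * C ∧ x 0 * q x ^ 2 ≤ 9 * C) ∧
    (v x ^ 2 ≤ 9 * C * x 0 ^ 2 ∧ u x ^ 2 ≤ 9 * C * (x 0 - 1) ^ 2) ∧
    (x 0 * (x 0 - 1) * pd 0 b x ^ 2 ≤ 9 * C ∧ x 0 * (x 0 - 1) * pd 0 p x ^ 2 ≤ 9 * C ∧
      x 0 * (x 0 - 1) * pd 0 q x ^ 2 ≤ 9 * C) ∧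
    (b x - a x) ^ 2 ≤ 9 * C * (x 0 * (x 0 - 1)) ∧
    ((x 0 - 1) / x 0 * pd 0 v x + (3 - 2 * x 0) / (2 * x 0 ^ 2) * v x) ^ 2 ≤ 9 * C * 1 ^ 2 := by
  have hR : 1 < x 0 := hx.1
  have h1 : 0 < x 0 - 1 := sub_pos.2 hR
  have h0 : 0 < x 0 := one_pos.trans hR
  have hs := U2.sin_pos hx
  have hs1 : sin (x 1) ^ 2 ≤ 1 := sin_sq_le_one _
  have T := le_ipT hx (tk a b p q v u)
  have D0 := le_ipD hx (tk a b p q v u) 0
  have D3 := le_ipD hx (tk a b p q v u) 3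
  rw [nab_tk0 h hx] at D0
  rw [nab_tk3 h hx] at D3
  generalize ipT Gp (tk a b p q v u) (tk a b p q v u) x = n0 at hb T
  generalize ipD Gp (tk a b p q v u) (tk a b p q v u) x = n1 at hb D0 D3
  have ta : a x ^ 2 ≤ n0 := le_of_eq_of_le (by simp [Hp, tk]; field_simp) (T 3 3)
  have tb : b x ^ 2 ≤ n0 := le_of_eq_of_le (by simp [Hp, tk]; field_simp) (T 0 0)
  have tp : p x ^ 2 ≤ n0 := le_of_eq_of_le (by simp [Hp, tk]; field_simp) (T 1 1)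
  have tq : q x ^ 2 ≤ n0 := le_of_eq_of_le (by simp [Hp, tk]; field_simp) (T 2 2)
  have tv : (x 0 - 1) * v x ^ 2 / x 0 ^ 3 ≤ n0 :=
    le_of_eq_of_le (by simp [Hp, tk]; field_simp) (T 0 1)
  have tu : u x ^ 2 / ((x 0 - 1) * x 0 * sin (x 1) ^ 2) ≤ n0 :=
    le_of_eq_of_le (by simp [Hp, tk]; field_simp) (T 2 3)
  have db : x 0 * (x 0 - 1) * pd 0 b x ^ 2 / x 0 ^ 2 ≤ n1 :=
    le_of_eq_of_le (by simp [Hp]; field_simp) (D0 0 0)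
  have dp : x 0 * (x 0 - 1) * pd 0 p x ^ 2 / x 0 ^ 2 ≤ n1 :=
    le_of_eq_of_le (by simp [Hp]; field_simp) (D0 1 1)
  have dq : x 0 * (x 0 - 1) * pd 0 q x ^ 2 / x 0 ^ 2 ≤ n1 :=
    le_of_eq_of_le (by simp [Hp]; field_simp) (D0 2 2)
  have dv : ((x 0 - 1) / x 0 * pd 0 v x + (3 - 2 * x 0) / (2 * x 0 ^ 2) * v x) ^ 2 / x 0 ^ 2 ≤ n1 :=
    le_of_eq_of_le (by simp [Hp]; field_simp) (D0 0 1)
  have da : (b x - a x) ^ 2 / (4 * (x 0 - 1) * x 0 ^ 3) ≤ n1 :=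
    le_of_eq_of_le (by simp [Hp]; field_simp; ring) (D3 0 3)
  have ev : v x ^ 2 / (4 * x 0 ^ 3 * x 0 ^ 3) ≤ n1 :=
    le_of_eq_of_le (by simp [Hp]; field_simp; ring) (D3 1 3)
  have eu : u x ^ 2 / (4 * x 0 * (x 0 - 1) ^ 2 * x 0 ^ 3 * sin (x 1) ^ 2) ≤ n1 :=
    le_of_eq_of_le (by simp [Hp]; field_simp; ring) (D3 0 2)
  have p0 : 0 ≤ n0 := (sq_nonneg _).trans ta
  have p1 : 0 ≤ n1 := le_trans (by positivity) ev
  have q0 : 0 ≤ x 0 * n0 := by positivity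
  have q1 : 0 ≤ x 0 ^ 3 * n1 := by positivity
  have c0 : x 0 * n0 ≤ C := by linarith
  have c1 : x 0 ^ 3 * n1 ≤ C := by linarith
  have hC : 0 ≤ C := q0.trans c0
  have c2 : n1 * x 0 ^ 2 ≤ C := by
    linarith [mul_nonneg (mul_nonneg p1 (sq_nonneg (x 0))) h1.le]
  rw [div_le_iff₀ (by positivity)] at tv tu db dp dq dv da ev eu
  have m := fun {y : ℝ} (hy : y ≤ n0) => mul_le_mul_of_nonneg_left hy h0.le
  refine ⟨⟨by linarith [m ta], by linarith [m tb], by linarith [m tp], by linarith [m tq]⟩,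
    ⟨PolB_v hR c0 c1 hC (by linarith) (by linarith), PolB_u hR c0 c1 hC ?_ ?_⟩,
    ⟨by linarith, by linarith, by linarith⟩, ?_, by linarith⟩
  · linarith [mul_le_of_le_one_right (mul_nonneg h1.le q0) hs1]
  · linarith [mul_le_of_le_one_right
      (show 0 ≤ 4 * x 0 * (x 0 - 1) ^ 2 * (x 0 ^ 3 * n1) by positivity) hs1]
  · have h2 := mul_le_mul_of_nonneg_left c1 h1.le
    have h3 := mul_nonneg hC h1.le
    nlinarith

/-- Put `n0 = ipT`, `n1 = ipD` (both `≥ 0`), so `R n0 ≤ C`, `n0 ≤ C`, `R ^ 2 n1 ≤ C`; `f = (R - 1) / R`,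
`s = sin θ ≤ 1`. The new constant is `2 √C`. `le_ipT`: `a^2, b^2, p^2, q^2 ≤ n0` (diagonal entries),
`f v^2 / R^2 ≤ n0` (entry `(0,1)`), `u^2 / (R^2 s^2 f) ≤ n0` (entry `(2,3)`). `le_ipD` with `nab_tk0`:
`f (pd 0 b)^2 ≤ n1` (so `R (R - 1) (pd 0 b)^2 ≤ C`, `sg_sq`), the same for `p`, `q`; `e = 0`, entry
`(0,1)`: `(f pd 0 v + (3 - 2 R) / (2 R^2) v)^2 / R^2 ≤ n1`. With `nab_tk3`: entry `(0,3)`:
`(b - a)^2 / (4 R^4 f) ≤ n1`, so `(b - a)^2 ≤ 4 C R (R - 1)`; entry `(1,3)`: `v^2 / (4 R^6) ≤ n1`;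
entry `(0,2)`: `u^2 / (4 R^4 (R - 1)^2 s^2) ≤ n1`. To keep the constant use the stronger forms
`R^3 n1 ≤ C`, `R n0 ≤ C`. For `|v| ≤ C' R`: if `R ≤ 2` use `v^2 ≤ 4 R^3 C ≤ 8 C R^2`, otherwise
`v^2 ≤ 2 R^2 n0`; for `|u| ≤ C' (R - 1)`: `u^2 ≤ 4 R (R - 1)^2 C` if `R ≤ 2`, otherwise
`u^2 ≤ R (R - 1) n0 ≤ C (R - 1) ≤ C (R - 1)^2`. So `C' = 3 √C` works for all. -/
theorem bds_tk (h : Ax6 a b p q v u) {C : ℝ} (hb : ∀ x ∈ U2,
    x 0 * (ipT Gp (tk a b p q v u) (tk a b p q v u) x +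
      x 0 ^ 2 * ipD Gp (tk a b p q v u) (tk a b p q v u) x) ≤ C) :
    Bds (3 * √C) (sl a) (sl b) (sl p) (sl q) (sl v) (sl u) := by
  have m : ∀ {R θ : ℝ}, 1 < R → 0 < θ → θ < π → mk4 R θ 0 0 ∈ U2 := fun h1 h2 h3 => ⟨h1, h2, h3⟩
  have k := fun {R θ : ℝ} (h1 : 1 < R) (h2 : 0 < θ) (h3 : θ < π) =>
    PolB_key h (m h1 h2 h3) (hb _ (m h1 h2 h3))
  exact ⟨fun R θ h1 h2 h3 => PolB_sqrt h1 (k h1 h2 h3).1.1,
    fun R θ h1 h2 h3 => PolB_sqrt h1 (k h1 h2 h3).1.2.1,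
    fun R θ h1 h2 h3 => PolB_sqrt h1 (k h1 h2 h3).1.2.2.1,
    fun R θ h1 h2 h3 => PolB_sqrt h1 (k h1 h2 h3).1.2.2.2,
    fun R θ h1 h2 h3 => PolB_abs (by linarith) (k h1 h2 h3).2.1.1,
    fun R θ h1 h2 h3 => PolB_abs (by linarith) (k h1 h2 h3).2.1.2,
    fun R θ h1 h2 h3 => PolB_sg h1 (k h1 h2 h3).2.2.1.1,
    fun R θ h1 h2 h3 => PolB_sg h1 (k h1 h2 h3).2.2.1.2.1,
    fun R θ h1 h2 h3 => PolB_sg h1 (k h1 h2 h3).2.2.1.2.2,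
    fun R θ h1 h2 h3 => PolB_abs (sg_pos h1).le
      ((k h1 h2 h3).2.2.2.1.trans_eq (by rw [sg_sq h1, mk4_0])),
    fun R θ h1 h2 h3 => (PolB_abs zero_le_one (k h1 h2 h3).2.2.2.2).trans_eq (mul_one _)⟩

end Pool.Agent.Lib.MP_94aef8_gt.Kr
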