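import Pool.Agent.Lib.MP_94aef8_gt.K.PolN

/-!
The equations in polar coordinates.
-/

open scoped ContDiff Topology
open Matrix Filter Set Real

namespace Pool.Agent.Lib.MP_94aef8_gt.Kr

variable {a b p q v u : Fn}

section entries

variable {x : E4}

theorem PolE_v0 {α : Type} (a b c d : α) : ![a, b, c, d] 0 = a := rfl

theorem PolE_v1 {α : Type} (a b c d : α) : ![a, b, c, d] 1 = b := rfl

theorem PolE_v2 {α : Type} (a b c d : α) : ![a, b, c, d] 2 = c := rfl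

theorem PolE_v3 {α : Type} (a b c d : α) : ![a, b, c, d] 3 = d := rfl

theorem PolE_a (h : Ax6 a b p q v u) (hx : x ∈ U2) :
    -(x 0 ^ 2 - x 0) * pd 0 (pd 0 a) x - (2 * x 0 - 1) * pd 0 a x - pd 1 (pd 1 a) x -
      cos (x 1) / sin (x 1) * pd 1 a x + a x / (2 * x 0 * (x 0 - 1)) +
      (3 - 4 * x 0) / (2 * x 0 * (x 0 - 1)) * b x + (p x + q x) / x 0 =
    x 0 ^ 3 / (x 0 - 1) * lich Gp (tk a b p q v u) x 3 3 := by
  have h1 : x ∈ U1 := hx.1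
  have hs := (U2.sin_pos hx).ne'
  have hR : x 0 ≠ 0 := by linarith [hx.1]
  have hR1 : x 0 - 1 ≠ 0 := by linarith [hx.1]
  rw [lich_tk h hx]
  simp only [Fin.sum_univ_four, dmt_tk0 h h1, dmt_tk1 h h1, (dmt_tk2 h h1).1, (dmt_tk2 h h1).2,
    dmt_tk00 h h1, dmt_tk11 h h1, (dmt_tk22 h h1).1, (dmt_tk22 h h1).2, nab_tk0 h hx,
    nab_tk1 h hx, nab_tk2 h hx, nab_tk3 h hx, Matrix.sub_apply, Matrix.neg_apply,
    Matrix.add_apply, Matrix.smul_apply, rring_Gp hx, Matrix.mul_apply, Matrix.transpose_apply,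
    Hp, Gp, Wp, Wr, Wt, tk, kap, PolE_v0, PolE_v1, PolE_v2, PolE_v3, Matrix.of_apply,
    Matrix.diagonal_apply_eq, Matrix.zero_apply, smul_eq_mul, if_true, mul_zero, zero_mul,
    add_zero, zero_add, sub_zero]
  field_simp
  ring

theorem PolE_b (h : Ax6 a b p q v u) (hx : x ∈ U2) :
    -(x 0 ^ 2 - x 0) * pd 0 (pd 0 b) x - (2 * x 0 - 1) * pd 0 b x - pd 1 (pd 1 b) x -
      cos (x 1) / sin (x 1) * pd 1 b x + (3 - 4 * x 0) / (2 * x 0 * (x 0 - 1)) * a x +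
      (8 * x 0 ^ 2 - 16 * x 0 + 9) / (2 * x 0 * (x 0 - 1)) * b x +
      (3 - 2 * x 0) / x 0 * (p x + q x) +
      4 * (x 0 - 1) / x 0 ^ 2 * (pd 1 v x + cos (x 1) / sin (x 1) * v x) =
    x 0 * (x 0 - 1) * lich Gp (tk a b p q v u) x 0 0 := by
  have h1 : x ∈ U1 := hx.1
  have hs := (U2.sin_pos hx).ne'
  have hR : x 0 ≠ 0 := by linarith [hx.1]
  have hR1 : x 0 - 1 ≠ 0 := by linarith [hx.1]
  rw [lich_tk h hx]
  simp only [Fin.sum_univ_four, dmt_tk0 h h1, dmt_tk1 h h1, (dmt_tk2 h h1).1, (dmt_tk2 h h1).2,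
    dmt_tk00 h h1, dmt_tk11 h h1, (dmt_tk22 h h1).1, (dmt_tk22 h h1).2, nab_tk0 h hx,
    nab_tk1 h hx, nab_tk2 h hx, nab_tk3 h hx, Matrix.sub_apply, Matrix.neg_apply,
    Matrix.add_apply, Matrix.smul_apply, rring_Gp hx, Matrix.mul_apply, Matrix.transpose_apply,
    Hp, Gp, Wp, Wr, Wt, tk, kap, PolE_v0, PolE_v1, PolE_v2, PolE_v3, Matrix.of_apply,
    Matrix.diagonal_apply_eq, Matrix.zero_apply, smul_eq_mul, if_true, mul_zero, zero_mul,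
    add_zero, zero_add, sub_zero]
  field_simp
  ring

theorem PolE_p (h : Ax6 a b p q v u) (hx : x ∈ U2) :
    -(x 0 ^ 2 - x 0) * pd 0 (pd 0 p) x - (2 * x 0 - 1) * pd 0 p x - pd 1 (pd 1 p) x -
      cos (x 1) / sin (x 1) * pd 1 p x + a x / x 0 + (3 - 2 * x 0) / x 0 * b x +
      (2 / sin (x 1) ^ 2 - 2 / x 0) * p x + (2 - 2 / x 0 - 2 / sin (x 1) ^ 2) * q x -
      4 * (x 0 - 1) / x 0 ^ 2 * pd 1 v x =
    1 * lich Gp (tk a b p q v u) x 1 1 := by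
  have h1 : x ∈ U1 := hx.1
  have hs := (U2.sin_pos hx).ne'
  have hR : x 0 ≠ 0 := by linarith [hx.1]
  have hR1 : x 0 - 1 ≠ 0 := by linarith [hx.1]
  rw [lich_tk h hx]
  simp only [Fin.sum_univ_four, dmt_tk0 h h1, dmt_tk1 h h1, (dmt_tk2 h h1).1, (dmt_tk2 h h1).2,
    dmt_tk00 h h1, dmt_tk11 h h1, (dmt_tk22 h h1).1, (dmt_tk22 h h1).2, nab_tk0 h hx,
    nab_tk1 h hx, nab_tk2 h hx, nab_tk3 h hx, Matrix.sub_apply, Matrix.neg_apply,
    Matrix.add_apply, Matrix.smul_apply, rring_Gp hx, Matrix.mul_apply, Matrix.transpose_apply,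
    Hp, Gp, Wp, Wr, Wt, tk, kap, PolE_v0, PolE_v1, PolE_v2, PolE_v3, Matrix.of_apply,
    Matrix.diagonal_apply_eq, Matrix.zero_apply, smul_eq_mul, if_true, mul_zero, zero_mul,
    add_zero, zero_add, sub_zero]
  field_simp
  ring_nf
  simp only [cos_sq']
  ring

theorem PolE_q (h : Ax6 a b p q v u) (hx : x ∈ U2) :
    -(x 0 ^ 2 - x 0) * pd 0 (pd 0 q) x - (2 * x 0 - 1) * pd 0 q x - pd 1 (pd 1 q) x -
      cos (x 1) / sin (x 1) * pd 1 q x + a x / x 0 + (3 - 2 * x 0) / x 0 * b x +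
      (2 - 2 / x 0 - 2 / sin (x 1) ^ 2) * p x + (2 / sin (x 1) ^ 2 - 2 / x 0) * q x -
      4 * (x 0 - 1) / x 0 ^ 2 * (cos (x 1) / sin (x 1) * v x) =
    1 / sin (x 1) ^ 2 * lich Gp (tk a b p q v u) x 2 2 := by
  have h1 : x ∈ U1 := hx.1
  have hs := (U2.sin_pos hx).ne'
  have hR : x 0 ≠ 0 := by linarith [hx.1]
  have hR1 : x 0 - 1 ≠ 0 := by linarith [hx.1]
  rw [lich_tk h hx]
  simp only [Fin.sum_univ_four, dmt_tk0 h h1, dmt_tk1 h h1, (dmt_tk2 h h1).1, (dmt_tk2 h h1).2,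
    dmt_tk00 h h1, dmt_tk11 h h1, (dmt_tk22 h h1).1, (dmt_tk22 h h1).2, nab_tk0 h hx,
    nab_tk1 h hx, nab_tk2 h hx, nab_tk3 h hx, Matrix.sub_apply, Matrix.neg_apply,
    Matrix.add_apply, Matrix.smul_apply, rring_Gp hx, Matrix.mul_apply, Matrix.transpose_apply,
    Hp, Gp, Wp, Wr, Wt, tk, kap, PolE_v0, PolE_v1, PolE_v2, PolE_v3, Matrix.of_apply,
    Matrix.diagonal_apply_eq, Matrix.zero_apply, smul_eq_mul, if_true, mul_zero, zero_mul,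
    add_zero, zero_add, sub_zero]
  field_simp
  ring_nf
  simp only [cos_sq']
  ring

theorem PolE_v (h : Ax6 a b p q v u) (hx : x ∈ U2) :
    -(x 0 ^ 2 - x 0) * pd 0 (pd 0 v) x - 2 * pd 0 v x - pd 1 (pd 1 v) x -
      cos (x 1) / sin (x 1) * pd 1 v x + (4 - 4 / x 0 + 1 / sin (x 1) ^ 2) * v x -
      2 * x 0 * pd 1 b x + 2 * x 0 * pd 1 p x +
      2 * x 0 * (cos (x 1) / sin (x 1)) * (p x - q x) =
    x 0 ^ 2 * lich Gp (tk a b p q v u) x 0 1 := by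
  have h1 : x ∈ U1 := hx.1
  have hs := (U2.sin_pos hx).ne'
  have hR : x 0 ≠ 0 := by linarith [hx.1]
  have hR1 : x 0 - 1 ≠ 0 := by linarith [hx.1]
  rw [lich_tk h hx]
  simp only [Fin.sum_univ_four, dmt_tk0 h h1, dmt_tk1 h h1, (dmt_tk2 h h1).1, (dmt_tk2 h h1).2,
    dmt_tk00 h h1, dmt_tk11 h h1, (dmt_tk22 h h1).1, (dmt_tk22 h h1).2, nab_tk0 h hx,
    nab_tk1 h hx, nab_tk2 h hx, nab_tk3 h hx, Matrix.sub_apply, Matrix.neg_apply,
    Matrix.add_apply, Matrix.smul_apply, rring_Gp hx, Matrix.mul_apply, Matrix.transpose_apply,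
    Hp, Gp, Wp, Wr, Wt, tk, kap, PolE_v0, PolE_v1, PolE_v2, PolE_v3, Matrix.of_apply,
    Matrix.diagonal_apply_eq, Matrix.zero_apply, smul_eq_mul, if_neg (show ¬(0 : Fin 4) = 1 by decide), mul_zero, zero_mul,
    add_zero, zero_add, sub_zero]
  field_simp
  ring_nf
  simp only [cos_sq']
  ring

theorem PolE_u (h : Ax6 a b p q v u) (hx : x ∈ U2) :
    -(x 0 ^ 2 - x 0) * pd 0 (pd 0 u) x - pd 1 (pd 1 u) x +
      cos (x 1) / sin (x 1) * pd 1 u x - 2 / x 0 * u x =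
    x 0 ^ 2 * lich Gp (tk a b p q v u) x 2 3 := by
  have h1 : x ∈ U1 := hx.1
  have hs := (U2.sin_pos hx).ne'
  have hR : x 0 ≠ 0 := by linarith [hx.1]
  have hR1 : x 0 - 1 ≠ 0 := by linarith [hx.1]
  rw [lich_tk h hx]
  simp only [Fin.sum_univ_four, dmt_tk0 h h1, dmt_tk1 h h1, (dmt_tk2 h h1).1, (dmt_tk2 h h1).2,
    dmt_tk00 h h1, dmt_tk11 h h1, (dmt_tk22 h h1).1, (dmt_tk22 h h1).2, nab_tk0 h hx,
    nab_tk1 h hx, nab_tk2 h hx, nab_tk3 h hx, Matrix.sub_apply, Matrix.neg_apply,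
    Matrix.add_apply, Matrix.smul_apply, rring_Gp hx, Matrix.mul_apply, Matrix.transpose_apply,
    Hp, Gp, Wp, Wr, Wt, tk, kap, PolE_v0, PolE_v1, PolE_v2, PolE_v3, Matrix.of_apply,
    Matrix.diagonal_apply_eq, Matrix.zero_apply, smul_eq_mul, if_neg (show ¬(2 : Fin 4) = 3 by decide), mul_zero, zero_mul,
    add_zero, zero_add, sub_zero]
  field_simp
  ring_nf
  simp only [cos_sq']
  ring

end entries

/-- Take `x = mk4 R θ 0 0 ∈ U2` and the entries `(3,3)`, `(0,0)`, `(1,1)`, `(2,2)`, `(0,1)`, `(2,3)` of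
`lich_tk`; rewrite with `dmt_tk*`, `nab_tk*`, `rring_Gp`; `simp [Fin.sum_univ_four, Hp, Gp, Wp, Wr,
Wt, tk, kap, Matrix.mul_apply]`. The left sides of `ea, eb, ep, eq, ev, eu` are these entries
times `R ^ 3 / (R - 1)`, `R (R - 1)`, `1`, `1 / sin θ ^ 2`, `R ^ 2`, `R ^ 2` (use
`cos ^ 2 = 1 - sin ^ 2`). One lemma for each entry. -/
theorem eqs_tk (h : Ax6 a b p q v u) (he : ∀ x ∈ U2, lich Gp (tk a b p q v u) x = 0) :
    Eqs (sl a) (sl b) (sl p) (sl q) (sl v) (sl u) := by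
  have hx : ∀ {R θ : ℝ}, 1 < R → 0 < θ → θ < π → mk4 R θ 0 0 ∈ U2 := fun h1 h2 h3 => ⟨h1, h2, h3⟩
  refine ⟨fun R θ h1 h2 h3 => ?_, fun R θ h1 h2 h3 => ?_, fun R θ h1 h2 h3 => ?_,
    fun R θ h1 h2 h3 => ?_, fun R θ h1 h2 h3 => ?_, fun R θ h1 h2 h3 => ?_⟩
  · have e := PolE_a h (hx h1 h2 h3)
    rw [he _ (hx h1 h2 h3), Matrix.zero_apply, mul_zero] at e
    exact e
  · have e := PolE_b h (hx h1 h2 h3)
    rw [he _ (hx h1 h2 h3), Matrix.zero_apply, mul_zero] at e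
    exact e
  · have e := PolE_p h (hx h1 h2 h3)
    rw [he _ (hx h1 h2 h3), Matrix.zero_apply, mul_zero] at e
    exact e
  · have e := PolE_q h (hx h1 h2 h3)
    rw [he _ (hx h1 h2 h3), Matrix.zero_apply, mul_zero] at e
    exact e
  · have e := PolE_v h (hx h1 h2 h3)
    rw [he _ (hx h1 h2 h3), Matrix.zero_apply, mul_zero] at e
    exact e
  · have e := PolE_u h (hx h1 h2 h3)
    rw [he _ (hx h1 h2 h3), Matrix.zero_apply, mul_zero] at e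
    exact e

end Pool.Agent.Lib.MP_94aef8_gt.Kr
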