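import Pool.Agent.Lib.MP_94aef8_gt.K.PolG

/-!
Consequences of the symmetries.
-/

open scoped ContDiff Topology
open Matrix Filter Set Real

namespace Pool.Agent.Lib.MP_94aef8_gt.Kr

variable {h : Tn} {x : E4}

theorem PolS_two : (2 : WithTop ℕ∞) ≤ ∞ := WithTop.coe_le_coe.2 le_top

theorem PolS_mem (hx : x ∈ U1) : P0 x ∈ Ext := by
  show 1 < R3 (P0 x)
  rw [R3_P0 hx]
  exact hx

/-- `fl1 (P0 x) = P0 x`, so `i1` gives `h i j = 0` at `P0 x` for `i ∈ {0, 2}`, `j ∈ {1, 3}`; and `h` is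
symmetric. Expand `mm` (`Matrix.mul_apply`, `Fin.sum_univ_four`). -/
theorem Ker.mm_eq (k : Ker h) (hx : x ∈ U1) : mm h x =
    !![mm h x 0 0, mm h x 0 1, 0, 0; mm h x 0 1, mm h x 1 1, 0, 0;
      0, 0, mm h x 2 2, mm h x 2 3; 0, 0, mm h x 2 3, mm h x 3 3] := by
  have hm := PolS_mem hx
  have e : fl1 (P0 x) = P0 x := by simp [fl1, P0]
  have h1 := k.i1 _ hm
  rw [e] at h1
  have h2 := fun i j => congrFun (congrFun h1 i) j
  simp only [Matrix.mul_diagonal, Matrix.diagonal_mul] at h2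
  have hs := fun i j => congrFun (congrFun (k.sy _ hm) i) j
  simp only [Matrix.transpose_apply] at hs
  have z01 : h (P0 x) 0 1 = 0 := by have := h2 0 1; simp at this; linarith
  have z03 : h (P0 x) 0 3 = 0 := by have := h2 0 3; simp at this; linarith
  have z21 : h (P0 x) 2 1 = 0 := by have := h2 2 1; simp at this; linarith
  have z23 : h (P0 x) 2 3 = 0 := by have := h2 2 3; simp at this; linarith
  have z10 : h (P0 x) 1 0 = 0 := (hs 0 1).trans z01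
  have z30 : h (P0 x) 3 0 = 0 := (hs 0 3).trans z03
  have z12 : h (P0 x) 1 2 = 0 := (hs 2 1).trans z21
  have z32 : h (P0 x) 3 2 = 0 := (hs 2 3).trans z23
  have s20 := hs 0 2
  have s31 := hs 1 3
  ext i j
  fin_cases i <;> fin_cases j <;>
    simp [mm, Fr, Matrix.mul_apply, Fin.sum_univ_four, z01, z03, z21, z23, z10, z30, z12, z32, s20,
      s31]
  ring

/-- `Ps_eq`, `ir`, `it`: `(Rm φ)ᵀ * h (Ps x) * Rm φ = h (P0 x)`; `jac_Ps`. -/
theorem Ker.pull_mm (k : Ker h) (hx : x ∈ U1) : pull Ps h x = Dg x * mm h x * Dg x := by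
  have hm := PolS_mem hx
  have hm' : tsh (x 3) (P0 x) ∈ Ext := hm
  have h1 := k.ir (x 2) _ hm'
  rw [k.it _ _ hm, ← Ps_eq] at h1
  have h2 : (Dg x)ᵀ = Dg x := Matrix.diagonal_transpose _
  rw [pull, jac_Ps, mm, ← h1]
  simp only [Matrix.transpose_mul, h2, Matrix.mul_assoc]

theorem Ker.pull_eq (k : Ker h) (hx : x ∈ U1) :
    pull Ps h x = tk (ca h) (cb h) (cp h) (cq h) (cv h) (cu h) x := by
  have h0 : x 0 ≠ 0 := (zero_lt_one.trans hx).ne'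
  have h1 : x 0 - 1 ≠ 0 := (sub_pos.2 hx).ne'
  rw [k.pull_mm hx, k.mm_eq hx]
  ext i j
  simp only [Dg, Matrix.mul_diagonal, Matrix.diagonal_mul]
  fin_cases i <;> fin_cases j <;> simp [tk, ca, cb, cp, cq, cv, cu] <;> field_simp

/-- `h ∘ P0` is `C^2` on `U1` (`cd_P0`, `R3_P0`, `ContDiffOn.comp`), the entries of `Fr (x 1)` are
smooth. -/
theorem Ker.ax_mm (k : Ker h) (i j : Fin 4) : Ax fun x => mm h x i j := by
  refine ⟨?_, fun x y e0 e1 => by simp only [mm, P0, e0, e1]⟩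
  have hh : ∀ a b, ContDiffOn ℝ 2 (fun x => h (P0 x) a b) U1 := fun a b =>
    (k.sm a b).comp (cd_P0.of_le PolS_two).contDiffOn fun _ hx => PolS_mem hx
  have c1 : ContDiff ℝ 2 fun x : E4 => x 1 := (cd_coord 1).of_le PolS_two
  have hF : ∀ a b, ContDiffOn ℝ 2 (fun x : E4 => Fr (x 1) a b) U1 := by
    intro a b
    apply ContDiff.contDiffOn
    fin_cases a <;> fin_cases b <;> simp [Fr] <;> fun_prop
  simp only [mm, Matrix.mul_apply, Matrix.transpose_apply]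
  exact ContDiffOn.sum fun b _ => (ContDiffOn.sum fun a _ => (hF a i).mul (hh a b)).mul (hF b j)

theorem Ker.ax6 (k : Ker h) : Ax6 (ca h) (cb h) (cp h) (cq h) (cv h) (cu h) := by
  have c0 : ContDiffOn ℝ 2 (fun x : E4 => x 0) U1 :=
    ((cd_coord 0).of_le PolS_two).contDiffOn
  have c1 : ContDiffOn ℝ 2 (fun x : E4 => x 1) U1 :=
    ((cd_coord 1).of_le PolS_two).contDiffOn
  have m := k.ax_mm
  refine ⟨⟨?_, fun x y e0 e1 => ?_⟩, ⟨?_, fun x y e0 e1 => ?_⟩, m 1 1, m 2 2,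
    ⟨c0.mul (m 0 1).sm, fun x y e0 e1 => ?_⟩, ⟨(c0.mul c1.sin).mul (m 2 3).sm, fun x y e0 e1 => ?_⟩⟩
  · exact (c0.div (c0.sub contDiffOn_const) fun _ hx => (sub_pos.2 hx).ne').mul (m 3 3).sm
  · simp only [ca, e0, (m 3 3).dep x y e0 e1]
  · exact ((c0.sub contDiffOn_const).div c0 fun _ hx => (zero_lt_one.trans hx).ne').mul (m 0 0).sm
  · simp only [cb, e0, (m 0 0).dep x y e0 e1]
  · simp only [cv, e0, (m 0 1).dep x y e0 e1]
  · simp only [cu, e0, e1, (m 2 3).dep x y e0 e1]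

/-- `P0 (mk4 R (π - θ) 0 0) = fl2 (P0 (mk4 R θ 0 0))` and
`Fr (π - θ) = diag(1,1,-1,1) * Fr θ * diag(1,-1,1,1)`; use `i2`. -/
theorem Ker.mm_mirror (k : Ker h) {R : ℝ} (hR : 1 < R) (θ : ℝ) : mm h (mk4 R (π - θ) 0 0) =
    diagonal ![1, -1, 1, 1] * mm h (mk4 R θ 0 0) * diagonal ![1, -1, 1, 1] := by
  have hx : mk4 R θ 0 0 ∈ U1 := hR
  have h1 := k.i2 _ (PolS_mem hx)
  have e1 : P0 (mk4 R (π - θ) 0 0) = fl2 (P0 (mk4 R θ 0 0)) := by simp [P0, fl2]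
  have e2 : Fr (π - θ) = diagonal ![1, 1, -1, 1] * Fr θ * diagonal ![1, -1, 1, 1] := by
    ext i j
    simp only [Matrix.mul_diagonal, Matrix.diagonal_mul]
    fin_cases i <;> fin_cases j <;> simp [Fr]
  simp only [mm, mk4_1]
  rw [e1, e2, ← h1]
  simp only [Matrix.transpose_mul, Matrix.diagonal_transpose, Matrix.mul_assoc]

/-- If the six components vanish at `mk4 (x 0) (x 1) 0 0` they vanish at `x` (`Ax.dep`), so
`pull Ps h x = 0` (`pull_eq`), and `jac Ps x` is invertible (`ldif_Ps`). -/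
theorem Ker.zero_Ps (k : Ker h) (hx : x ∈ U2)
    (h0 : ca h (mk4 (x 0) (x 1) 0 0) = 0 ∧ cb h (mk4 (x 0) (x 1) 0 0) = 0 ∧
      cp h (mk4 (x 0) (x 1) 0 0) = 0 ∧ cq h (mk4 (x 0) (x 1) 0 0) = 0 ∧
      cv h (mk4 (x 0) (x 1) 0 0) = 0 ∧ cu h (mk4 (x 0) (x 1) 0 0) = 0) : h (Ps x) = 0 := by
  obtain ⟨ha, hb, hp, hq, hv, hu⟩ := h0
  have a6 := k.ax6
  rw [← a6.a.dep x (mk4 (x 0) (x 1) 0 0) rfl rfl] at ha
  rw [← a6.b.dep x (mk4 (x 0) (x 1) 0 0) rfl rfl] at hb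
  rw [← a6.p.dep x (mk4 (x 0) (x 1) 0 0) rfl rfl] at hp
  rw [← a6.q.dep x (mk4 (x 0) (x 1) 0 0) rfl rfl] at hq
  rw [← a6.v.dep x (mk4 (x 0) (x 1) 0 0) rfl rfl] at hv
  rw [← a6.u.dep x (mk4 (x 0) (x 1) 0 0) rfl rfl] at hu
  have h1 : pull Ps h x = 0 := by
    rw [k.pull_eq hx.1]
    ext i j
    fin_cases i <;> fin_cases j <;> simp [tk, ha, hb, hp, hq, hv, hu]
  have hJ := ldif_Ps.det x hx
  have u1 : IsUnit (jac Ps x) := (Matrix.isUnit_iff_isUnit_det _).2 (isUnit_iff_ne_zero.2 hJ)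
  have u2 : IsUnit (jac Ps x)ᵀ := (Matrix.isUnit_iff_isUnit_det _).2
    (isUnit_iff_ne_zero.2 (by rwa [Matrix.det_transpose]))
  exact u2.mul_right_eq_zero.1 (u1.mul_left_eq_zero.1 h1)

end Pool.Agent.Lib.MP_94aef8_gt.Kr
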