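import Pool.Agent.Lib.MP_94aef8_gt.K.Nat
import Pool.Agent.Lib.MP_94aef8_gt.K.Ric
import Pool.Agent.Lib.MP_94aef8_gt.K.PolE
import Pool.Agent.Lib.MP_94aef8_gt.K.PolB
import Pool.Agent.Lib.MP_94aef8_gt.K.PolS
import Pool.Agent.Lib.MP_94aef8_gt.K.AMain

/-!
Symmetric decaying solutions of the linearised equation on Schwarzschild vanish.
-/

open scoped ContDiff Topology
open Matrix Filter Set Real

namespace Pool.Agent.Lib.MP_94aef8_gt.Kr

variable {h : Tn}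

theorem Ker.c2 (k : Ker h) {x : E4} (hx : x ∈ U2) : C2T h (Ps x) := fun i j =>
  (k.sm i j).contDiffAt (open_Ext.mem_nhds (ldif_Ps.maps hx))

theorem Ker.ev (k : Ker h) {x : E4} (hx : x ∈ U2) :
    pull Ps h =ᶠ[𝓝 x] tk (ca h) (cb h) (cp h) (cq h) (cv h) (cu h) :=
  mem_of_superset (open_U2.mem_nhds hx) fun _ hy => k.pull_eq hy.1

theorem Ker.pol (k : Ker h) :
    Pol (sl (ca h)) (sl (cb h)) (sl (cp h)) (sl (cq h)) (sl (cv h)) (sl (cu h)) := by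
  have a6 := k.ax6
  have hm := fun R (hR : 1 < R) θ i j => congrFun (congrFun (k.mm_mirror hR θ) i) j
  simp only [Matrix.mul_diagonal, Matrix.diagonal_mul] at hm
  refine ⟨a6.a.ok, a6.b.ok, a6.p.ok, a6.q.ok, a6.v.ok, a6.u.ok, eqs_tk a6 fun x hx => ?_, ?_,
    fun R _ => ?_, fun R _ => ?_, fun R θ hR => ?_, fun R θ hR => ?_, fun R θ hR => ?_,
    fun R θ hR => ?_, fun R θ hR => ?_⟩
  · rw [← lich_congr (pull_ev hx) (k.ev hx), lich_pull good_SW ldif_Ps hx (k.c2 hx), pull,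
      k.eq _ (ldif_Ps.maps hx), Matrix.mul_zero, Matrix.zero_mul]
  · obtain ⟨C, hC⟩ := k.bd
    refine ⟨_, bds_tk a6 (C := C) fun x hx => ?_⟩
    have h1 := hC _ (ldif_Ps.maps hx)
    rw [R3_Ps hx.1] at h1
    rw [← ipD_congr (pull_ev hx) (k.ev hx), ipD_pull good_SW ldif_Ps hx (k.c2 hx).dt, ipT,
      ← (pull_ev hx).eq_of_nhds, ← (k.ev hx).eq_of_nhds, pull, pull, ipM_pull (ldif_Ps.det x hx)]
    exact h1
  · simp [sl, cu]
  · simp [sl, cu]
  · simp [sl, ca, hm R hR θ 3 3]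
  · simp [sl, cb, hm R hR θ 0 0]
  · simp [sl, cp, hm R hR θ 1 1]
  · simp [sl, cq, hm R hR θ 2 2]
  · simp [sl, cv, hm R hR θ 0 1]

theorem Ker.zero (k : Ker h) : ∀ y ∈ Ext, h y = 0 := by
  intro y hy
  ext i j
  refine ext_zero (k.sm i j).continuousOn (fun x hx => ?_) y hy
  rw [k.zero_Ps hx (pol_zero k.pol hx.1 hx.2.1 hx.2.2)]
  rfl

end Kr

/-- Symmetric decaying solutions of the linearised equation on Schwarzschild vanish. -/
theorem thmK (h : Tn) (sm : ∀ i j, ContDiffOn ℝ 3 (fun x => h x i j) {x | 1 < R3 x})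
    (sy : ∀ x, 1 < R3 x → (h x).IsSymm) (eq : ∀ x, 1 < R3 x → lich (GB 0) h x = 0)
    (it : ∀ a x, 1 < R3 x → pull (tsh a) h x = h x)
    (ir : ∀ a x, 1 < R3 x → pull (rot a) h x = h x)
    (i1 : ∀ x, 1 < R3 x → pull fl1 h x = h x) (i2 : ∀ x, 1 < R3 x → pull fl2 h x = h x)
    (bd : ∃ C, ∀ x, 1 < R3 x → R3 x * (ipT (GB 0) h h x + R3 x ^ 2 * ipD (GB 0) h h x) ≤ C) :
    ∀ x, 1 < R3 x → h x = 0 := by
  refine Kr.Ker.zero ⟨fun i j => (sm i j).of_le (by norm_num), sy, eq, fun a x hx => ?_,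
    fun a x hx => ?_, fun x hx => ?_, fun x hx => ?_, bd⟩
  · simpa [pull, Kr.jac_tsh] using it a x hx
  · simpa [pull, Kr.jac_rot] using ir a x hx
  · simpa [pull, Kr.jac_fl1] using i1 x hx
  · simpa [pull, Kr.jac_fl2] using i2 x hx

end Pool.Agent.Lib.MP_94aef8_gt
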