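import Pool.Agent.Lib.MP_94aef8_gt.K.MdD
import Pool.Agent.Lib.MP_94aef8_gt.K.Ibp1
import Pool.Agent.Lib.MP_94aef8_gt.K.Ibp2

/-!
The equations for the modes, tensor, vector and axial part.
-/

open Real Set Filter Polynomial
open scoped Topology

namespace Pool.Agent.Lib.MP_94aef8_gt.Kr

/-! Method: fix `R`. Multiply the pointwise equation by the weight; on `(0, π)` we have
`sin θ ≠ 0`, so `field_simp` turns the product into a sum `∑ coefficient(R) * (continuous
integrand)` without denominators in `θ`. Its integral vanishes (`int_zero`). Split the integral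
(`intervalIntegral.integral_add`, `integral_sub`, `integral_const_mul`; all slices are continuous,
`Ct.slice`, `cont_wt`) and rewrite the terms with angular derivatives by the `ibp` lemmas, applied
to `φ = c.f R`, `φ1 = c.t R`, `φ2 = c.tt R` (`J2.OK.dt`, `dtt`; for `k = p + q` and `d = p - q` use
`J2.OK.cmb`). -/

/-- A continuous function with its integral. -/
def MdE2_I (f : ℝ → ℝ) (I : ℝ) : Prop := Continuous f ∧ ∫ θ in (0 : ℝ)..π, f θ = I

theorem MdE2_add {f g : ℝ → ℝ} {I J : ℝ} (h : MdE2_I f I) (e : ℝ) (h' : MdE2_I g J) :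
    MdE2_I (fun θ => f θ + e * g θ) (I + e * J) :=
  ⟨h.1.add (continuous_const.mul h'.1), by
    rw [intervalIntegral.integral_add (h.1.intervalIntegrable _ _)
      ((h'.1.intervalIntegrable _ _).const_mul e), intervalIntegral.integral_const_mul,
      h.2, h'.2]⟩

theorem MdE2_md {c : ℝ → ℝ → ℝ} (hc : Ct c) {w : ℝ → ℝ} (hw : Continuous w) {R : ℝ} (hR : 1 < R) :
    MdE2_I (fun θ => c R θ * w θ) (md c w R) :=
  ⟨(hc.slice hR).mul hw, rfl⟩

theorem MdE2_zero {f : ℝ → ℝ} {I : ℝ} (h : MdE2_I f I) (h0 : ∀ θ, 0 < θ → θ < π → f θ = 0) :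
    I = 0 :=
  h.2.symm.trans (int_zero h0)

theorem MdE2_ev (z : ℝ[X]) : Continuous fun θ => z.eval (cos θ) :=
  z.continuous.comp continuous_cos

variable {a b p q v u : J2}

/-- `ep - eq` reads `d.L + (4 / s ^ 2 - 2) d - 4 (R - 1) / R ^ 2 (v.t - c / s v) = 0`; multiply by
`wt y`; `ibpT` for `d`, `ibpW` for `v`. -/
theorem eqT (h : Pol a b p q v u) (y : ℝ[X]) {R : ℝ} (hR : 1 < R) :
    (R ^ 2 - R) * md (p.cmb (-1) q).rr (wt y) R = -(2 * R - 1) * md (p.cmb (-1) q).r (wt y) R -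
      md (p.cmb (-1) q).f (wt (Lg y)) R - 2 * md (p.cmb (-1) q).f (wt y) R +
      4 * (R - 1) / R ^ 2 * (md v.f (wv (Lg y)) R + 2 * md v.f (wv y) R) := by
  have od := h.op.cmb (-1) h.oq
  have d0 := od.cf.slice hR
  have d1 := od.ct.slice hR
  have d2 := od.ctt.slice hR
  have v0 := h.ov.cf.slice hR
  have v1 := h.ov.ct.slice hR
  have i1 : MdE2_I _ _ := ⟨Continuous.mul (by fun_prop) (MdE2_ev _),
    ibpT (fun θ => od.dt R θ hR) (fun θ => od.dtt R θ hR) d2 y⟩
  have i2 : MdE2_I _ _ := ⟨Continuous.mul (by fun_prop) (MdE2_ev _),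
    ibpW (fun θ => h.ov.dt R θ hR) v1 y⟩
  have z := MdE2_zero (MdE2_add (MdE2_add (MdE2_add (MdE2_add i1 (-(R ^ 2 - R))
    (MdE2_md od.crr (cont_wt y) hR)) (-(2 * R - 1)) (MdE2_md od.cr (cont_wt y) hR)) (-2)
    (MdE2_md od.cf (cont_wt y) hR)) (-(4 * (R - 1) / R ^ 2)) i2) fun θ t0 t1 => by
      have e1 := h.eqs.ep R θ hR t0 t1
      have e2 := h.eqs.eq R θ hR t0 t1
      have hs := (sin_pos_of_pos_of_lt_pi t0 t1).ne'
      have hR0 : R ≠ 0 := by positivity
      simp only [J2.L, J2.cmb, wt, Pi.mul_apply] at e1 e2 ⊢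
      linear_combination (norm := (field_simp; ring))
        (e1 - e2) * ((derivative (derivative y)).eval (cos θ) * sin θ ^ 3)
  simp only [md] at z ⊢
  linear_combination -z

/-- In `ev` write `2 p.t = k.t + d.t`; multiply by `wv y`; `ibpV` for `v`, `ibpG` for `b` and `k`,
`ibpE` for `d`. -/
theorem eqV (h : Pol a b p q v u) (y : ℝ[X]) {R : ℝ} (hR : 1 < R) :
    (R ^ 2 - R) * md v.rr (wv y) R = -2 * md v.r (wv y) R - md v.f (wv (Lg y)) R +
      (4 - 4 / R) * md v.f (wv y) R + 2 * R * md b.f (ws (Lg y)) R -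
      R * md (p.cmb 1 q).f (ws (Lg y)) R - R * md (p.cmb (-1) q).f (wt y) R := by
  have od := h.op.cmb (-1) h.oq
  have ok := h.op.cmb 1 h.oq
  have d0 := od.cf.slice hR
  have d1 := od.ct.slice hR
  have v0 := h.ov.cf.slice hR
  have v1 := h.ov.ct.slice hR
  have v2 := h.ov.ctt.slice hR
  have i1 : MdE2_I _ _ := ⟨Continuous.mul (by fun_prop) (MdE2_ev _),
    ibpV (fun θ => h.ov.dt R θ hR) (fun θ => h.ov.dtt R θ hR) v2 y⟩
  have i2 : MdE2_I _ _ := ⟨Continuous.mul (by fun_prop) (MdE2_ev _),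
    ibpE (fun θ => od.dt R θ hR) d1 y⟩
  have i3 := ibpG (fun θ => h.ob.dt R θ hR) (h.ob.ct.slice hR) y
  have i4 := ibpG (fun θ => ok.dt R θ hR) (ok.ct.slice hR) y
  have z := MdE2_zero (MdE2_add (MdE2_add (MdE2_add (MdE2_add (MdE2_add (MdE2_add i1 (-(R ^ 2 - R))
    (MdE2_md h.ov.crr (cont_wv y) hR)) (-2) (MdE2_md h.ov.cr (cont_wv y) hR)) (4 - 4 / R)
    (MdE2_md h.ov.cf (cont_wv y) hR)) (-(2 * R)) (MdE2_md h.ob.ct (cont_wv y) hR)) R
    (MdE2_md ok.ct (cont_wv y) hR)) (-R) i2) fun θ t0 t1 => by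
      have e1 := h.eqs.ev R θ hR t0 t1
      have hs := (sin_pos_of_pos_of_lt_pi t0 t1).ne'
      have hR0 : R ≠ 0 := by positivity
      simp only [J2.cmb, wv, Pi.mul_apply] at e1 ⊢
      linear_combination (norm := (field_simp; ring))
        e1 * (-(derivative y).eval (cos θ) * sin θ ^ 2)
  simp only [md] at z ⊢
  rw [i3, i4] at z
  linear_combination -z

/-- `eu * wu y`, `ibpU` (with `h.u0`, `h.u1`). -/
theorem eqU (h : Pol a b p q v u) (y : ℝ[X]) {R : ℝ} (hR : 1 < R) :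
    (R ^ 2 - R) * md u.rr (wu y) R = -md u.f (wu (Lg y)) R - 2 / R * md u.f (wu y) R := by
  have u1 := h.ou.ct.slice hR
  have u2 := h.ou.ctt.slice hR
  have i1 : MdE2_I _ _ := ⟨Continuous.mul (by fun_prop) (MdE2_ev _),
    ibpU (fun θ => h.ou.dt R θ hR) (fun θ => h.ou.dtt R θ hR) u2 (h.u0 R hR) (h.u1 R hR) y⟩
  have z := MdE2_zero (MdE2_add (MdE2_add i1 (-(R ^ 2 - R)) (MdE2_md h.ou.crr (cont_wu y) hR))
    (-(2 / R)) (MdE2_md h.ou.cf (cont_wu y) hR)) fun θ t0 t1 => by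
      have e1 := h.eqs.eu R θ hR t0 t1
      have hs := (sin_pos_of_pos_of_lt_pi t0 t1).ne'
      have hR0 : R ≠ 0 := by positivity
      simp only [wu, Pi.mul_apply] at e1 ⊢
      linear_combination (norm := (field_simp; ring))
        e1 * (-(derivative y).eval (cos θ) * sin θ)
  simp only [md] at z ⊢
  linear_combination -z

end Pool.Agent.Lib.MP_94aef8_gt.Kr
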