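import Pool.Agent.Lib.MP_94aef8_gt.K.MdE1
import Pool.Agent.Lib.MP_94aef8_gt.K.MdE2

/-!
The modes solve the system of ordinary differential equations and are bounded.
-/

open Real Set Filter Polynomial
open scoped Topology

namespace Pool.Agent.Lib.MP_94aef8_gt.Kr

variable {a b p q v u : J2}

theorem MdB_lin {c : ℝ → ℝ → ℝ} (hc : Ct c) {W : ℝ[X] → ℝ → ℝ} (hW : ∀ y, Continuous (W y))
    (hl : ∀ (α β : ℝ) (y z : ℝ[X]), W (C α * y + C β * z) = fun θ => α * W y θ + β * W z θ)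
    {y z : ℝ[X]} {L β : ℝ} (hy : Lg y = C (-L) * y + C β * z) {R : ℝ} (hR : 1 < R)
    (hz : β = 0 ∨ md c (W z) R = 0) : md c (W (Lg y)) R = -L * md c (W y) R := by
  have e : md c (W (Lg y)) R = -L * md c (W y) R + β * md c (W z) R := by
    unfold md
    rw [hy, hl, ia_lin (hc.slice hR) (hW y) (hW z)]
  rw [e]
  rcases hz with hz | hz <;> rw [hz] <;> ring

theorem MdB_ne {R : ℝ} (hR : 1 < R) : R ^ 2 - R ≠ 0 := by
  have : 0 < R ^ 2 - R := by nlinarith
  exact this.ne'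

theorem MdB_sc {w : ℝ → ℝ} {D : ℝ}
    (hD : ∀ (φ : ℝ → ℝ) (M : ℝ), (∀ θ, 0 < θ → θ < π → |φ θ| ≤ M) → |ia φ w| ≤ D * M)
    (φ : ℝ → ℝ) {s M : ℝ} (hs : 0 ≤ s) (h : ∀ θ, 0 < θ → θ < π → s * |φ θ| ≤ M) :
    s * |ia φ w| ≤ D * M := by
  have h1 := hD (fun θ => s * φ θ) M (fun θ h0 h1 => by
    rw [abs_mul, abs_of_nonneg hs]
    exact h θ h0 h1)
  have e : ia (fun θ => s * φ θ) w = s * ia φ w := by
    unfold ia
    simp_rw [mul_assoc]
    exact intervalIntegral.integral_const_mul _ _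
  rwa [e, abs_mul, abs_of_nonneg hs] at h1

theorem MdB_two {s x y e M : ℝ} (hs : 0 ≤ s) (he : |e| = 1) (hx : s * |x| ≤ M) (hy : s * |y| ≤ M) :
    s * |x + e * y| ≤ 2 * M := by
  have h1 : |x + e * y| ≤ |x| + |y| := by
    have := abs_add_le x (e * y)
    rwa [abs_mul, he, one_mul] at this
  have h2 := mul_le_mul_of_nonneg_left h1 hs
  linarith [mul_add s |x| |y|]

/-- The first five fields are `md_deriv`. For the others `md_deriv` gives the derivative
`md a.rr (ws y) R`; by `eqA`, `hy`, `ws_lin`, `ia_lin` and `hz` we have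
`md a.f (ws (Lg y)) R = -L * md a.f (ws y) R`; divide by `R ^ 2 - R ≠ 0` (`eq_div_iff`). -/
theorem modes_ode (h : Pol a b p q v u) {y z : ℝ[X]} {L β : ℝ} (hy : Lg y = C (-L) * y + C β * z)
    (hz : β = 0 ∨ (modes a b p q v z).Zero) : (modes a b p q v y).Ode L := by
  have ok := h.op.cmb 1 h.oq
  have od := h.op.cmb (-1) h.oq
  have zA : ∀ R, 1 < R → β = 0 ∨ md a.f (ws z) R = 0 := fun R hR =>
    hz.imp id fun hz => (hz R hR).1
  have zB : ∀ R, 1 < R → β = 0 ∨ md b.f (ws z) R = 0 := fun R hR =>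
    hz.imp id fun hz => (hz R hR).2.1
  have zK : ∀ R, 1 < R → β = 0 ∨ md (p.cmb 1 q).f (ws z) R = 0 := fun R hR =>
    hz.imp id fun hz => (hz R hR).2.2.1
  have zT : ∀ R, 1 < R → β = 0 ∨ md (p.cmb (-1) q).f (wt z) R = 0 := fun R hR =>
    hz.imp id fun hz => (hz R hR).2.2.2.1
  have zV : ∀ R, 1 < R → β = 0 ∨ md v.f (wv z) R = 0 := fun R hR =>
    hz.imp id fun hz => (hz R hR).2.2.2.2
  have lA := fun R hR => MdB_lin h.oa.cf cont_ws ws_lin hy hR (zA R hR)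
  have lB := fun R hR => MdB_lin h.ob.cf cont_ws ws_lin hy hR (zB R hR)
  have lK := fun R hR => MdB_lin ok.cf cont_ws ws_lin hy hR (zK R hR)
  have lT := fun R hR => MdB_lin od.cf cont_wt wt_lin hy hR (zT R hR)
  have lV := fun R hR => MdB_lin h.ov.cf cont_wv wv_lin hy hR (zV R hR)
  refine ⟨fun R hR => md_deriv h.oa.cf h.oa.cr h.oa.dr (cont_ws y) hR,
    fun R hR => md_deriv h.ob.cf h.ob.cr h.ob.dr (cont_ws y) hR,
    fun R hR => md_deriv ok.cf ok.cr ok.dr (cont_ws y) hR,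
    fun R hR => md_deriv od.cf od.cr od.dr (cont_wt y) hR,
    fun R hR => md_deriv h.ov.cf h.ov.cr h.ov.dr (cont_wv y) hR,
    fun R hR => ?_, fun R hR => ?_, fun R hR => ?_, fun R hR => ?_, fun R hR => ?_⟩
  · refine (md_deriv h.oa.cr h.oa.crr h.oa.drr (cont_ws y) hR).congr_deriv ?_
    have e := eqA h y hR
    rw [lA R hR] at e
    simp only [St.A2, modes]
    rw [eq_div_iff (MdB_ne hR)]
    linear_combination e
  · refine (md_deriv h.ob.cr h.ob.crr h.ob.drr (cont_ws y) hR).congr_deriv ?_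
    have e := eqB h y hR
    rw [lB R hR] at e
    simp only [St.B2, modes]
    rw [eq_div_iff (MdB_ne hR)]
    linear_combination e
  · refine (md_deriv ok.cr ok.crr ok.drr (cont_ws y) hR).congr_deriv ?_
    have e := eqK h y hR
    rw [lK R hR] at e
    simp only [St.K2, modes]
    rw [eq_div_iff (MdB_ne hR)]
    linear_combination e
  · refine (md_deriv od.cr od.crr od.drr (cont_wt y) hR).congr_deriv ?_
    have e := eqT h y hR
    rw [lT R hR, lV R hR] at e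
    simp only [St.T2, modes]
    rw [eq_div_iff (MdB_ne hR)]
    linear_combination e
  · refine (md_deriv h.ov.cr h.ov.crr h.ov.drr (cont_wv y) hR).congr_deriv ?_
    have e := eqV h y hR
    rw [lB R hR, lK R hR, lV R hR] at e
    simp only [St.V2, modes]
    rw [eq_div_iff (MdB_ne hR)]
    linear_combination e

/-- `ia_bound` for the three weights, `D` the largest of the three constants; the new constant is
`2 D C`. Factors depending on `R` are moved inside by `ia_lin'` (or divide: `√R * |x| ≤ C` is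
`|x| ≤ C / √R`). -/
theorem modes_bd (h : Pol a b p q v u) (y : ℝ[X]) : ∃ C, (modes a b p q v y).Bd C := by
  obtain ⟨M, hM⟩ := h.bds
  obtain ⟨D1, p1, h1⟩ := ia_bound (cont_ws y)
  obtain ⟨D2, p2, h2⟩ := ia_bound (cont_wt y)
  obtain ⟨D3, p3, h3⟩ := ia_bound (cont_wv y)
  have hM0 : 0 ≤ M := by
    have h0 := hM.ba 2 1 (by norm_num) (by norm_num) (by linarith [pi_gt_three])
    exact le_trans (by positivity) h0
  have q1 := mul_nonneg p1 hM0
  have q2 := mul_nonneg p2 hM0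
  have q3 := mul_nonneg p3 hM0
  have hsg : ∀ R, 0 ≤ sg R := fun R => sqrt_nonneg _
  refine ⟨2 * (D1 + D2 + D3) * M, fun R hR => ?_, fun R hR => ?_, fun R hR => ?_, fun R hR => ?_,
    fun R hR => ?_, fun R hR => ?_, fun R hR => ?_, fun R hR => ?_, fun R hR => ?_⟩
  · have := MdB_sc h1 (a.f R) (sqrt_nonneg R) (fun θ h0 h1 => hM.ba R θ hR h0 h1)
    show √R * |ia (a.f R) (ws y)| ≤ _
    linarith
  · have := MdB_sc h1 (b.f R) (sqrt_nonneg R) (fun θ h0 h1 => hM.bb R θ hR h0 h1)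
    show √R * |ia (b.f R) (ws y)| ≤ _
    linarith
  · have := MdB_sc h1 ((p.cmb 1 q).f R) (M := 2 * M) (sqrt_nonneg R) (fun θ h0 h1 =>
      MdB_two (sqrt_nonneg R) abs_one (hM.bp R θ hR h0 h1) (hM.bq R θ hR h0 h1))
    show √R * |ia ((p.cmb 1 q).f R) (ws y)| ≤ _
    linarith
  · have := MdB_sc h2 ((p.cmb (-1) q).f R) (M := 2 * M) (sqrt_nonneg R) (fun θ h0 h1 =>
      MdB_two (sqrt_nonneg R) (by simp) (hM.bp R θ hR h0 h1) (hM.bq R θ hR h0 h1))
    show √R * |ia ((p.cmb (-1) q).f R) (wt y)| ≤ _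
    linarith
  · have := h3 (v.f R) (M * R) (fun θ h0 h1 => hM.bv R θ hR h0 h1)
    show |ia (v.f R) (wv y)| ≤ _
    have hR0 : 0 ≤ R := by linarith
    nlinarith [mul_nonneg q1 hR0, mul_nonneg q2 hR0, mul_nonneg q3 hR0]
  · have := MdB_sc h1 (b.r R) (hsg R) (fun θ h0 h1 => hM.bbr R θ hR h0 h1)
    show sg R * |ia (b.r R) (ws y)| ≤ _
    linarith
  · have := MdB_sc h2 ((p.cmb (-1) q).r R) (M := 2 * M) (hsg R) (fun θ h0 h1 =>
      MdB_two (hsg R) (by simp) (hM.bpr R θ hR h0 h1) (hM.bqr R θ hR h0 h1))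
    show sg R * |ia ((p.cmb (-1) q).r R) (wt y)| ≤ _
    linarith
  · have e := ia_lin' (h.ob.cf.slice hR) (h.oa.cf.slice hR) (cont_ws y) 1 (-1)
    have := h1 (fun θ => 1 * b.f R θ + (-1) * a.f R θ) (M * sg R) (fun θ h0 h1 => by
      have := hM.bba R θ hR h0 h1
      rwa [show b.f R θ - a.f R θ = 1 * b.f R θ + (-1) * a.f R θ by ring] at this)
    rw [e] at this
    show |ia (b.f R) (ws y) - ia (a.f R) (ws y)| ≤ _
    rw [show ia (b.f R) (ws y) - ia (a.f R) (ws y) =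
      1 * ia (b.f R) (ws y) + (-1) * ia (a.f R) (ws y) by ring]
    have hR0 := hsg R
    nlinarith [mul_nonneg q1 hR0, mul_nonneg q2 hR0, mul_nonneg q3 hR0]
  · have e := ia_lin' (h.ov.cr.slice hR) (h.ov.cf.slice hR) (cont_wv y) ((R - 1) / R)
      ((3 - 2 * R) / (2 * R ^ 2))
    have := h3 (fun θ => (R - 1) / R * v.r R θ + (3 - 2 * R) / (2 * R ^ 2) * v.f R θ) M
      (fun θ h0 h1 => hM.bvr R θ hR h0 h1)
    rw [e] at this
    show |(R - 1) / R * ia (v.r R) (wv y) + (3 - 2 * R) / (2 * R ^ 2) * ia (v.f R) (wv y)| ≤ _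
    linarith

/-- The axial mode: `md_deriv`, `eqU`, `wu_lin`, `ia_lin`. -/
theorem axial_ode (h : Pol a b p q v u) {y z : ℝ[X]} {L β : ℝ} (hy : Lg y = C (-L) * y + C β * z)
    (hz : β = 0 ∨ ∀ R, 1 < R → md u.f (wu z) R = 0) {R : ℝ} (hR : 1 < R) :
    HasDerivAt (md u.f (wu y)) (md u.r (wu y) R) R ∧
      HasDerivAt (md u.r (wu y)) ((L - 2 / R) * md u.f (wu y) R / (R ^ 2 - R)) R := by
  refine ⟨md_deriv h.ou.cf h.ou.cr h.ou.dr (cont_wu y) hR, ?_⟩
  refine (md_deriv h.ou.cr h.ou.crr h.ou.drr (cont_wu y) hR).congr_deriv ?_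
  have e := eqU h y hR
  rw [MdB_lin h.ou.cf cont_wu wu_lin hy hR (hz.imp id fun hz => hz R hR)] at e
  rw [eq_div_iff (MdB_ne hR)]
  linear_combination e

theorem axial_bd (h : Pol a b p q v u) (y : ℝ[X]) :
    ∃ C, ∀ R, 1 < R → |md u.f (wu y) R| ≤ C * (R - 1) := by
  obtain ⟨M, hM⟩ := h.bds
  obtain ⟨D, -, h1⟩ := ia_bound (cont_wu y)
  refine ⟨D * M, fun R hR => ?_⟩
  have := h1 (u.f R) (M * (R - 1)) (fun θ h0 h1 => hM.bu R θ hR h0 h1)
  rw [mul_assoc]
  exact this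

end Pool.Agent.Lib.MP_94aef8_gt.Kr
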