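import Pool.Agent.Lib.MP_94aef8_gt.K.ADefs

/-!
Modes: continuity, differentiation under the integral, linearity, bounds.
-/

open Real Set Filter Polynomial
open scoped Topology

namespace Pool.Agent.Lib.MP_94aef8_gt.Kr

theorem Ct.slice {c : ℝ → ℝ → ℝ} (h : Ct c) {R : ℝ} (hR : 1 < R) : Continuous (c R) := by
  exact ContinuousOn.comp_continuous (g := fun z : ℝ × ℝ => c z.1 z.2) (f := fun θ : ℝ => (R, θ)) h
    (by fun_prop) fun θ => ⟨hR, mem_univ θ⟩

theorem J2.OK.cmb {c d : J2} (hc : c.OK) (e : ℝ) (hd : d.OK) : (c.cmb e d).OK := by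
  have key : ∀ {x y : ℝ → ℝ → ℝ}, Ct x → Ct y → Ct fun R θ => x R θ + e * y R θ :=
    fun hx hy => ContinuousOn.add hx (ContinuousOn.mul continuousOn_const hy)
  exact ⟨fun R θ h => (hc.dr R θ h).add ((hd.dr R θ h).const_mul e),
    fun R θ h => (hc.drr R θ h).add ((hd.drr R θ h).const_mul e),
    fun R θ h => (hc.dt R θ h).add ((hd.dt R θ h).const_mul e),
    fun R θ h => (hc.dtt R θ h).add ((hd.dtt R θ h).const_mul e),
    key hc.cf hd.cf, key hc.cr hd.cr, key hc.crr hd.crr, key hc.ct hd.ct, key hc.ctt hd.ctt⟩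

theorem cont_ws (y : ℝ[X]) : Continuous (ws y) := by
  exact (y.continuous.comp continuous_cos).mul continuous_sin

theorem cont_wv (y : ℝ[X]) : Continuous (wv y) := by
  exact ((derivative y).continuous.comp continuous_cos).neg.mul (continuous_sin.pow 2)

theorem cont_wt (y : ℝ[X]) : Continuous (wt y) := by
  exact ((derivative (derivative y)).continuous.comp continuous_cos).mul (continuous_sin.pow 3)

theorem cont_wu (y : ℝ[X]) : Continuous (wu y) := by
  exact ((derivative y).continuous.comp continuous_cos).neg.mul continuous_sin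

/-- `intervalIntegral.hasDerivAt_integral_of_dominated_loc_of_deriv_le` on the ball of radius
`(R - 1) / 2`; the bound is a constant, from continuity of `c1 * w` on the compact set
`closedBall R ((R - 1) / 2) ×ˢ Icc 0 π`. -/
theorem md_deriv {c c1 : ℝ → ℝ → ℝ} {w : ℝ → ℝ} (hc : Ct c) (hc1 : Ct c1)
    (hd : ∀ R θ, 1 < R → HasDerivAt (fun x => c x θ) (c1 R θ) R) (hw : Continuous w) {R : ℝ}
    (hR : 1 < R) : HasDerivAt (md c w) (md c1 w R) R := by
  have hs : Icc ((R + 1) / 2) (R + 1) ∈ 𝓝 R := Icc_mem_nhds (by linarith) (by linarith)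
  have h1 : ∀ x ∈ Icc ((R + 1) / 2) (R + 1), 1 < x := fun x hx => by linarith [hx.1]
  have hK : IsCompact (Icc ((R + 1) / 2) (R + 1) ×ˢ Icc (0 : ℝ) π) := isCompact_Icc.prod isCompact_Icc
  obtain ⟨B, hB⟩ := hK.exists_bound_of_continuousOn (f := fun z : ℝ × ℝ => c1 z.1 z.2 * w z.2)
    (ContinuousOn.mul (hc1.mono fun z hz => ⟨h1 _ hz.1, mem_univ _⟩)
      (hw.comp continuous_snd).continuousOn)
  refine (intervalIntegral.hasDerivAt_integral_of_dominated_loc_of_deriv_le
    (F := fun x θ => c x θ * w θ) (F' := fun x θ => c1 x θ * w θ) (bound := fun _ => B) hs ?_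
    (((hc.slice hR).mul hw).intervalIntegrable _ _) ((hc1.slice hR).mul hw).aestronglyMeasurable
    (Eventually.of_forall fun θ hθ x hx => ?_) intervalIntegrable_const
    (Eventually.of_forall fun θ _ x hx => (hd x θ (h1 x hx)).mul_const (w θ))).2
  · filter_upwards [hs] with x hx
    exact ((hc.slice (h1 x hx)).mul hw).aestronglyMeasurable
  · rw [uIoc_of_le pi_pos.le] at hθ
    exact hB (x, θ) ⟨hx, hθ.1.le, hθ.2⟩

/-- Linearity in the weight. -/
theorem ia_lin {φ w w' : ℝ → ℝ} (hφ : Continuous φ) (hw : Continuous w) (hw' : Continuous w')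
    (α β : ℝ) : ia φ (fun θ => α * w θ + β * w' θ) = α * ia φ w + β * ia φ w' := by
  unfold ia
  rw [← intervalIntegral.integral_const_mul, ← intervalIntegral.integral_const_mul,
    ← intervalIntegral.integral_add (Continuous.intervalIntegrable (by fun_prop) _ _)
      (Continuous.intervalIntegrable (by fun_prop) _ _)]
  exact intervalIntegral.integral_congr fun θ _ => by ring

/-- Linearity in the function. -/
theorem ia_lin' {φ φ' w : ℝ → ℝ} (hφ : Continuous φ) (hφ' : Continuous φ') (hw : Continuous w)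
    (α β : ℝ) : ia (fun θ => α * φ θ + β * φ' θ) w = α * ia φ w + β * ia φ' w := by
  unfold ia
  rw [← intervalIntegral.integral_const_mul, ← intervalIntegral.integral_const_mul,
    ← intervalIntegral.integral_add (Continuous.intervalIntegrable (by fun_prop) _ _)
      (Continuous.intervalIntegrable (by fun_prop) _ _)]
  exact intervalIntegral.integral_congr fun θ _ => by ring

/-- `|w| ≤ W` on `[0, π]`, `D = π W`; `intervalIntegral.norm_integral_le_of_norm_le_const_ae` (the
point `π` is a null set) or `intervalIntegral.integral_of_le`, `integral_Ioc_eq_integral_Ioo`. -/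
theorem ia_bound {w : ℝ → ℝ} (hw : Continuous w) : ∃ D, 0 ≤ D ∧ ∀ (φ : ℝ → ℝ) (M : ℝ),
    (∀ θ, 0 < θ → θ < π → |φ θ| ≤ M) → |ia φ w| ≤ D * M := by
  obtain ⟨W, hW⟩ := (isCompact_Icc (a := (0 : ℝ)) (b := π)).exists_bound_of_continuousOn
    hw.continuousOn
  have hW0 : 0 ≤ W := (norm_nonneg _).trans (hW 0 ⟨le_rfl, pi_pos.le⟩)
  refine ⟨π * W, mul_nonneg pi_pos.le hW0, fun φ M h => ?_⟩
  have h1 := intervalIntegral.norm_integral_le_of_norm_le_const_ae (a := 0) (b := π) (C := M * W)
    (f := fun θ => φ θ * w θ) (by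
      filter_upwards [MeasureTheory.volume.ae_ne π] with θ hne hθ
      rw [uIoc_of_le pi_pos.le] at hθ
      have h2 := h θ hθ.1 (lt_of_le_of_ne hθ.2 hne)
      rw [norm_mul]
      exact mul_le_mul h2 (hW θ ⟨hθ.1.le, hθ.2⟩) (norm_nonneg _) ((abs_nonneg _).trans h2))
  rw [sub_zero, abs_of_pos pi_pos] at h1
  exact h1.trans_eq (by ring)

/-- The integrand vanishes on the open interval. -/
theorem int_zero {φ : ℝ → ℝ} (h : ∀ θ, 0 < θ → θ < π → φ θ = 0) :
    ∫ θ in (0 : ℝ)..π, φ θ = 0 := by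
  rw [intervalIntegral.integral_congr_Ioo_of_le (g := fun _ => 0) pi_pos.le fun θ hθ =>
    h θ hθ.1 hθ.2, intervalIntegral.integral_zero]

theorem Lg_pow (n : ℕ) : Lg (X ^ (n + 2)) =
    C (-(((n : ℝ) + 2) * ((n : ℝ) + 3))) * X ^ (n + 2) + C (((n : ℝ) + 2) * ((n : ℝ) + 1)) * X ^ n := by
  simp only [Lg, derivative_X_pow, derivative_mul, map_neg, map_mul, map_add,
    map_natCast, map_ofNat, map_one, Nat.add_succ_sub_one, Nat.cast_add, Nat.cast_ofNat,
    Nat.cast_one, derivative_natCast, derivative_ofNat, add_zero]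
  ring

theorem Lg_X : Lg X = C (-2 : ℝ) * X + C (0 : ℝ) * X := by
  simp only [Lg, derivative_X, derivative_one, map_neg, map_ofNat, map_zero]
  ring

theorem Lg_one : Lg 1 = C (0 : ℝ) * 1 + C (0 : ℝ) * 1 := by
  simp [Lg]

theorem ws_lin (α β : ℝ) (y z : ℝ[X]) :
    ws (C α * y + C β * z) = fun θ => α * ws y θ + β * ws z θ := by
  funext θ
  simp only [ws, eval_add, eval_mul, eval_C]
  ring

theorem wv_lin (α β : ℝ) (y z : ℝ[X]) :
    wv (C α * y + C β * z) = fun θ => α * wv y θ + β * wv z θ := by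
  funext θ
  simp only [wv, derivative_add, derivative_C_mul, eval_add, eval_mul, eval_C]
  ring

theorem wt_lin (α β : ℝ) (y z : ℝ[X]) :
    wt (C α * y + C β * z) = fun θ => α * wt y θ + β * wt z θ := by
  funext θ
  simp only [wt, derivative_add, derivative_C_mul, eval_add, eval_mul, eval_C]
  ring

theorem wu_lin (α β : ℝ) (y z : ℝ[X]) :
    wu (C α * y + C β * z) = fun θ => α * wu y θ + β * wu z θ := by
  funext θ
  simp only [wu, derivative_add, derivative_C_mul, eval_add, eval_mul, eval_C]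
  ring

end Pool.Agent.Lib.MP_94aef8_gt.Kr
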