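import Pool.Agent.Lib.MP_94aef8_gt.K.MdD
import Pool.Agent.Lib.MP_94aef8_gt.K.Ibp1
import Pool.Agent.Lib.MP_94aef8_gt.K.Ibp2

/-!
The equations for the modes, scalar part.
-/

open Real Set Filter Polynomial
open scoped Topology

namespace Pool.Agent.Lib.MP_94aef8_gt.Kr

/-! Method: fix `R`. Multiply the pointwise equation by the weight; on `(0, π)` we have
`sin θ ≠ 0`, so `field_simp` turns the product into a sum `∑ coefficient(R) * (continuous
integrand)` without denominators in `θ`. Its integral vanishes (`int_zero`). Split the integral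
(`intervalIntegral.integral_add`, `integral_sub`, `integral_const_mul`; all slices are continuous,
`Ct.slice`, `cont_ws`) and rewrite the terms with angular derivatives by the `ibp` lemmas, applied
to `φ = c.f R`, `φ1 = c.t R`, `φ2 = c.tt R` (`J2.OK.dt`, `dtt`; for `p + q` and `p - q` use
`J2.OK.cmb`). -/

variable {a b p q v u : J2}

theorem MdE1_main {c v : J2} (hc : c.OK) (hv : v.OK) {f g k : ℝ → ℝ} (hf : Continuous f)
    (hg : Continuous g) (hk : Continuous k) {α β γ δ R : ℝ} (hR : 1 < R) (y : ℝ[X])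
    (h : ∀ θ, 0 < θ → θ < π → c.L R θ + α * f θ + β * g θ + γ * k θ +
      δ * (v.t R θ + cos θ / sin θ * v.f R θ) = 0) :
    (R ^ 2 - R) * md c.rr (ws y) R = -(2 * R - 1) * md c.r (ws y) R - md c.f (ws (Lg y)) R +
      α * ia f (ws y) + β * ia g (ws y) + γ * ia k (ws y) - δ * md v.f (wv y) R := by
  have hw := cont_ws y
  have c1 := hc.crr.slice hR
  have c2 := hc.cr.slice hR
  have c3 := hc.ctt.slice hR
  have c4 := hc.ct.slice hR
  have c5 := hv.ct.slice hR
  have c6 := hv.cf.slice hR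
  have hy : Continuous fun θ => y.eval (cos θ) := y.continuous.comp continuous_cos
  have e1 := ibpS (fun θ => hc.dt R θ hR) (fun θ => hc.dtt R θ hR) c3 y
  have e2 := ibpD (fun θ => hv.dt R θ hR) c5 y
  have e0 := int_zero (φ := fun θ => -(R ^ 2 - R) * (c.rr R θ * ws y θ) +
      -(2 * R - 1) * (c.r R θ * ws y θ) + (-c.tt R θ * sin θ - cos θ * c.t R θ) * y.eval (cos θ) +
      α * (f θ * ws y θ) + β * (g θ * ws y θ) + γ * (k θ * ws y θ) +
      δ * ((v.t R θ * sin θ + cos θ * v.f R θ) * y.eval (cos θ))) fun θ h0 h1 => by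
    have hs := (sin_pos_of_pos_of_lt_pi h0 h1).ne'
    have h2 := h θ h0 h1
    have h3 : cos θ / sin θ * sin θ = cos θ := div_mul_cancel₀ _ hs
    rw [J2.L] at h2
    simp only [ws]
    linear_combination (y.eval (cos θ) * sin θ) * h2 +
      (c.t R θ - δ * v.f R θ) * y.eval (cos θ) * h3
  repeat rw [intervalIntegral.integral_add (Continuous.intervalIntegrable (by fun_prop) _ _)
    (Continuous.intervalIntegrable (by fun_prop) _ _)] at e0
  simp only [intervalIntegral.integral_const_mul] at e0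
  rw [e1, e2] at e0
  simp only [md, ia] at e0 ⊢
  linear_combination -e0

/-- `ea * ws y`, `ibpS`. -/
theorem eqA (h : Pol a b p q v u) (y : ℝ[X]) {R : ℝ} (hR : 1 < R) :
    (R ^ 2 - R) * md a.rr (ws y) R = -(2 * R - 1) * md a.r (ws y) R - md a.f (ws (Lg y)) R +
      md a.f (ws y) R / (2 * R * (R - 1)) + (3 - 4 * R) / (2 * R * (R - 1)) * md b.f (ws y) R +
      md (p.cmb 1 q).f (ws y) R / R := by
  have e := MdE1_main h.oa h.ov (h.oa.cf.slice hR) (h.ob.cf.slice hR)
    ((h.op.cmb 1 h.oq).cf.slice hR) (α := 1 / (2 * R * (R - 1)))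
    (β := (3 - 4 * R) / (2 * R * (R - 1))) (γ := 1 / R) (δ := 0) hR y fun θ h0 h1 => by
      simp only [J2.cmb]
      linear_combination h.eqs.ea R θ hR h0 h1
  simp only [md] at e ⊢
  linear_combination e

/-- `eb * ws y`, `ibpS`, `ibpD`. -/
theorem eqB (h : Pol a b p q v u) (y : ℝ[X]) {R : ℝ} (hR : 1 < R) :
    (R ^ 2 - R) * md b.rr (ws y) R = -(2 * R - 1) * md b.r (ws y) R - md b.f (ws (Lg y)) R +
      (3 - 4 * R) / (2 * R * (R - 1)) * md a.f (ws y) R +
      (8 * R ^ 2 - 16 * R + 9) / (2 * R * (R - 1)) * md b.f (ws y) R +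
      (3 - 2 * R) / R * md (p.cmb 1 q).f (ws y) R - 4 * (R - 1) / R ^ 2 * md v.f (wv y) R := by
  have e := MdE1_main h.ob h.ov (h.oa.cf.slice hR) (h.ob.cf.slice hR)
    ((h.op.cmb 1 h.oq).cf.slice hR) (α := (3 - 4 * R) / (2 * R * (R - 1)))
    (β := (8 * R ^ 2 - 16 * R + 9) / (2 * R * (R - 1))) (γ := (3 - 2 * R) / R)
    (δ := 4 * (R - 1) / R ^ 2) hR y fun θ h0 h1 => by
      simp only [J2.cmb]
      linear_combination h.eqs.eb R θ hR h0 h1
  simp only [md] at e ⊢
  linear_combination e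

/-- `(ep + eq) * ws y`, `ibpS`, `ibpD`. -/
theorem eqK (h : Pol a b p q v u) (y : ℝ[X]) {R : ℝ} (hR : 1 < R) :
    (R ^ 2 - R) * md (p.cmb 1 q).rr (ws y) R = -(2 * R - 1) * md (p.cmb 1 q).r (ws y) R -
      md (p.cmb 1 q).f (ws (Lg y)) R + 2 / R * md a.f (ws y) R +
      2 * (3 - 2 * R) / R * md b.f (ws y) R + (2 - 4 / R) * md (p.cmb 1 q).f (ws y) R +
      4 * (R - 1) / R ^ 2 * md v.f (wv y) R := by
  have e := MdE1_main (h.op.cmb 1 h.oq) h.ov (h.oa.cf.slice hR) (h.ob.cf.slice hR)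
    ((h.op.cmb 1 h.oq).cf.slice hR) (α := 2 / R) (β := 2 * (3 - 2 * R) / R) (γ := 2 - 4 / R)
    (δ := -(4 * (R - 1) / R ^ 2)) hR y fun θ h0 h1 => by
      have h2 := h.eqs.ep R θ hR h0 h1
      have h3 := h.eqs.eq R θ hR h0 h1
      simp only [J2.cmb, J2.L] at h2 h3 ⊢
      linear_combination h2 + h3
  simp only [md] at e ⊢
  linear_combination e

end Pool.Agent.Lib.MP_94aef8_gt.Kr
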