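import Pool.Agent.Lib.MP_94aef8_gt.K.BStub

/-!
Naturality for tensor fields of class two.
-/

open scoped ContDiff Topology
open Matrix Filter Set Real

namespace Pool.Agent.Lib.MP_94aef8_gt.Kr

variable {G h : Tn} {U V : Set E4} {τ : E4 → E4} {p : E4}

/-- The entries of `jac τ` are smooth on `U`. -/
theorem dt_jac (hτ : LDif τ U V) (hp : p ∈ U) : DT (jac τ) p := by
  intro i a
  have h1 : ContDiffAt ℝ ∞ τ p := hτ.smooth.contDiffAt (hτ.isOpen.mem_nhds hp)
  have h2 : ContDiffAt ℝ 2 (fun y => τ y i) p :=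
    ((EuclideanSpace.proj (𝕜 := ℝ) i).contDiff.contDiffAt.comp p h1).of_le (by norm_cast)
  exact diff_pd h2 a

theorem Nat_diff (hτ : LDif τ U V) (hp : p ∈ U) : DifferentiableAt ℝ τ p :=
  (hτ.smooth.contDiffAt (hτ.isOpen.mem_nhds hp)).differentiableAt (by simp)

theorem Nat_sum4 {M : Type} [AddCommMonoid M] (F : Fin 4 → Fin 4 → Fin 4 → Fin 4 → M) :
    ∑ a, ∑ b, ∑ c, ∑ d, F a b c d = ∑ c, ∑ d, ∑ a, ∑ b, F a b c d := by
  have h1 : ∀ a, ∑ b, ∑ c, ∑ d, F a b c d = ∑ c, ∑ d, ∑ b, F a b c d := fun a => by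
    rw [Finset.sum_comm]
    exact Finset.sum_congr rfl fun c _ => Finset.sum_comm
  simp only [h1]
  rw [Finset.sum_comm]
  exact Finset.sum_congr rfl fun c _ => Finset.sum_comm

theorem dt_pull (hτ : LDif τ U V) (hp : p ∈ U) (hh : DT h (τ p)) : DT (pull τ h) p := by
  exact ((dt_jac hτ hp).tr.mul (hh.comp (Nat_diff hτ hp))).mul (dt_jac hτ hp)

/-- `nab_eq`, `dmt_mul`, `dmt_tr`, `dmt_comp`; write `J = jac τ p`, `w' = wm (pull τ G) a p`, then
`w'ᵀ * (Jᵀ * h * J) = (J * w')ᵀ * h * J`, `Jᵀ * h * J * w' = Jᵀ * h * (J * w')`, rewrite with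
`w_pull`, distribute the sums. -/
theorem nab_pull (hG : Good G V) (hτ : LDif τ U V) (hp : p ∈ U) (hh : DT h (τ p)) (a : Fin 4) :
    nab (pull τ G) a (pull τ h) p = ∑ c, jac τ p c a • pull τ (nab G c h) p := by
  have hJ := dt_jac hτ hp
  have hc := hh.comp (Nat_diff hτ hp)
  have h1 : dmt a (pull τ h) p = ((dmt a (jac τ) p)ᵀ * h (τ p) +
      (jac τ p)ᵀ * ∑ c, jac τ p c a • dmt c h (τ p)) * jac τ p +
      (jac τ p)ᵀ * h (τ p) * dmt a (jac τ) p := by
    have e : pull τ h = fun x => (jac τ x)ᵀ * h (τ x) * jac τ x := rfl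
    rw [e, dmt_mul (hJ.tr.mul hc) hJ, dmt_mul hJ.tr hc, dmt_tr, dmt_comp hh (Nat_diff hτ hp)]
  have h2 : (wm (pull τ G) a p)ᵀ * pull τ h p =
      (jac τ p * wm (pull τ G) a p)ᵀ * h (τ p) * jac τ p := by
    simp only [pull, Matrix.transpose_mul, mul_assoc]
  have h3 : pull τ h p * wm (pull τ G) a p =
      (jac τ p)ᵀ * h (τ p) * (jac τ p * wm (pull τ G) a p) := by
    simp only [pull, mul_assoc]
  rw [nab_eq, h1, h2, h3, w_pull hG hτ hp]
  simp only [pull, nab_eq, Fin.sum_univ_four, Matrix.transpose_add, Matrix.transpose_mul,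
    Matrix.transpose_smul, mul_add, add_mul, mul_sub, sub_mul, Matrix.mul_smul, Matrix.smul_mul,
    smul_sub, mul_assoc]
  abel

/-- `nab G a (∑ d, f d • k d) = ∑ d, (pd a (f d) • k d + f d • nab G a (k d))` at a point. -/
theorem nab_sum_smul (G : Tn) {f : Fin 4 → Fn} {k : Fin 4 → Tn}
    (hf : ∀ d, DifferentiableAt ℝ (f d) p) (hk : ∀ d, DT (k d) p) (a : Fin 4) :
    nab G a (fun x => ∑ d, f d x • k d x) p =
      ∑ d, (pd a (f d) p • k d p + f d p • nab G a (k d) p) := by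
  rw [nab_eq, dmt_sum (F := fun d x => f d x • k d x) fun d => DT.smul (hf d) (hk d)]
  simp only [dmt_smul (hf _) (hk _), nab_eq, Fin.sum_univ_four, mul_add, add_mul,
    Matrix.mul_smul, Matrix.smul_mul, smul_sub]
  abel

/-- Near `p`, `nab (pull τ G) b (pull τ h) = ∑ d, jac τ · d b • pull τ (nab G d h)` (`nab_pull`,
`C2T.ev`, continuity of `τ`, `U` open). Use `nab2_eq`, `nab_congr`, `nab_sum_smul`, `nab_pull` for
the field `nab G d h` (`DT.nab`, `dt_wm`), and the entry `(d, b)` of `w_pull`: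
`∑ e, J d e * w' e b = pd a (J d b) + ∑ c, ∑ e, J c a * w c d e * J e b`. -/
theorem nab2_pull (hG : Good G V) (hτ : LDif τ U V) (hp : p ∈ U) (hh : C2T h (τ p)) (a b : Fin 4) :
    nab2 (pull τ G) a b (pull τ h) p =
      ∑ c, ∑ d, (jac τ p c a * jac τ p d b) • pull τ (nab2 G c d h) p := by
  have hV := hτ.maps hp
  have hn : ∀ d, DT (nab G d h) (τ p) := fun d => DT.nab hh (dt_wm hG hV d)
  have e1 : nab (pull τ G) b (pull τ h) =ᶠ[𝓝 p]
      fun x => ∑ d, jac τ x d b • pull τ (nab G d h) x := by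
    filter_upwards [hτ.isOpen.mem_nhds hp, (Nat_diff hτ hp).continuousAt.eventually hh.ev]
      with x hx h1 using nab_pull hG hτ hx h1 b
  have h2 : ∀ d, ∑ e, jac τ p d e * wm (pull τ G) a p e b = pd a (fun x => jac τ x d b) p +
      ∑ e, (∑ c, jac τ p c a * wm G c (τ p) d e) * jac τ p e b := by
    intro d
    have h3 := congrFun (congrFun (w_pull hG hτ hp a) d) b
    simpa only [Matrix.mul_apply, Matrix.add_apply, dmt, Matrix.of_apply, Matrix.sum_apply,
      Matrix.smul_apply, smul_eq_mul] using h3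
  have h4 : ∑ e, wm (pull τ G) a p e b • nab (pull τ G) e (pull τ h) p =
      ∑ d, (∑ e, jac τ p d e * wm (pull τ G) a p e b) • pull τ (nab G d h) p := by
    simp only [nab_pull hG hτ hp hh.dt, Finset.smul_sum, Finset.sum_smul, smul_smul]
    rw [Finset.sum_comm]
    simp only [mul_comm]
  have h5 : ∀ c d, pull τ (nab2 G c d h) p = pull τ (nab G c (nab G d h)) p -
      ∑ e, wm G c (τ p) e d • pull τ (nab G e h) p := by
    intro c d
    simp only [pull, nab2_eq, mul_sub, sub_mul, Finset.mul_sum, Finset.sum_mul, Matrix.mul_smul,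
      Matrix.smul_mul]
  rw [nab2_eq, (nab_congr EventuallyEq.rfl e1 a).eq_of_nhds,
    nab_sum_smul (f := fun d x => jac τ x d b) _ (fun d => dt_jac hτ hp d b)
      (fun d => dt_pull hτ hp (hn d)), h4]
  simp only [h2, h5, nab_pull hG hτ hp (hn _), Fin.sum_univ_four]
  module

/-- `J * (Jᵀ * G * J)⁻¹ * Jᵀ = G⁻¹`. -/
theorem inv_pull {J G0 : Mat} (hJ : J.det ≠ 0) (c d : Fin 4) :
    ∑ a, ∑ b, (Jᵀ * G0 * J)⁻¹ a b * (J c a * J d b) = G0⁻¹ c d := by
  have hu : IsUnit J.det := isUnit_iff_ne_zero.2 hJ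
  have hu' : IsUnit Jᵀ.det := by rwa [Matrix.det_transpose]
  have h1 : J * (Jᵀ * G0 * J)⁻¹ * Jᵀ = G0⁻¹ := by
    rw [Matrix.mul_inv_rev, Matrix.mul_inv_rev, ← mul_assoc, Matrix.mul_nonsing_inv _ hu, one_mul,
      mul_assoc, Matrix.nonsing_inv_mul _ hu', mul_one]
  rw [← h1, Finset.sum_comm]
  simp only [Matrix.mul_apply (M := J * _), Matrix.mul_apply (M := J), Finset.sum_mul,
    Matrix.transpose_apply]
  exact Finset.sum_congr rfl fun b _ => Finset.sum_congr rfl fun a _ => by ring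

theorem rough_pull (hG : Good G V) (hτ : LDif τ U V) (hp : p ∈ U) (hh : C2T h (τ p)) :
    rough (pull τ G) (pull τ h) p = pull τ (rough G h) p := by
  have e : ∀ c d, (G (τ p))⁻¹ c d =
      ∑ a, ∑ b, (pull τ G p)⁻¹ a b * (jac τ p c a * jac τ p d b) :=
    fun c d => (inv_pull (hτ.det p hp) c d).symm
  have h1 : pull τ (rough G h) p = -∑ c, ∑ d, (G (τ p))⁻¹ c d • pull τ (nab2 G c d h) p := by
    simp only [pull, rough_eq, mul_neg, neg_mul, Finset.mul_sum, Finset.sum_mul, Matrix.mul_smul,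
      Matrix.smul_mul]
  rw [rough_eq, h1]
  simp only [nab2_pull hG hτ hp hh, Finset.smul_sum, smul_smul, e, Finset.sum_smul]
  rw [Nat_sum4]

theorem Nat_low (G : Tn) {h k : Tn} (e : h p = k p) :
    lich G h p - rough G h p = lich G k p - rough G k p := by
  have h2 : rring G h p = rring G k p := by
    ext i j
    simp only [rring_apply, e]
  rw [lich_eq, lich_eq, h2, e]
  abel

/-- Apply `lich_pull_sm` and `rough_pull` to the constant field `h0 = fun _ => h (τ p)`; by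
`lich_eq` and `rring_apply` the differences `lich - rough` for `h` and `h0` agree at `τ p`, and for
`pull τ h` and `pull τ h0` at `p`. -/
theorem lich_pull (hG : Good G V) (hτ : LDif τ U V) (hp : p ∈ U) (hh : C2T h (τ p)) :
    lich (pull τ G) (pull τ h) p = pull τ (lich G h) p := by
  have h1 := lich_pull_sm hG hτ hp (h := fun _ => h (τ p)) fun _ _ => contDiffOn_const
  have h2 := rough_pull hG hτ hp (h := fun _ => h (τ p)) fun _ _ => contDiffAt_const
  have h3 := Nat_low (p := p) (pull τ G) (h := pull τ h) (k := pull τ fun _ => h (τ p)) rfl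
  have h4 := Nat_low (p := τ p) G (h := h) (k := fun _ => h (τ p)) rfl
  rw [h1, h2, rough_pull hG hτ hp hh, sub_eq_iff_eq_add] at h3
  rw [h3]
  simp only [pull, sub_eq_iff_eq_add.1 h4, mul_add, add_mul, mul_sub, sub_mul]

theorem ipM_pull {J G0 : Mat} (hJ : J.det ≠ 0) (A B : Mat) :
    ipM (Jᵀ * G0 * J) (Jᵀ * A * J) (Jᵀ * B * J) = ipM G0 A B := by
  have hu : IsUnit J.det := isUnit_iff_ne_zero.2 hJ
  have hu' : IsUnit Jᵀ.det := by rwa [Matrix.det_transpose]
  have h1 : (Jᵀ * G0 * J)⁻¹ * (Jᵀ * A * J) * (Jᵀ * G0 * J)⁻¹ * (Jᵀ * B * J)ᵀ =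
      J⁻¹ * (G0⁻¹ * A * G0⁻¹ * Bᵀ * J) := by
    simp only [Matrix.mul_inv_rev, Matrix.transpose_mul, Matrix.transpose_transpose, mul_assoc,
      Matrix.nonsing_inv_mul_cancel_left _ _ hu', Matrix.mul_nonsing_inv_cancel_left _ _ hu]
  rw [ipM, ipM, h1, Matrix.trace_mul_comm, Matrix.mul_nonsing_inv_cancel_right _ _ hu]

theorem Nat_bil (G0 : Mat) (f g : Fin 4 → ℝ) (A B : Fin 4 → Mat) :
    ipM G0 (∑ c, f c • A c) (∑ d, g d • B d) = ∑ c, ∑ d, f c * g d * ipM G0 (A c) (B d) := by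
  simp only [ipM, Matrix.transpose_sum, Matrix.transpose_smul, Finset.mul_sum, Finset.sum_mul,
    Matrix.mul_smul, Matrix.smul_mul, Matrix.trace_sum, Matrix.trace_smul, smul_eq_mul]
  rw [Finset.sum_comm]
  exact Finset.sum_congr rfl fun c _ => Finset.sum_congr rfl fun d _ => by ring

/-- `ipD_eq`, `nab_pull`, bilinearity of `ipM`, `ipM_pull`, `inv_pull`. -/
theorem ipD_pull (hG : Good G V) (hτ : LDif τ U V) (hp : p ∈ U) (hh : DT h (τ p)) :
    ipD (pull τ G) (pull τ h) (pull τ h) p = ipD G h h (τ p) := by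
  have e : ∀ c d, (G (τ p))⁻¹ c d =
      ∑ a, ∑ b, (pull τ G p)⁻¹ a b * (jac τ p c a * jac τ p d b) :=
    fun c d => (inv_pull (hτ.det p hp) c d).symm
  have h1 : ∀ c d, ipM (pull τ G p) (pull τ (nab G c h) p)
      (pull τ (nab G d h) p) = ipM (G (τ p)) (nab G c h (τ p)) (nab G d h (τ p)) :=
    fun c d => ipM_pull (hτ.det p hp) _ _
  rw [ipD_eq, ipD_eq]
  simp only [nab_pull hG hτ hp hh, Nat_bil, h1, e, Finset.mul_sum, Finset.sum_mul, ← mul_assoc]
  rw [Nat_sum4]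

end Pool.Agent.Lib.MP_94aef8_gt.Kr
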