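import Pool.Agent.Lib.MP_94aef8_gt.K.Z

/-!
Derivatives of the derived functions, and the trace.
-/

open Real Set Filter Polynomial
open scoped Topology

namespace Pool.Agent.Lib.MP_94aef8_gt.Kr

namespace St

variable {s : St} {L C : ℝ}

/-! Each derivative: build a `HasDerivAt` for the defining expression with `add`, `sub`, `mul`,
`div`, `const_mul`, `hasDerivAt_id`, `hasDerivAt_pow` from the fields of `h` (state it for
`fun x => (unfolded expression)`, which is `s.P` by `rfl`), then `congr_deriv`,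
`unfold A2 B2 K2 T2 V2 P P1 S S1`, `field_simp`, `ring`, with `R ≠ 0`, `R - 1 ≠ 0`,
`R ^ 2 - R ≠ 0` (or rewrite `R ^ 2 - R = R * (R - 1)` first). All identities were checked by
computer algebra. -/

theorem OdeA_ne {R : ℝ} (hR : 1 < R) : R ≠ 0 ∧ R - 1 ≠ 0 ∧ R ^ 2 ≠ 0 ∧ R ^ 3 ≠ 0 ∧ R ^ 4 ≠ 0 ∧
    2 * R ≠ 0 ∧ 2 * R * (R - 1) ≠ 0 ∧ R ^ 2 - R = R * (R - 1) := by
  have h0 : 0 < R := one_pos.trans hR
  have h1 : 0 < R - 1 := sub_pos.2 hR
  refine ⟨h0.ne', h1.ne', ?_, ?_, ?_, ?_, ?_, by ring⟩ <;> positivity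

theorem Ode.OdeA_all (h : s.Ode L) {R : ℝ} (hR : 1 < R) : HasDerivAt s.A (s.A1 R) R ∧
    HasDerivAt s.B (s.B1 R) R ∧ HasDerivAt s.K (s.K1 R) R ∧ HasDerivAt s.T (s.T1 R) R ∧
    HasDerivAt s.V (s.V1 R) R ∧ HasDerivAt s.A1 (s.A2 L R) R ∧ HasDerivAt s.B1 (s.B2 L R) R ∧
    HasDerivAt s.K1 (s.K2 L R) R ∧ HasDerivAt s.T1 (s.T2 L R) R ∧ HasDerivAt s.V1 (s.V2 L R) R :=
  ⟨h.dA R hR, h.dB R hR, h.dK R hR, h.dT R hR, h.dV R hR, h.dA1 R hR, h.dB1 R hR, h.dK1 R hR,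
    h.dT1 R hR, h.dV1 R hR⟩

theorem Ode.dP (h : s.Ode L) {R : ℝ} (hR : 1 < R) : HasDerivAt s.P (s.P1 L R) R := by
  obtain ⟨r0, r1, r2, r3, r4, r5, r6, r7⟩ := OdeA_ne hR
  obtain ⟨a, b, k, t, v, a1, b1, k1, t1, v1⟩ := h.OdeA_all hR
  have i := hasDerivAt_id' R
  have p2 := hasDerivAt_pow 2 R
  refine HasDerivAt.congr_deriv
    (((b1.fun_add (((b.const_mul 2).fun_sub k).fun_div i r0)).fun_sub (v.fun_div p2 r2)).fun_add
    ((b.fun_sub a).fun_div ((i.const_mul 2).fun_mul (i.sub_const 1)) r6)) ?_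
  simp only [B2, P1, r7, Nat.cast_ofNat, Nat.add_one_sub_one]
  field_simp
  ring

theorem Ode.dP1 (h : s.Ode L) {R : ℝ} (hR : 1 < R) : HasDerivAt (s.P1 L)
    ((-2 * R * s.P1 L R + (L + 2 - 2 / R) * s.P R - 2 / R * s.S L R) / (R ^ 2 - R)) R := by
  obtain ⟨r0, r1, r2, r3, r4, r5, r6, r7⟩ := OdeA_ne hR
  obtain ⟨a, b, k, t, v, a1, b1, k1, t1, v1⟩ := h.OdeA_all hR
  have i := hasDerivAt_id' R
  have c := fun x : ℝ => hasDerivAt_const R x
  have p2 := hasDerivAt_pow 2 R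
  have p3 := hasDerivAt_pow 3 R
  refine HasDerivAt.congr_deriv
    (((((((((a.fun_neg.fun_div p2 r2).fun_sub (a1.fun_div (i.const_mul 2) r5)).fun_add (((((c
    L).fun_div i r0).fun_sub ((c 3).fun_div p2 r2)).fun_add ((c 2).fun_div i r0)).fun_mul
    b)).fun_sub (b1.fun_div (i.const_mul 2) r5)).fun_add ((((c 2).fun_div p2 r2).fun_sub ((c
    1).fun_div i r0)).fun_mul k)).fun_div (i.sub_const 1) r1).fun_sub (k1.fun_div i r0)).fun_sub
    ((v.const_mul 2).fun_div p3 r3)).fun_sub (v1.fun_div p2 r2)) ?_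
  simp only [A2, B2, K2, V2, P, P1, S, r7, Nat.cast_ofNat, Nat.add_one_sub_one]
  field_simp
  ring

theorem Ode.dS (h : s.Ode L) {R : ℝ} (hR : 1 < R) : HasDerivAt (s.S L) (s.S1 L R) R := by
  obtain ⟨r0, r1, r2, r3, r4, r5, r6, r7⟩ := OdeA_ne hR
  obtain ⟨a, b, k, t, v, a1, b1, k1, t1, v1⟩ := h.OdeA_all hR
  have i := hasDerivAt_id' R
  have p2 := hasDerivAt_pow 2 R
  refine HasDerivAt.congr_deriv
    ((((((i.sub_const 1).fun_div i r0).fun_mul v1).fun_add ((((i.const_mul 2).sub_const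
    1).fun_div p2 r2).fun_mul v)).fun_add (k.const_mul (L / 2))).fun_sub (t.div_const 2)) ?_
  simp only [V2, S1, r7, Nat.cast_ofNat, Nat.add_one_sub_one]
  field_simp
  ring

theorem Ode.dS1 (h : s.Ode L) {R : ℝ} (hR : 1 < R) : HasDerivAt (s.S1 L)
    ((-s.S1 L R + L * s.S L R + (2 - 2 * R) * L * s.P R) / (R ^ 2 - R)) R := by
  obtain ⟨r0, r1, r2, r3, r4, r5, r6, r7⟩ := OdeA_ne hR
  obtain ⟨a, b, k, t, v, a1, b1, k1, t1, v1⟩ := h.OdeA_all hR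
  have i := hasDerivAt_id' R
  have c := fun x : ℝ => hasDerivAt_const R x
  have p2 := hasDerivAt_pow 2 R
  have p3 := hasDerivAt_pow 3 R
  refine HasDerivAt.congr_deriv
    (((((((((c (-2 * L)).fun_div i r0).fun_mul b).fun_add (((c L).fun_div i r0).fun_mul
    k)).fun_add (k1.const_mul (L / 2))).fun_sub (t.fun_div i r0)).fun_sub (t1.div_const
    2)).fun_add (((((c L).fun_div p2 r2).fun_sub ((c 2).fun_div p3 r3)).fun_add ((c 2).fun_div p2
    r2)).fun_mul v)).fun_add ((((c 2).fun_div i r0).fun_sub ((c 2).fun_div p2 r2)).fun_mul v1)) ?_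
  simp only [K2, T2, V2, P, S, S1, r7, Nat.cast_ofNat, Nat.add_one_sub_one]
  field_simp
  ring

theorem Ode.dY (h : s.Ode L) {R : ℝ} (hR : 1 < R) : HasDerivAt (s.Y L) (s.Y1 L R) R := by
  obtain ⟨r0, r1, r2, r3, r4, r5, r6, r7⟩ := OdeA_ne hR
  obtain ⟨a, b, k, t, v, a1, b1, k1, t1, v1⟩ := h.OdeA_all hR
  have i := hasDerivAt_id' R
  have p2 := hasDerivAt_pow 2 R
  refine HasDerivAt.congr_deriv
    (((i.sub_const 1).fun_div i r0).fun_mul (((a.const_mul ((2 * L) * (L - 2))).fun_sub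
    ((v.const_mul (2 * (L - 2))).fun_div p2 r2)).fun_add t1)) ?_
  simp only [T2, Y1, r7, Nat.cast_ofNat, Nat.add_one_sub_one]
  field_simp
  ring

theorem Ode.dY1 (h : s.Ode L) {R : ℝ} (hR : 1 < R) :
    HasDerivAt (fun x => x ^ 3 / (x - 1) * s.Y1 L x) (L * R ^ 2 / (R - 1) ^ 2 * s.Y L R +
      (2 - L) / (R - 1) ^ 2 * (L * (s.A R + s.B R + s.K R) - 2 * s.S L R)) R := by
  obtain ⟨r0, r1, r2, r3, r4, r5, r6, r7⟩ := OdeA_ne hR
  obtain ⟨a, b, k, t, v, a1, b1, k1, t1, v1⟩ := h.OdeA_all hR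
  have i := hasDerivAt_id' R
  have c := fun x : ℝ => hasDerivAt_const R x
  have p2 := hasDerivAt_pow 2 R
  have p3 := hasDerivAt_pow 3 R
  have p4 := hasDerivAt_pow 4 R
  refine HasDerivAt.congr_deriv
    ((p3.fun_div (i.sub_const 1) r1).fun_mul ((((((((c ((2 * L) * (L - 2))).fun_div p2
    r2).fun_mul a).fun_add ((((i.sub_const 1).const_mul ((2 * L) * (L - 2))).fun_div i
    r0).fun_mul a1)).fun_add (((c (L - 2)).fun_div p2 r2).fun_mul t)).fun_sub ((((i.sub_const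
    1).const_mul 2).fun_div p2 r2).fun_mul t1)).fun_sub (((c (2 * (L - 2))).fun_div p4
    r4).fun_mul v)).fun_sub ((((i.sub_const 1).const_mul (2 * (L - 2))).fun_div p3 r3).fun_mul
    v1))) ?_
  simp only [A2, T2, V2, Y, Y1, S, r7, Nat.cast_ofNat, Nat.add_one_sub_one]
  field_simp
  ring

/-- `τ = A + B + K` solves `((R ^ 2 - R) τ')' = L τ`; `zlog2` with `a = R ^ 2 - R ≤ 2 (R - 1)` on
`(1, 2]`, `lim_sqrt`, `abs_le_of_sqrt`; then `der_zero`. -/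
theorem Ode.tau (h : s.Ode L) (hb : s.Bd C) (hL : 0 ≤ L) : ∀ R, 1 < R →
    s.A R + s.B R + s.K R = 0 ∧ s.A1 R + s.B1 R + s.K1 R = 0 := by
  have d1 : ∀ R, 1 < R → HasDerivAt (fun x => s.A x + s.B x + s.K x)
      (s.A1 R + s.B1 R + s.K1 R) R := fun R hR => ((h.dA R hR).fun_add (h.dB R hR)).fun_add (h.dK R hR)
  have b0 : ∀ R, 1 < R → √R * |s.A R + s.B R + s.K R| ≤ 3 * C := fun R hR => by
    have h1 := mul_le_mul_of_nonneg_left (abs_add_three (s.A R) (s.B R) (s.K R)) (sqrt_nonneg R)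
    linarith [hb.bA R hR, hb.bB R hR, hb.bK R hR]
  have z := zlog2 (a := fun x => x ^ 2 - x) (c := fun _ => L) (C := max 2 (3 * C)) d1
    (fun R hR => by
      obtain ⟨r0, r1, -, -, -, -, -, r7⟩ := OdeA_ne hR
      refine HasDerivAt.congr_deriv (((hasDerivAt_pow 2 R).fun_sub (hasDerivAt_id' R)).fun_mul
        (((h.dA1 R hR).fun_add (h.dB1 R hR)).fun_add (h.dK1 R hR))) ?_
      simp only [A2, B2, K2, r7, Nat.cast_ofNat, Nat.add_one_sub_one]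
      field_simp
      ring)
    (fun _ _ => hL) (fun R hR => by nlinarith)
    (fun R hR h2 => by nlinarith [le_max_left 2 (3 * C)])
    (fun R hR _ => (abs_le_of_sqrt hR (b0 R hR)).trans (le_max_right _ _)) (lim_sqrt b0)
  exact fun R hR => ⟨z R hR, der_zero z hR (d1 R hR)⟩

end St

end Pool.Agent.Lib.MP_94aef8_gt.Kr
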