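import Pool.Agent.Lib.MP_94aef8_gt.K.OdeA

/-!
The divergence vanishes.
-/

open Real Set Filter Polynomial
open scoped Topology

namespace Pool.Agent.Lib.MP_94aef8_gt.Kr

namespace St

variable {s : St} {L C : ℝ}

/-- `sg * P = sg B1 + sg (2 B - K) / R - sg V / R ^ 2 + (B - A) / (2 sg)` as `sg ^ 2 = R (R - 1)`;
use `sg ≤ R`, `|B|, |K| ≤ C`, `|V| ≤ C R`. -/
theorem Bd.bP (hb : s.Bd C) {R : ℝ} (hR : 1 < R) : sg R * |s.P R| ≤ 6 * C := by
  have g0 := sg_pos hR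
  have g1 := sg_le hR
  have g2 := sg_sq hR
  have hR0 : 0 < R := by linarith
  have h3 : R - 1 ≠ 0 := by linarith
  have e : sg R * s.P R = sg R * s.B1 R + sg R / R * (2 * s.B R - s.K R) -
      sg R / R * (s.V R / R) + (s.B R - s.A R) / sg R / 2 := by
    rw [P, show 2 * R * (R - 1) = 2 * sg R ^ 2 by rw [g2]; ring]
    field_simp
  have t0 : 0 ≤ sg R / R := by positivity
  have t1 : sg R / R ≤ 1 := (div_le_one hR0).2 g1
  have a1 : |sg R * s.B1 R| ≤ C := by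
    rw [abs_mul, abs_of_pos g0]
    exact hb.bB1 R hR
  have a2 := abs_le.1 (abs_le_of_sqrt hR (hb.bB R hR))
  have a3 := abs_le.1 (abs_le_of_sqrt hR (hb.bK R hR))
  have a4 : |s.V R / R| ≤ C := by
    rw [abs_div, abs_of_pos hR0, div_le_iff₀ hR0]
    exact hb.bV R hR
  have a5 : |(s.B R - s.A R) / sg R| ≤ C := by
    rw [abs_div, abs_of_pos g0, div_le_iff₀ g0]
    exact hb.bBA R hR
  have a6 : |sg R / R * (2 * s.B R - s.K R)| ≤ 3 * C := by
    rw [abs_mul, abs_of_nonneg t0]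
    exact (mul_le_of_le_one_left (abs_nonneg _) t1).trans (abs_le.2 ⟨by linarith, by linarith⟩)
  have a7 : |sg R / R * (s.V R / R)| ≤ C := by
    rw [abs_mul, abs_of_nonneg t0]
    exact (mul_le_of_le_one_left (abs_nonneg _) t1).trans a4
  rw [← abs_of_pos g0, ← abs_mul, e]
  rw [abs_le] at a1 a5 a6 a7 ⊢
  constructor <;> linarith [a1.1, a1.2, a5.1, a5.2, a6.1, a6.2, a7.1, a7.2]

/-- `S = [(R - 1) / R V1 + (3 - 2 R) / (2 R ^ 2) V] + (6 R - 5) / (2 R ^ 2) V + L / 2 K - T / 2`. -/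
theorem Bd.bS (hb : s.Bd C) (hL : 0 ≤ L) {R : ℝ} (hR : 1 < R) : |s.S L R| ≤ (5 + L) * C := by
  have hR0 : 0 < R := by linarith
  have e : s.S L R = ((R - 1) / R * s.V1 R + (3 - 2 * R) / (2 * R ^ 2) * s.V R) +
      (6 * R - 5) / (2 * R) * (s.V R / R) + L * s.K R / 2 - s.T R / 2 := by
    rw [S]
    field_simp
    ring
  have a1 := abs_le.1 (hb.bV1 R hR)
  have a2 := abs_le.1 (abs_le_of_sqrt hR (hb.bT R hR))
  have a4 : |s.V R / R| ≤ C := by
    rw [abs_div, abs_of_pos hR0, div_le_iff₀ hR0]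
    exact hb.bV R hR
  have hC : 0 ≤ C := (abs_nonneg _).trans a4
  have a3 : |L * s.K R| ≤ L * C := by
    rw [abs_mul, abs_of_nonneg hL]
    exact mul_le_mul_of_nonneg_left (abs_le_of_sqrt hR (hb.bK R hR)) hL
  have a5 : |(6 * R - 5) / (2 * R) * (s.V R / R)| ≤ 3 * C := by
    rw [abs_mul, abs_of_nonneg (div_nonneg (by linarith) (by linarith))]
    exact mul_le_mul ((div_le_iff₀ (by linarith)).2 (by linarith)) a4 (abs_nonneg _) (by norm_num)
  have a6 := mul_nonneg hL hC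
  rw [e]
  rw [abs_le] at a3 a5 ⊢
  constructor <;> linarith [a1.1, a1.2, a2.1, a2.2, a3.1, a3.2, a5.1, a5.2]

theorem OdeB_sq (hb : s.Bd C) {R : ℝ} (hR : 1 < R) : R * (R - 1) * s.P R ^ 2 ≤ (6 * C) ^ 2 := by
  rw [← sg_sq hR, ← sq_abs (s.P R), ← mul_pow]
  exact pow_le_pow_left₀ (mul_nonneg (sg_pos hR).le (abs_nonneg _)) (hb.bP hR) 2

theorem OdeB_main {P P1 P2 S S1 S2 : ℝ → ℝ} {α K : ℝ} (hα : 0 < α)
    (dP : ∀ R, 1 < R → HasDerivAt P (P1 R) R) (dP1 : ∀ R, 1 < R → HasDerivAt P1 (P2 R) R)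
    (dS : ∀ R, 1 < R → HasDerivAt S (S1 R) R) (dS1 : ∀ R, 1 < R → HasDerivAt S1 (S2 R) R)
    (hK : ∀ R, 1 < R → α * (R * (R - 1) * P R ^ 2) + S R ^ 2 ≤ K)
    (hF : ∀ R, 1 < R → 0 ≤ α * (P R ^ 2 / R ^ 2 + 2 * (R - 1) / R * P R * P1 R +
      4 * (R - 1) * P R * P1 R + 2 * (R - 1) ^ 2 * (P1 R ^ 2 + P R * P2 R)) +
      2 * S R * S1 R / R ^ 2 + 2 * (R - 1) / R * (S1 R ^ 2 + S R * S2 R) -
      2 * (2 - R) / R ^ 3 * S R ^ 2 - 4 * (R - 1) / R ^ 2 * S R * S1 R) :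
    ∀ R, 1 < R → P R = 0 ∧ S R = 0 := by
  have h1 : ∀ R, 1 < R → 0 ≤ α * ((R - 1) / R * P R ^ 2) := fun R hR =>
    mul_nonneg hα.le (mul_nonneg (div_nonneg (by linarith) (by linarith)) (sq_nonneg _))
  have h0 : ∀ R, 1 < R → 0 ≤ α * ((R - 1) / R * P R ^ 2) + S R ^ 2 / R ^ 2 := fun R hR =>
    add_nonneg (h1 R hR) (by positivity)
  have h2 : ∀ R, 1 < R → R * (α * ((R - 1) / R * P R ^ 2) + S R ^ 2 / R ^ 2) ≤ K := by
    intro R hR
    have h3 : R ≠ 0 := by linarith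
    have h4 : R * (R * (α * ((R - 1) / R * P R ^ 2) + S R ^ 2 / R ^ 2)) =
        α * (R * (R - 1) * P R ^ 2) + S R ^ 2 := by field_simp
    have h5 := mul_nonneg (zero_le_one.trans hR.le) (h0 R hR)
    nlinarith [hK R hR]
  have key := zlog (a := fun R => R ^ 2 - R) (C := max 2 K)
    (w := fun R => α * ((R - 1) / R * P R ^ 2) + S R ^ 2 / R ^ 2)
    (w1 := fun R => α * (P R ^ 2 / R ^ 2 + 2 * (R - 1) / R * P R * P1 R) +
      2 * S R * S1 R / R ^ 2 - 2 * S R ^ 2 / R ^ 3) ?_ ?_ hF h0 (fun R hR => by nlinarith)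
    (fun R hR h => ?_) (fun R hR _ => ?_) (lim_inv (C := K) fun R hR => ?_)
  · intro R hR
    have h3 := key R hR
    have h4 : 0 ≤ S R ^ 2 / R ^ 2 := by positivity
    have h5 : α * ((R - 1) / R * P R ^ 2) = 0 := by linarith [h1 R hR]
    have h6 : S R ^ 2 / R ^ 2 = 0 := by linarith
    have h7 : R ≠ 0 := by linarith
    have h8 : R - 1 ≠ 0 := by linarith
    exact ⟨by simpa [hα.ne', h7, h8] using h5, by simpa [h7] using h6⟩
  · intro R hR
    have h3 : R ≠ 0 := by linarith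
    have i := hasDerivAt_id' R
    refine ((((((i.sub_const 1).fun_div i h3).fun_mul ((dP R hR).fun_pow 2)).const_mul α).fun_add
      (((dS R hR).fun_pow 2).fun_div (i.fun_pow 2) (pow_ne_zero 2 h3)))).congr_deriv ?_
    norm_num
    field_simp
    ring
  · intro R hR
    have h3 : R ≠ 0 := by linarith
    have i := hasDerivAt_id' R
    have p := dP R hR
    have q := dS R hR
    refine (((i.fun_pow 2).fun_sub i).fun_mul ((((((p.fun_pow 2).fun_div (i.fun_pow 2)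
      (pow_ne_zero 2 h3)).fun_add ((((((i.sub_const 1).const_mul 2).fun_div i h3).fun_mul p).fun_mul
      (dP1 R hR)))).const_mul α).fun_add ((((q.const_mul 2).fun_mul (dS1 R hR)).fun_div
      (i.fun_pow 2) (pow_ne_zero 2 h3)))).fun_sub ((((q.fun_pow 2).const_mul 2).fun_div
      (i.fun_pow 3) (pow_ne_zero 3 h3))))).congr_deriv ?_
    norm_num
    field_simp
    ring
  · have := mul_le_mul_of_nonneg_right (le_max_left 2 K) (by linarith : 0 ≤ R - 1)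
    nlinarith
  · refine le_trans ?_ (le_max_right 2 K)
    nlinarith [h2 R hR, h0 R hR]
  · rw [abs_of_nonneg (h0 R (by linarith))]
    exact h2 R (by linarith)

/-- `zlog` for `w = L (R - 1) / R P ^ 2 + S ^ 2 / R ^ 2`, `a = R ^ 2 - R`,
`w1 = L (P ^ 2 / R ^ 2 + 2 (R - 1) / R P P1) + 2 S S1 / R ^ 2 - 2 S ^ 2 / R ^ 3`. With `f = (R - 1) / R`
the derivative of `a w1` is the sum of squares
`2 R ^ 2 (L f ^ 2 (P1 + P / (2 R (R - 1))) ^ 2 + f / R ^ 2 (S1 - S / R) ^ 2 + f / R ^ 2 (L P - S / R) ^ 2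
+ L (P / (2 R ^ 2)) ^ 2) + L (2 f P - S / R) ^ 2 + (L - 2) S ^ 2 / R ^ 2` (treat `P, P1, S, S1` as opaque
functions, only `dP, dP1, dS, dS1` are used). Since `(R - 1) / R P ^ 2 = (sg P) ^ 2 / R ^ 2`,
`bP` and `bS` give `R ^ 2 w ≤ const`. Then `w = 0` gives `P = 0`, `S = 0`, and `der_zero`. -/
theorem Ode.om (h : s.Ode L) (hb : s.Bd C) (hL : 2 ≤ L) : ∀ R, 1 < R →
    s.P R = 0 ∧ s.P1 L R = 0 ∧ s.S L R = 0 ∧ s.S1 L R = 0 := by
  have key := OdeB_main (α := L) (K := L * (6 * C) ^ 2 + ((5 + L) * C) ^ 2) (by linarith)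
    (fun R hR => h.dP hR) (fun R hR => h.dP1 hR) (fun R hR => h.dS hR) (fun R hR => h.dS1 hR)
    (fun R hR => ?_) fun R hR => ?_
  · exact fun R hR => ⟨(key R hR).1, der_zero (fun x hx => (key x hx).1) hR (h.dP hR),
      (key R hR).2, der_zero (fun x hx => (key x hx).2) hR (h.dS hR)⟩
  · exact add_le_add (mul_le_mul_of_nonneg_left (OdeB_sq hb hR) (by linarith))
      (sq_le_sq' (abs_le.1 (hb.bS (by linarith) hR)).1 (abs_le.1 (hb.bS (by linarith) hR)).2)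
  · generalize s.P R = p, s.P1 L R = p1, s.S L R = q, s.S1 L R = q1
    have hR0 : 0 < R := by linarith
    have h1 : 0 < R - 1 := by linarith
    have h2 : 0 ≤ L - 2 := by linarith
    have h3 : 0 < L := by linarith
    refine le_of_le_of_eq (b := 2 * R ^ 2 * (L * ((R - 1) / R) ^ 2 * (p1 + p / (2 * R * (R - 1))) ^ 2 +
      (R - 1) / R / R ^ 2 * (q1 - q / R) ^ 2 + (R - 1) / R / R ^ 2 * (L * p - q / R) ^ 2 +
      L * (p / (2 * R ^ 2)) ^ 2) + L * (2 * ((R - 1) / R) * p - q / R) ^ 2 +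
      (L - 2) * (q ^ 2 / R ^ 2)) (by positivity) ?_
    rw [show R ^ 2 - R = R * (R - 1) by ring]
    field_simp
    ring

/-- Here `V1 = 0` (`der_zero`), so `S 0 = 0`. `zlog` for `w = (R - 1) / R P ^ 2`, `a = R ^ 2 - R`,
`w1 = P ^ 2 / R ^ 2 + 2 (R - 1) / R P P1`; the derivative of `a w1` is
`2 R ^ 2 (f ^ 2 (P1 + P / (2 R (R - 1))) ^ 2 + (P / (2 R ^ 2)) ^ 2) + 4 f ^ 2 P ^ 2`. -/
theorem Ode.om0 (h : s.Ode 0) (hb : s.Bd C) (hT : ∀ R, 1 < R → s.T R = 0)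
    (hV : ∀ R, 1 < R → s.V R = 0) : ∀ R, 1 < R → s.P R = 0 ∧ s.P1 0 R = 0 := by
  have hS : ∀ R, 1 < R → s.S 0 R = 0 := fun R hR => by
    simp [S, hT R hR, hV R hR, der_zero hV hR (h.dV R hR)]
  have key := OdeB_main (α := 1) (K := (6 * C) ^ 2) (S := fun _ => 0) (S1 := fun _ => 0)
    (S2 := fun _ => 0) one_pos (fun R hR => h.dP hR) (fun R hR => h.dP1 hR)
    (fun R _ => hasDerivAt_const R 0) (fun R _ => hasDerivAt_const R 0)
    (fun R hR => by simpa using OdeB_sq hb hR) fun R hR => ?_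
  · exact fun R hR => ⟨(key R hR).1, der_zero (fun x hx => (key x hx).1) hR (h.dP hR)⟩
  · rw [hS R hR]
    generalize s.P R = p, s.P1 0 R = p1
    have hR0 : 0 < R := by linarith
    have h1 : 0 < R - 1 := by linarith
    refine le_of_le_of_eq (b := 2 * R ^ 2 * (((R - 1) / R) ^ 2 * (p1 + p / (2 * R * (R - 1))) ^ 2 +
      (p / (2 * R ^ 2)) ^ 2) + 4 * ((R - 1) / R) ^ 2 * p ^ 2) (by positivity) ?_
    rw [show R ^ 2 - R = R * (R - 1) by ring]
    field_simp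
    ring

end St

end Pool.Agent.Lib.MP_94aef8_gt.Kr
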