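import Pool.Agent.Lib.MP_94aef8_gt.K.PolT

/-!
The covariant derivative in polar coordinates.
-/

open scoped ContDiff Topology
open Matrix Filter Set Real

namespace Pool.Agent.Lib.MP_94aef8_gt.Kr

variable {x : E4} {a b p q v u : Fn}

/-! `nab_eq`, `wm_Gp`, `dmt_tk0`, `dmt_tk1`, `dmt_tk2`; entrywise `simp [Wp, tk, Matrix.mul_apply,
Fin.sum_univ_four]`, `field_simp`, `ring`. -/

theorem nab_tk0 (h : Ax6 a b p q v u) (hx : x ∈ U2) : nab Gp 0 (tk a b p q v u) x =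
    !![x 0 / (x 0 - 1) * pd 0 b x, pd 0 v x + (3 - 2 * x 0) / (2 * x 0 * (x 0 - 1)) * v x, 0, 0;
      pd 0 v x + (3 - 2 * x 0) / (2 * x 0 * (x 0 - 1)) * v x, x 0 ^ 2 * pd 0 p x, 0, 0;
      0, 0, x 0 ^ 2 * sin (x 1) ^ 2 * pd 0 q x,
        pd 0 u x + (1 - 2 * x 0) / (2 * x 0 * (x 0 - 1)) * u x;
      0, 0, pd 0 u x + (1 - 2 * x 0) / (2 * x 0 * (x 0 - 1)) * u x,
        (x 0 - 1) / x 0 * pd 0 a x] := by
  have h0 : x 0 ≠ 0 := (one_pos.trans hx.1).ne'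
  have h1 : x 0 - 1 ≠ 0 := (sub_pos.2 hx.1).ne'
  have h2 := (U2.sin_pos hx).ne'
  rw [nab_eq, wm_Gp hx, dmt_tk0 h hx.1]
  ext i j
  fin_cases i <;> fin_cases j <;> simp [Wp, tk, Matrix.mul_apply, Fin.sum_univ_four] <;>
    field_simp <;> ring

theorem nab_tk1 (h : Ax6 a b p q v u) (hx : x ∈ U2) : nab Gp 1 (tk a b p q v u) x =
    !![x 0 / (x 0 - 1) * pd 1 b x - 2 / x 0 * v x, pd 1 v x + x 0 * (b x - p x), 0, 0;
      pd 1 v x + x 0 * (b x - p x), x 0 ^ 2 * pd 1 p x + 2 * (x 0 - 1) * v x, 0, 0;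
      0, 0, x 0 ^ 2 * sin (x 1) ^ 2 * pd 1 q x, pd 1 u x - cos (x 1) / sin (x 1) * u x;
      0, 0, pd 1 u x - cos (x 1) / sin (x 1) * u x, (x 0 - 1) / x 0 * pd 1 a x] := by
  have h0 : x 0 ≠ 0 := (one_pos.trans hx.1).ne'
  have h1 : x 0 - 1 ≠ 0 := (sub_pos.2 hx.1).ne'
  have h2 := (U2.sin_pos hx).ne'
  rw [nab_eq, wm_Gp hx, dmt_tk1 h hx.1]
  ext i j
  fin_cases i <;> fin_cases j <;> simp [Wp, tk, Matrix.mul_apply, Fin.sum_univ_four] <;>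
    field_simp <;> ring

theorem nab_tk2 (h : Ax6 a b p q v u) (hx : x ∈ U2) : nab Gp 2 (tk a b p q v u) x =
    !![0, 0, x 0 * sin (x 1) ^ 2 * (b x - q x) + cos (x 1) * sin (x 1) * v x, -u x / x 0;
      0, 0, x 0 ^ 2 * cos (x 1) * sin (x 1) * (p x - q x) + (x 0 - 1) * sin (x 1) ^ 2 * v x,
        -(cos (x 1) / sin (x 1) * u x);
      x 0 * sin (x 1) ^ 2 * (b x - q x) + cos (x 1) * sin (x 1) * v x,
        x 0 ^ 2 * cos (x 1) * sin (x 1) * (p x - q x) + (x 0 - 1) * sin (x 1) ^ 2 * v x, 0, 0;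
      -u x / x 0, -(cos (x 1) / sin (x 1) * u x), 0, 0] := by
  have h0 : x 0 ≠ 0 := (one_pos.trans hx.1).ne'
  have h1 : x 0 - 1 ≠ 0 := (sub_pos.2 hx.1).ne'
  have h2 := (U2.sin_pos hx).ne'
  rw [nab_eq, wm_Gp hx, (dmt_tk2 h hx.1).1]
  ext i j
  fin_cases i <;> fin_cases j <;> simp [Wp, tk, Matrix.mul_apply, Fin.sum_univ_four] <;>
    field_simp <;> ring

theorem nab_tk3 (h : Ax6 a b p q v u) (hx : x ∈ U2) : nab Gp 3 (tk a b p q v u) x =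
    !![0, 0, -u x / (2 * x 0 * (x 0 - 1)), (b x - a x) / (2 * x 0 ^ 2);
      0, 0, 0, (x 0 - 1) / (2 * x 0 ^ 3) * v x;
      -u x / (2 * x 0 * (x 0 - 1)), 0, 0, 0;
      (b x - a x) / (2 * x 0 ^ 2), (x 0 - 1) / (2 * x 0 ^ 3) * v x, 0, 0] := by
  have h0 : x 0 ≠ 0 := (one_pos.trans hx.1).ne'
  have h1 : x 0 - 1 ≠ 0 := (sub_pos.2 hx.1).ne'
  have h2 := (U2.sin_pos hx).ne'
  rw [nab_eq, wm_Gp hx, (dmt_tk2 h hx.1).2]
  ext i j
  fin_cases i <;> fin_cases j <;> simp [Wp, tk, Matrix.mul_apply, Fin.sum_univ_four] <;>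
    field_simp <;> ring

/-- The operator in terms of the jets: `lich_eq`, `ric_Gp`, `rough_eq`, `inv_Gp` (diagonal, so only
`nab2 e e` occurs), `nab2_eq`, `nab_nab` (with `c2_tk`, `dt_wmGp`), `dmt_wm`, `wm_Gp`. -/
theorem lich_tk (h : Ax6 a b p q v u) (hx : x ∈ U2) : lich Gp (tk a b p q v u) x =
    -∑ e, Hp x e e • (dmt e (dmt e (tk a b p q v u)) x -
      ((![Wr (x 0) (x 1) e, Wt (x 0) (x 1) e, 0, 0] e)ᵀ * tk a b p q v u x +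
        (Wp (x 0) (x 1) e)ᵀ * dmt e (tk a b p q v u) x) -
      (dmt e (tk a b p q v u) x * Wp (x 0) (x 1) e +
        tk a b p q v u x * ![Wr (x 0) (x 1) e, Wt (x 0) (x 1) e, 0, 0] e) -
      (Wp (x 0) (x 1) e)ᵀ * nab Gp e (tk a b p q v u) x -
      nab Gp e (tk a b p q v u) x * Wp (x 0) (x 1) e -
      ∑ d, Wp (x 0) (x 1) e d e • nab Gp d (tk a b p q v u) x) -
    (2 : ℝ) • rring Gp (tk a b p q v u) x := by
  rw [lich_eq, ric_Gp hx, rough_eq, inv_Gp hx]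
  simp only [Matrix.zero_mul, Matrix.mul_zero, add_zero]
  congr 2
  refine Finset.sum_congr rfl fun e _ => ?_
  rw [Finset.sum_eq_single e (fun d _ hd => by rw [Hp, diagonal_apply_ne' _ hd, zero_smul])
    fun he => absurd (Finset.mem_univ e) he, nab2_eq, nab_nab (c2_tk h hx.1) (dt_wmGp hx e),
    dmt_wm hx, wm_Gp hx]

end Pool.Agent.Lib.MP_94aef8_gt.Kr
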