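import Pool.Agent.Lib.MP_94aef8_gt.K.PolW

/-!
The derivatives of a tensor field given by six functions of two variables.
-/

open scoped ContDiff Topology
open Matrix Filter Set Real

namespace Pool.Agent.Lib.MP_94aef8_gt.Kr

variable {x : E4} {c a b p q v u : Fn}

theorem Ax.at (hc : Ax c) (hx : x ∈ U1) : ContDiffAt ℝ 2 c x :=
  hc.sm.contDiffAt (open_U1.mem_nhds hx)

/-- The function `t ↦ c (x + t • bas i)` is constant for `i = 2, 3` and has derivative `pd i c x`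
at `0` (`HasFDerivAt.comp_hasDerivAt`). -/
theorem Ax.pd2 (hc : Ax c) (hx : x ∈ U1) : pd 2 c x = 0 ∧ pd 3 c x = 0 := by
  have key : ∀ i : Fin 4, bas i 0 = 0 → bas i 1 = 0 → pd i c x = 0 := by
    intro i h0 h1
    have h2 : HasDerivAt (fun t : ℝ => x + t • bas i) (bas i) 0 := by
      simpa using ((hasDerivAt_id (0 : ℝ)).smul_const (bas i)).const_add x
    have h3 : HasFDerivAt c (fderiv ℝ c x) (x + (0 : ℝ) • bas i) := by
      simpa using ((hc.at hx).differentiableAt (by simp)).hasFDerivAt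
    have h4 := h3.comp_hasDerivAt (0 : ℝ) h2
    have h5 : (c ∘ fun t : ℝ => x + t • bas i) = fun _ => c x :=
      funext fun t => hc.dep _ _ (by simp [h0]) (by simp [h1])
    rw [h5] at h4
    exact h4.unique (hasDerivAt_const _ _)
  exact ⟨key 2 (by simp [bas]) (by simp [bas]), key 3 (by simp [bas]) (by simp [bas])⟩

theorem PolT_mk (R θ : ℝ) : mk4 R θ 0 0 = R • bas 0 + θ • bas 1 := by
  ext i
  fin_cases i <;> simp [bas]

theorem PolT_dr {f : Fn} {R θ : ℝ} (hf : DifferentiableAt ℝ f (mk4 R θ 0 0)) :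
    HasDerivAt (fun r => f (mk4 r θ 0 0)) (pd 0 f (mk4 R θ 0 0)) R := by
  have h : HasDerivAt (fun r : ℝ => mk4 r θ 0 0) (bas 0) R := by
    simpa [PolT_mk] using ((hasDerivAt_id R).smul_const (bas 0)).add_const (θ • bas 1)
  exact hf.hasFDerivAt.comp_hasDerivAt R h

theorem PolT_dt {f : Fn} {R θ : ℝ} (hf : DifferentiableAt ℝ f (mk4 R θ 0 0)) :
    HasDerivAt (fun t => f (mk4 R t 0 0)) (pd 1 f (mk4 R θ 0 0)) θ := by
  have h : HasDerivAt (fun t : ℝ => mk4 R t 0 0) (bas 1) θ := by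
    simpa [PolT_mk] using ((hasDerivAt_id θ).smul_const (bas 1)).const_add (R • bas 0)
  exact hf.hasFDerivAt.comp_hasDerivAt θ h

theorem PolT_ct {f : Fn} (hf : ∀ y ∈ U1, ContinuousAt f y) :
    Ct fun R θ => f (mk4 R θ 0 0) := by
  have h : Continuous fun z : ℝ × ℝ => mk4 z.1 z.2 0 0 := by
    simp only [PolT_mk]
    fun_prop
  intro z hz
  exact (ContinuousAt.comp (f := fun z : ℝ × ℝ => mk4 z.1 z.2 0 0) (hf _ hz.1)
    h.continuousAt).continuousWithinAt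

theorem PolT_c2 {f : Fn} (hf : ContDiffAt ℝ 2 f x) (i : Fin 4) : ContinuousAt (pd i (pd i f)) x :=
  (((c1_pd hf i).fderiv_right (m := 0) (by norm_num)).clm_apply contDiffAt_const).continuousAt

/-- For `i = 0`: `r ↦ mk4 r θ 0 0` has derivative `bas 0`; `HasFDerivAt.comp_hasDerivAt`,
`diff_pd`. Continuity: `(R, θ) ↦ mk4 R θ 0 0` is continuous and maps `Ioi 1 ×ˢ univ` to `U1`;
`pd i c` is `C^1` on `U1` (`c1_pd`), so `pd i (pd i c)` is continuous there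
(`ContDiffAt.fderiv_right`, `clm_apply`). -/
theorem Ax.ok (hc : Ax c) : (sl c).OK := by
  have h : ∀ R θ : ℝ, 1 < R → ContDiffAt ℝ 2 c (mk4 R θ 0 0) := fun R θ hR => hc.at hR
  exact ⟨fun R θ hR => PolT_dr ((h R θ hR).differentiableAt (by simp)),
    fun R θ hR => PolT_dr (diff_pd (h R θ hR) 0),
    fun R θ hR => PolT_dt ((h R θ hR).differentiableAt (by simp)),
    fun R θ hR => PolT_dt (diff_pd (h R θ hR) 1),
    PolT_ct fun y hy => (hc.at hy).continuousAt,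
    PolT_ct fun y hy => (c1_pd (hc.at hy) 0).continuousAt,
    PolT_ct fun y hy => PolT_c2 (hc.at hy) 0,
    PolT_ct fun y hy => (c1_pd (hc.at hy) 1).continuousAt,
    PolT_ct fun y hy => PolT_c2 (hc.at hy) 1⟩

theorem c2_tk (h : Ax6 a b p q v u) (hx : x ∈ U1) : C2T (tk a b p q v u) x := by
  have h1 : (1 : ℝ) < x 0 := hx
  have c0 : ContDiffAt ℝ 2 (fun y : E4 => y 0) x :=
    (EuclideanSpace.proj (𝕜 := ℝ) (0 : Fin 4)).contDiff.contDiffAt
  have c1 : ContDiffAt ℝ 2 (fun y : E4 => y 1) x :=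
    (EuclideanSpace.proj (𝕜 := ℝ) (1 : Fin 4)).contDiff.contDiffAt
  have e0 := (c0.div (c0.sub contDiffAt_const) (sub_pos.2 h1).ne').mul (h.b.at hx)
  have e1 := (c0.pow 2).mul (h.p.at hx)
  have e2 := ((c0.pow 2).mul (c1.sin.pow 2)).mul (h.q.at hx)
  have e3 := ((c0.sub (contDiffAt_const (c := 1))).div c0 (by linarith)).mul (h.a.at hx)
  have ez : ContDiffAt ℝ 2 (fun _ : E4 => (0 : ℝ)) x := contDiffAt_const
  intro i j
  fin_cases i <;> fin_cases j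
  exacts [e0, h.v.at hx, ez, ez, h.v.at hx, e1, ez, ez, ez, ez, e2, h.u.at hx, ez, ez, h.u.at hx,
    e3]

/-- A function of one variable with two derivatives on the set `S`. -/
structure PolT_D (S : Set ℝ) (f f' f'' : ℝ → ℝ) : Prop where
  d1 : ∀ r ∈ S, HasDerivAt f (f' r) r
  d2 : ∀ r ∈ S, HasDerivAt f' (f'' r) r

theorem PolT_D0 : PolT_D (Ioi 1) (fun r => r / (r - 1)) (fun r => -1 / (r - 1) ^ 2)
    fun r => 2 / (r - 1) ^ 3 := by
  refine ⟨fun r hr => ?_, fun r hr => ?_⟩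
  · have h : r - 1 ≠ 0 := (sub_pos.2 hr).ne'
    refine ((hasDerivAt_id' r).fun_div ((hasDerivAt_id' r).sub_const 1) h).congr_deriv ?_
    field_simp
    ring
  · have h : r - 1 ≠ 0 := (sub_pos.2 hr).ne'
    refine ((hasDerivAt_const r (-1 : ℝ)).fun_div (((hasDerivAt_id' r).sub_const 1).fun_pow 2)
      (pow_ne_zero 2 h)).congr_deriv ?_
    field_simp
    ring

theorem PolT_D1 : PolT_D (Ioi 1) (fun r => r ^ 2) (fun r => 2 * r) fun _ => 2 :=
  ⟨fun r _ => by simpa using hasDerivAt_pow 2 r,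
    fun r _ => by simpa using (hasDerivAt_id' r).const_mul 2⟩

theorem PolT_D3 : PolT_D (Ioi 1) (fun r => (r - 1) / r) (fun r => 1 / r ^ 2)
    fun r => -2 / r ^ 3 := by
  refine ⟨fun r hr => ?_, fun r hr => ?_⟩
  · have h : r ≠ 0 := (one_pos.trans hr).ne'
    refine (((hasDerivAt_id' r).sub_const 1).fun_div (hasDerivAt_id' r) h).congr_deriv ?_
    field_simp
    ring
  · have h : r ≠ 0 := (one_pos.trans hr).ne'
    refine ((hasDerivAt_const r (1 : ℝ)).fun_div ((hasDerivAt_id' r).fun_pow 2)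
      (pow_ne_zero 2 h)).congr_deriv ?_
    field_simp
    ring

theorem PolT_B1 : PolT_D univ (fun _ => 1) (fun _ => 0) fun _ => 0 :=
  ⟨fun r _ => hasDerivAt_const r _, fun r _ => hasDerivAt_const r _⟩

theorem PolT_B2 : PolT_D univ (fun t => sin t ^ 2) (fun t => 2 * sin t * cos t)
    fun t => 2 * (cos t ^ 2 - sin t ^ 2) := by
  refine ⟨fun t _ => ((hasDerivAt_sin t).fun_pow 2).congr_deriv (by norm_num), fun t _ =>
    (((hasDerivAt_sin t).const_mul 2).fun_mul (hasDerivAt_cos t)).congr_deriv (by ring)⟩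

theorem PolT_one {α β : ℝ → ℝ} {α' β' : ℝ} (hα : HasDerivAt α α' (x 0))
    (hβ : HasDerivAt β β' (x 1)) (hc : DifferentiableAt ℝ c x) (i : Fin 4) :
    pd i (fun y => α (y 0) * β (y 1) * c y) x =
      ![α' * β (x 1), α (x 0) * β', 0, 0] i * c x + α (x 0) * β (x 1) * pd i c x := by
  rw [pd_mul (diff_sep hα hβ) hc, pd_sep hα hβ]

section

variable {α α' α'' β β' β'' : ℝ → ℝ} {f : Fn}

theorem PolT_1 (hα : PolT_D (Ioi 1) α α' α'') (hβ : PolT_D univ β β' β'') (hc : Ax c)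
    (hf : ∀ y, f y = α (y 0) * β (y 1) * c y) (hx : x ∈ U1) (i : Fin 4) :
    pd i f x = ![α' (x 0) * β (x 1), α (x 0) * β' (x 1), 0, 0] i * c x +
      α (x 0) * β (x 1) * pd i c x := by
  rw [show f = _ from funext hf]
  exact PolT_one (hα.d1 _ hx) (hβ.d1 _ trivial) ((hc.at hx).differentiableAt (by simp)) i

theorem PolT_00 (hα : PolT_D (Ioi 1) α α' α'') (hβ : PolT_D univ β β' β'') (hc : Ax c)
    (hf : ∀ y, f y = α (y 0) * β (y 1) * c y) (hx : x ∈ U1) :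
    pd 0 (pd 0 f) x = α'' (x 0) * β (x 1) * c x + 2 * (α' (x 0) * β (x 1) * pd 0 c x) +
      α (x 0) * β (x 1) * pd 0 (pd 0 c) x := by
  have e : pd 0 f =ᶠ[𝓝 x] fun y => α' (y 0) * β (y 1) * c y + α (y 0) * β (y 1) * pd 0 c y := by
    filter_upwards [open_U1.mem_nhds hx] with y hy using PolT_1 hα hβ hc hf hy 0
  have d1 := (hc.at hx).differentiableAt (by simp)
  have d2 := diff_pd (hc.at hx) 0
  rw [pd_congr e, pd_add ((diff_sep (hα.d2 _ hx) (hβ.d1 _ trivial)).fun_mul d1)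
    ((diff_sep (hα.d1 _ hx) (hβ.d1 _ trivial)).fun_mul d2),
    PolT_one (hα.d2 _ hx) (hβ.d1 _ trivial) d1, PolT_one (hα.d1 _ hx) (hβ.d1 _ trivial) d2]
  simp only [Matrix.cons_val_zero]
  ring

theorem PolT_11 (hα : PolT_D (Ioi 1) α α' α'') (hβ : PolT_D univ β β' β'') (hc : Ax c)
    (hf : ∀ y, f y = α (y 0) * β (y 1) * c y) (hx : x ∈ U1) :
    pd 1 (pd 1 f) x = α (x 0) * β'' (x 1) * c x + 2 * (α (x 0) * β' (x 1) * pd 1 c x) +
      α (x 0) * β (x 1) * pd 1 (pd 1 c) x := by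
  have e : pd 1 f =ᶠ[𝓝 x] fun y => α (y 0) * β' (y 1) * c y + α (y 0) * β (y 1) * pd 1 c y := by
    filter_upwards [open_U1.mem_nhds hx] with y hy using PolT_1 hα hβ hc hf hy 1
  have d1 := (hc.at hx).differentiableAt (by simp)
  have d2 := diff_pd (hc.at hx) 1
  rw [pd_congr e, pd_add ((diff_sep (hα.d1 _ hx) (hβ.d2 _ trivial)).fun_mul d1)
    ((diff_sep (hα.d1 _ hx) (hβ.d1 _ trivial)).fun_mul d2),
    PolT_one (hα.d1 _ hx) (hβ.d2 _ trivial) d1, PolT_one (hα.d1 _ hx) (hβ.d1 _ trivial) d2]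
  simp only [Matrix.cons_val_zero, Matrix.cons_val_one]
  ring

end

theorem PolT_dmt (a b p q v u : Fn) (x : E4) (i : Fin 4) : dmt i (tk a b p q v u) x =
    !![pd i (fun y => y 0 / (y 0 - 1) * b y) x, pd i v x, 0, 0;
      pd i v x, pd i (fun y => y 0 ^ 2 * p y) x, 0, 0;
      0, 0, pd i (fun y => y 0 ^ 2 * sin (y 1) ^ 2 * q y) x, pd i u x;
      0, 0, pd i u x, pd i (fun y => (y 0 - 1) / y 0 * a y) x] := by
  have z := pd_const 0 x i
  ext k l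
  fin_cases k <;> fin_cases l
  exacts [rfl, rfl, z, z, rfl, rfl, z, z, z, z, rfl, rfl, z, z, rfl, rfl]

theorem PolT_dmt2 (a b p q v u : Fn) (x : E4) (i : Fin 4) : dmt i (dmt i (tk a b p q v u)) x =
    !![pd i (pd i fun y => y 0 / (y 0 - 1) * b y) x, pd i (pd i v) x, 0, 0;
      pd i (pd i v) x, pd i (pd i fun y => y 0 ^ 2 * p y) x, 0, 0;
      0, 0, pd i (pd i fun y => y 0 ^ 2 * sin (y 1) ^ 2 * q y) x, pd i (pd i u) x;
      0, 0, pd i (pd i u) x, pd i (pd i fun y => (y 0 - 1) / y 0 * a y) x] := by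
  have z : pd i (pd i fun _ => (0 : ℝ)) x = 0 := by
    rw [show (pd i fun _ => (0 : ℝ)) = fun _ => 0 from funext fun y => pd_const 0 y i, pd_const]
  ext k l
  fin_cases k <;> fin_cases l
  exacts [rfl, rfl, z, z, rfl, rfl, z, z, z, z, rfl, rfl, z, z, rfl, rfl]

theorem PolT_all (h : Ax6 a b p q v u) (hx : x ∈ U1) (i : Fin 4) : dmt i (tk a b p q v u) x =
    !![![-1 / (x 0 - 1) ^ 2 * 1, x 0 / (x 0 - 1) * 0, 0, 0] i * b x +
        x 0 / (x 0 - 1) * 1 * pd i b x, pd i v x, 0, 0;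
      pd i v x, ![2 * x 0 * 1, x 0 ^ 2 * 0, 0, 0] i * p x + x 0 ^ 2 * 1 * pd i p x, 0, 0;
      0, 0, ![2 * x 0 * sin (x 1) ^ 2, x 0 ^ 2 * (2 * sin (x 1) * cos (x 1)), 0, 0] i * q x +
        x 0 ^ 2 * sin (x 1) ^ 2 * pd i q x, pd i u x;
      0, 0, pd i u x, ![1 / x 0 ^ 2 * 1, (x 0 - 1) / x 0 * 0, 0, 0] i * a x +
        (x 0 - 1) / x 0 * 1 * pd i a x] := by
  rw [PolT_dmt, PolT_1 (f := fun y => y 0 / (y 0 - 1) * b y) PolT_D0 PolT_B1 h.b
      (fun y => by rw [mul_one]) hx,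
    PolT_1 (f := fun y => y 0 ^ 2 * p y) PolT_D1 PolT_B1 h.p (fun y => by rw [mul_one]) hx,
    PolT_1 PolT_D1 PolT_B2 h.q (fun y => rfl) hx,
    PolT_1 (f := fun y => (y 0 - 1) / y 0 * a y) PolT_D3 PolT_B1 h.a
      (fun y => by rw [mul_one]) hx]

/-- `pd_mul` and the derivatives of the four coefficients (the entries of `dmt_Gp`). -/
theorem dmt_tk0 (h : Ax6 a b p q v u) (hx : x ∈ U1) : dmt 0 (tk a b p q v u) x =
    !![-1 / (x 0 - 1) ^ 2 * b x + x 0 / (x 0 - 1) * pd 0 b x, pd 0 v x, 0, 0;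
      pd 0 v x, 2 * x 0 * p x + x 0 ^ 2 * pd 0 p x, 0, 0;
      0, 0, sin (x 1) ^ 2 * (2 * x 0 * q x + x 0 ^ 2 * pd 0 q x), pd 0 u x;
      0, 0, pd 0 u x, 1 / x 0 ^ 2 * a x + (x 0 - 1) / x 0 * pd 0 a x] := by
  have e : 2 * x 0 * sin (x 1) ^ 2 * q x + x 0 ^ 2 * sin (x 1) ^ 2 * pd 0 q x =
      sin (x 1) ^ 2 * (2 * x 0 * q x + x 0 ^ 2 * pd 0 q x) := by ring
  rw [PolT_all h hx]
  simp only [Matrix.cons_val_zero, mul_one, e]

theorem dmt_tk1 (h : Ax6 a b p q v u) (hx : x ∈ U1) : dmt 1 (tk a b p q v u) x =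
    !![x 0 / (x 0 - 1) * pd 1 b x, pd 1 v x, 0, 0; pd 1 v x, x 0 ^ 2 * pd 1 p x, 0, 0;
      0, 0, x 0 ^ 2 * (2 * sin (x 1) * cos (x 1) * q x + sin (x 1) ^ 2 * pd 1 q x), pd 1 u x;
      0, 0, pd 1 u x, (x 0 - 1) / x 0 * pd 1 a x] := by
  have e : x 0 ^ 2 * (2 * sin (x 1) * cos (x 1)) * q x + x 0 ^ 2 * sin (x 1) ^ 2 * pd 1 q x =
      x 0 ^ 2 * (2 * sin (x 1) * cos (x 1) * q x + sin (x 1) ^ 2 * pd 1 q x) := by ring
  rw [PolT_all h hx]
  simp only [Matrix.cons_val_zero, Matrix.cons_val_one, mul_one, mul_zero, zero_mul, zero_add, e]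

theorem dmt_tk2 (h : Ax6 a b p q v u) (hx : x ∈ U1) :
    dmt 2 (tk a b p q v u) x = 0 ∧ dmt 3 (tk a b p q v u) x = 0 := by
  have ha := h.a.pd2 hx
  have hb := h.b.pd2 hx
  have hp := h.p.pd2 hx
  have hq := h.q.pd2 hx
  have hv := h.v.pd2 hx
  have hu := h.u.pd2 hx
  rw [PolT_all h hx, PolT_all h hx, ha.1, ha.2, hb.1, hb.2, hp.1, hp.2, hq.1, hq.2, hv.1, hv.2,
    hu.1, hu.2]
  constructor <;> ext i j <;> fin_cases i <;> fin_cases j <;> simp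

/-- `dmt_congr` with `dmt_tk0` near `x`, then differentiate once more (or `pd_pd_mul`). -/
theorem dmt_tk00 (h : Ax6 a b p q v u) (hx : x ∈ U1) : dmt 0 (dmt 0 (tk a b p q v u)) x =
    !![2 / (x 0 - 1) ^ 3 * b x - 2 / (x 0 - 1) ^ 2 * pd 0 b x + x 0 / (x 0 - 1) * pd 0 (pd 0 b) x,
        pd 0 (pd 0 v) x, 0, 0;
      pd 0 (pd 0 v) x, 2 * p x + 4 * x 0 * pd 0 p x + x 0 ^ 2 * pd 0 (pd 0 p) x, 0, 0;
      0, 0, sin (x 1) ^ 2 * (2 * q x + 4 * x 0 * pd 0 q x + x 0 ^ 2 * pd 0 (pd 0 q) x),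
        pd 0 (pd 0 u) x;
      0, 0, pd 0 (pd 0 u) x,
        -2 / x 0 ^ 3 * a x + 2 / x 0 ^ 2 * pd 0 a x + (x 0 - 1) / x 0 * pd 0 (pd 0 a) x] := by
  rw [PolT_dmt2, PolT_00 (f := fun y => y 0 / (y 0 - 1) * b y) PolT_D0 PolT_B1 h.b
      (fun y => by rw [mul_one]) hx,
    PolT_00 (f := fun y => y 0 ^ 2 * p y) PolT_D1 PolT_B1 h.p (fun y => by rw [mul_one]) hx,
    PolT_00 PolT_D1 PolT_B2 h.q (fun y => rfl) hx,
    PolT_00 (f := fun y => (y 0 - 1) / y 0 * a y) PolT_D3 PolT_B1 h.a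
      (fun y => by rw [mul_one]) hx]
  ext i j
  fin_cases i <;> fin_cases j <;> simp <;> ring

theorem dmt_tk11 (h : Ax6 a b p q v u) (hx : x ∈ U1) : dmt 1 (dmt 1 (tk a b p q v u)) x =
    !![x 0 / (x 0 - 1) * pd 1 (pd 1 b) x, pd 1 (pd 1 v) x, 0, 0;
      pd 1 (pd 1 v) x, x 0 ^ 2 * pd 1 (pd 1 p) x, 0, 0;
      0, 0, x 0 ^ 2 * (2 * (cos (x 1) ^ 2 - sin (x 1) ^ 2) * q x +
        4 * sin (x 1) * cos (x 1) * pd 1 q x + sin (x 1) ^ 2 * pd 1 (pd 1 q) x), pd 1 (pd 1 u) x;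
      0, 0, pd 1 (pd 1 u) x, (x 0 - 1) / x 0 * pd 1 (pd 1 a) x] := by
  rw [PolT_dmt2, PolT_11 (f := fun y => y 0 / (y 0 - 1) * b y) PolT_D0 PolT_B1 h.b
      (fun y => by rw [mul_one]) hx,
    PolT_11 (f := fun y => y 0 ^ 2 * p y) PolT_D1 PolT_B1 h.p (fun y => by rw [mul_one]) hx,
    PolT_11 PolT_D1 PolT_B2 h.q (fun y => rfl) hx,
    PolT_11 (f := fun y => (y 0 - 1) / y 0 * a y) PolT_D3 PolT_B1 h.a
      (fun y => by rw [mul_one]) hx]
  ext i j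
  fin_cases i <;> fin_cases j <;> simp <;> ring

theorem dmt_tk22 (h : Ax6 a b p q v u) (hx : x ∈ U1) :
    dmt 2 (dmt 2 (tk a b p q v u)) x = 0 ∧ dmt 3 (dmt 3 (tk a b p q v u)) x = 0 := by
  have z : ∀ i, dmt i (fun _ => (0 : Mat)) x = 0 := fun i => by
    ext k l
    exact pd_const 0 x i
  constructor
  · refine (dmt_congr ?_ 2).trans (z 2)
    filter_upwards [open_U1.mem_nhds hx] with y hy using (dmt_tk2 h hy).1
  · refine (dmt_congr ?_ 3).trans (z 3)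
    filter_upwards [open_U1.mem_nhds hx] with y hy using (dmt_tk2 h hy).2

end Pool.Agent.Lib.MP_94aef8_gt.Kr
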